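import Pool.Agent.Lib.MP_b8e63c_lc.Ext

/-! Positive functionals and pure states. -/

open scoped ComplexOrder ComplexConjugate
open Set

namespace Pool.Agent.Lib.MP_b8e63c_lc

variable {A : Type*} [NormedRing A] [NormedAlgebra ℂ A] [StarRing A] [StarModule ℂ A]

theorem pos_expand {ω : A →L[ℂ] ℂ} (h : ∀ a, 0 ≤ ω (star a * a)) (a : A) (l : ℂ) :
    0 ≤ ω (star a * a) + l * ω (star a) + conj l * ω a + conj l * l * ω 1 := by
  have := h (a + l • 1)
  simp only [star_add, star_smul, star_one, add_mul, mul_add, smul_mul_assoc, mul_smul_comm,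
    map_add, map_smul, smul_eq_mul, mul_one, one_mul, Complex.star_def] at this
  convert this using 1
  ring

omit [StarModule ℂ A] in
theorem pos_one {ω : A →L[ℂ] ℂ} (h : ∀ a, 0 ≤ ω (star a * a)) : 0 ≤ ω 1 := by
  simpa using h 1

theorem pos_star {ω : A →L[ℂ] ℂ} (h : ∀ a, 0 ≤ ω (star a * a)) (a : A) :
    ω (star a) = conj (ω a) := by
  have h0 := (Complex.nonneg_iff.1 (h a)).2
  have h1 := (Complex.nonneg_iff.1 (pos_one h)).2
  have h2 := (Complex.nonneg_iff.1 (pos_expand h a 1)).2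
  have h3 := (Complex.nonneg_iff.1 (pos_expand h a Complex.I)).2
  simp [← h0, ← h1] at h2 h3
  exact Complex.ext (by simp; linarith) (by simp; linarith)

/-- A bounded positive functional has its norm at the unit. -/
theorem norm_le_of_pos [NormedStarGroup A] {ω : A →L[ℂ] ℂ} (h : ∀ a, 0 ≤ ω (star a * a)) :
    ‖ω‖ ≤ (ω 1).re := by
  have h1 := Complex.nonneg_iff.1 (pos_one h)
  have cs : ∀ a, ‖ω a‖ ^ 2 ≤ (ω 1).re * (ω (star a * a)).re := fun a => by
    have := discrim_le_zero (a := ‖ω a‖ ^ 2 * (ω 1).re) (b := 2 * ‖ω a‖ ^ 2)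
      (c := (ω (star a * a)).re) fun t => by
        have h2 := (Complex.nonneg_iff.1 (pos_expand h a (t * ω a))).1
        rw [pos_star h] at h2
        simp [← h1.2] at h2
        rw [Complex.sq_norm, Complex.normSq_apply]
        linarith
    rw [discrim] at this
    rcases (sq_nonneg ‖ω a‖).eq_or_lt with h3 | h3
    · rw [← h3]
      exact mul_nonneg h1.1 (Complex.nonneg_iff.1 (h a)).1
    · nlinarith
  have h2 : ‖ω‖ ≤ √((ω 1).re * ‖ω‖) := by
    refine ContinuousLinearMap.opNorm_le_bound _ (Real.sqrt_nonneg _) fun a => ?_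
    refine (pow_le_pow_iff_left₀ (norm_nonneg _) (by positivity) two_ne_zero).1 ((cs a).trans ?_)
    rw [mul_pow, Real.sq_sqrt (mul_nonneg h1.1 (norm_nonneg _)), mul_assoc]
    refine mul_le_mul_of_nonneg_left ((Complex.re_le_norm _).trans ((ω.le_opNorm _).trans
      (mul_le_mul_of_nonneg_left ((norm_mul_le _ _).trans_eq ?_) (norm_nonneg _)))) h1.1
    rw [norm_star, sq]
  have h3 := (Real.le_sqrt (norm_nonneg _) (mul_nonneg h1.1 (norm_nonneg _))).1 h2
  by_contra h4
  nlinarith [norm_nonneg ω]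

theorem state_one [NormedStarGroup A] (hA : ‖(1 : A)‖ ≤ 1) {φ : A →L[ℂ] ℂ} (h : φ ∈ States A) :
    φ 1 = 1 := by
  have h1 := norm_le_of_pos h.1
  have h2 := (Complex.re_le_norm _).trans (φ.le_opNorm 1)
  rw [h.2] at h1 h2
  exact Complex.ext (by rw [Complex.one_re]; linarith) (Complex.nonneg_iff.1 (pos_one h.1)).2.symm

/-- A positive functional below a pure state is a multiple of it. -/
theorem pure_eq [NormedStarGroup A] (hA : ‖(1 : A)‖ ≤ 1) {φ ω : A →L[ℂ] ℂ} (hφ : φ ∈ PureStates A)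
    (h₁ : ∀ a, 0 ≤ ω (star a * a)) (h₂ : ∀ a, 0 ≤ (φ - ω) (star a * a)) (a : A) :
    ω a = ω 1 * φ a := by
  have one := state_one hA hφ.1
  have k₁ := Complex.nonneg_iff.1 (pos_one h₁)
  have k₂ := Complex.nonneg_iff.1 (pos_one h₂)
  have st : ∀ {χ : A →L[ℂ] ℂ}, (∀ a, 0 ≤ χ (star a * a)) → 0 < (χ 1).re →
      (χ 1).re⁻¹ • χ ∈ States A := fun {χ} h h0 => by
    refine mem_states (fun a => smul_nonneg (inv_nonneg.2 h0.le) (h a)) ?_ ?_ hA
    · rw [norm_smul, Real.norm_of_nonneg (inv_nonneg.2 h0.le), inv_mul_le_one₀ h0]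
      exact norm_le_of_pos h
    · refine Complex.ext ?_ ?_
      · simp [h0.ne']
      · simp [← (Complex.nonneg_iff.1 (pos_one h)).2]
  rcases k₁.1.eq_or_lt with h | h
  · have := norm_le_of_pos h₁
    rw [← h, norm_le_zero_iff] at this
    simp [this]
  rcases k₂.1.eq_or_lt with h' | h'
  · have := norm_le_of_pos h₂
    rw [← h', norm_le_zero_iff, sub_eq_zero] at this
    rw [← this, one, one_mul]
  have := (mem_extremePoints.1 hφ).2 _ (st h₁ h) _ (st h₂ h') ⟨_, _, h, h', by simp [one], by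
    rw [smul_inv_smul₀ h.ne', smul_inv_smul₀ h'.ne', add_sub_cancel]⟩
  have e : ω 1 = (ω 1).re := Complex.ext rfl (by rw [← k₁.2]; rfl)
  rw [← this.1, e, ← Complex.real_smul]
  exact (smul_inv_smul₀ h.ne' (ω a)).symm

/-- A pure state is multiplicative against a central projection. -/
theorem pure_mul [NormedStarGroup A] (hA : ‖(1 : A)‖ ≤ 1) {φ : A →L[ℂ] ℂ} (hφ : φ ∈ PureStates A)
    {z : A} (hz : IsStarProjection z) (hc : ∀ a, a * z = z * a) (a : A) :
    φ (z * a) = φ z * φ a := by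
  have key : ∀ {w : A}, IsStarProjection w → (∀ a, a * w = w * a) → ∀ a,
      0 ≤ φ (w * (star a * a)) := fun {w} hw hc a => by
    have := hφ.1.1 (a * w)
    rwa [star_mul, hw.isSelfAdjoint.star_eq, mul_assoc, ← mul_assoc (star a), hc, ← mul_assoc,
      hw.isIdempotentElem.eq] at this
  have := pure_eq hA hφ (ω := φ.comp (ContinuousLinearMap.mul ℂ A z)) (key hz hc) (fun a => by
    have := key hz.one_sub (fun a => by rw [mul_sub, sub_mul, hc, mul_one, one_mul]) a
    rwa [sub_mul, one_mul, map_sub] at this) a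
  simpa using this

/-- A state that is one at a projection only sees the compression. -/
theorem state_compress [NormedStarGroup A] (hA : ‖(1 : A)‖ ≤ 1) {φ : A →L[ℂ] ℂ} (hφ : φ ∈ States A)
    {p : A} (hp : IsStarProjection p) (h1 : φ p = 1) (a : A) : φ (p * a * p) = φ a := by
  have r : ∀ b, φ (b * p) = φ b := fun b => by
    have := cs_zero hφ.1 (q := 1 - p) (by
      rw [hp.one_sub.isSelfAdjoint.star_eq, hp.one_sub.isIdempotentElem.eq, map_sub,
        state_one hA hφ, h1, sub_self]) b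
    rw [mul_sub, mul_one, map_sub, sub_eq_zero] at this
    exact this.symm
  rw [r, ← star_star (p * a), pos_star hφ.1, star_mul, hp.isSelfAdjoint.star_eq, r, pos_star hφ.1,
    Complex.conj_conj]

end Pool.Agent.Lib.MP_b8e63c_lc
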