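import Pool.Agent.Lib.MP_b8e63c_lc.Pave
import Pool.Agent.Lib.MP_b8e63c_lc.Pure

/-! A pure state that lives on blocks of a fixed size along an ultrafilter is diagonalizable. -/

open scoped InnerProductSpace ComplexOrder ComplexConjugate
open Set Filter Topology

noncomputable section

namespace Pool.Agent.Lib.MP_b8e63c_lc

variable {H : Type*} [NormedAddCommGroup H] [InnerProductSpace ℂ H] [CompleteSpace H]

theorem diag_of_seq [TopologicalSpace.SeparableSpace H] (hH : ¬ FiniteDimensional ℂ H) {κ : Type*}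
    {ξ : κ → H} (hξ : Orthonormal ℂ ξ) (U : Ultrafilter κ) {φ : (H →L[ℂ] H) →L[ℂ] ℂ}
    (h : ∀ T : H →L[ℂ] H, Tendsto (fun k => ⟪ξ k, T (ξ k)⟫_ℂ) U (𝓝 (φ T))) : Diagonalizable φ := by
  obtain ⟨w, b, hw, hb⟩ := hξ.toSubtypeRange.exists_hilbertBasis_extension
  have : Countable w := by
    refine Pairwise.countable_of_isOpen_disjoint (s := fun i => Metric.ball (b i) (1 / 2))
      (fun i j hij => Metric.ball_disjoint_ball ?_) (fun _ => Metric.isOpen_ball)
      fun _ => Metric.nonempty_ball.2 (by norm_num)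
    have h1 := norm_inner_le_norm (𝕜 := ℂ) (b i) (b i - b j)
    rw [inner_sub_right, b.orthonormal.2 hij, inner_self_eq_norm_sq_to_K, b.orthonormal.1 i] at h1
    rw [dist_eq_norm]
    norm_num at h1 ⊢
    exact h1
  have : Infinite w := by
    by_contra h1
    have : Finite w := not_infinite_iff_finite.1 h1
    have := Fintype.ofFinite w
    exact hH (Module.Finite.of_basis b.toOrthonormalBasis.toBasis)
  obtain ⟨σ⟩ : Nonempty (ℕ ≃ w) := nonempty_equiv_of_countable
  refine ⟨HilbertBasis.mk (b.orthonormal.comp σ σ.injective) (by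
    rw [σ.surjective.range_comp, b.dense_span]), U.map fun k => σ.symm ⟨ξ k, hw ⟨k, rfl⟩⟩,
    fun T => ?_⟩
  rw [HilbertBasis.coe_mk, Ultrafilter.coe_map, tendsto_map'_iff]
  simpa [Function.comp_def, hb] using h T

theorem prs_eq {κ : Type*} {a : κ → H} {Z : Set κ} {x v : H}
    (h1 : v ∈ closure (Submodule.span ℂ (a '' Z) : Set H))
    (h2 : ∀ k ∈ Z, ⟪a k, v⟫_ℂ = ⟪a k, x⟫_ℂ) : prs a Z x = v := by
  refine pr_eq h1 fun w hw => ?_
  have : Submodule.span ℂ (a '' Z) ≤ (innerSL ℂ (x - v)).ker := Submodule.span_le.2 (by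
    rintro _ ⟨k, hk, rfl⟩
    show ⟪x - v, a k⟫_ℂ = 0
    rw [inner_eq_zero_symm, inner_sub_right, h2 k hk, sub_self])
  exact this hw

theorem prs_proj {κ : Type*} (a : κ → H) (Z : Set κ) : IsStarProjection (prs a Z) := pr_proj _

theorem prs_mul {κ : Type*} (a : κ → H) {Y Z : Set κ} (h : Y ⊆ Z) : prs a Y * prs a Z = prs a Y := by
  ext x
  exact pr_pr (Submodule.span_mono (image_mono h)) x

theorem prs_sum {κ : Type*} {n : ℕ} {e : κ × Fin n → H} (he : Orthonormal ℂ e) (Z : Set κ) :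
    prs e (Z ×ˢ univ) = ∑ i, prs (fun k => e (k, i)) Z := by
  ext x
  rw [sum_apply]
  refine prs_eq ((Submodule.span ℂ _).topologicalClosure.sum_mem fun i _ => closure_mono
    (SetLike.coe_subset_coe.2 (Submodule.span_mono ?_)) (pr_mem _ x)) ?_
  · rintro _ ⟨k, hk, rfl⟩
    exact ⟨(k, i), ⟨hk, trivial⟩, rfl⟩
  · rintro ⟨k, j⟩ ⟨hk, -⟩
    rw [inner_sum, Finset.sum_eq_single j (fun i _ hi => ?_) (by simp)]
    · exact inner_pr_of_mem x (subset_closure (Submodule.subset_span ⟨k, hk, rfl⟩))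
    · have : prs (fun k => e (k, i)) Z (e (k, j)) = 0 :=
        prs_eq (subset_closure (Submodule.zero_mem _)) fun l _ => by
          rw [inner_zero_right, he.2 fun h => hi (congrArg Prod.snd h)]
      rw [← inner_sa (prs_proj _ _).isSelfAdjoint.star_eq, this, inner_zero_left]

/-- The limits of the matrix entries determine a state that lives on the blocks. -/
theorem exists_density {κ : Type*} {n : ℕ} {e : κ × Fin n → H} (he : Orthonormal ℂ e)
    (U : Ultrafilter κ) {φ : (H →L[ℂ] H) →L[ℂ] ℂ} (hφ : φ ∈ States (H →L[ℂ] H))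
    (h1 : ∀ Z ∈ U, φ (prs e (Z ×ˢ univ)) = 1) :
    ∃ (L : Fin n × Fin n → (H →L[ℂ] H) →L[ℂ] ℂ) (ρ : Fin n × Fin n → ℂ),
      (∀ p T, Tendsto (fun k => ⟪e (k, p.1), T (e (k, p.2))⟫_ℂ) U (𝓝 (L p T))) ∧
      ∀ T, φ T = ∑ p, ρ p * L p T := by
  have ho : ∀ i, Orthonormal ℂ fun k => e (k, i) := fun i =>
    he.comp (fun k => (k, i)) fun _ _ h => congrArg Prod.fst h
  have ex : ∀ (p : Fin n × Fin n) (T : H →L[ℂ] H), ∃ l, ‖l‖ ≤ 1 * ‖T‖ ∧
      Tendsto (fun k => ⟪e (k, p.1), T (e (k, p.2))⟫_ℂ) U (𝓝 l) := fun p T => by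
    obtain ⟨l, l1, l2⟩ := (isCompact_closedBall (0 : ℂ) ‖T‖).ultrafilter_le_nhds'
      (U.map fun k => ⟪e (k, p.1), T (e (k, p.2))⟫_ℂ) (mem_map.2 (univ_mem' fun k =>
        mem_closedBall_zero_iff.2 ((norm_inner_le_norm _ _).trans (by
          simpa [he.1] using T.le_opNorm (e (k, p.2))))))
    exact ⟨l, by simpa using l1, l2⟩
  choose l l1 l2 using ex
  let L : Fin n × Fin n → (H →L[ℂ] H) →ₗ[ℂ] ℂ := fun p =>
    { toFun := l p
      map_add' := fun S T => tendsto_nhds_unique (l2 p (S + T)) (by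
        simpa [inner_add_right] using (l2 p S).add (l2 p T))
      map_smul' := fun c T => tendsto_nhds_unique (l2 p (c • T)) (by
        simpa [inner_smul_right] using (l2 p T).const_mul c) }
  have ker : ⨅ p, LinearMap.ker (L p) ≤ LinearMap.ker φ.toLinearMap := fun T hT => by
    have h0 : ∀ p, l p T = 0 := (Submodule.mem_iInf _).1 hT
    refine norm_le_zero_iff.1 (le_of_forall_pos_le_add fun ε hε => ?_)
    choose Z Z1 Z2 using fun p : Fin n × Fin n =>
      pave (ho p.1) (ho p.2) U T (h0 p ▸ l2 p T) (ε := ε / (n * n + 1)) (by positivity)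
    have h2 := state_compress ContinuousLinearMap.norm_id_le hφ (prs_proj _ _)
      (h1 _ (iInter_mem.2 Z1)) T
    have h3 : ∀ i j, ‖prs (fun k => e (k, i)) (⋂ p, Z p) * T * prs (fun k => e (k, j)) (⋂ p, Z p)‖ ≤
        ε / (n * n + 1) := fun i j => by
      rw [← prs_mul _ (iInter_subset Z (i, j)), ← swap_mul (prs_proj _ _) (prs_proj _ _)
        (prs_proj _ _).isSelfAdjoint.star_eq (prs_mul (fun k => e (k, j)) (iInter_subset Z (i, j))),
        mul_assoc _ _ T, mul_assoc, ← mul_assoc (_ * T)]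
      exact (norm_mul_le _ _).trans ((mul_le_of_le_one_left (norm_nonneg _)
        (pr_proj _).norm_le).trans ((norm_mul_le _ _).trans ((mul_le_of_le_one_right
          (norm_nonneg _) (pr_proj _).norm_le).trans (Z2 (i, j)))))
    have h4 := φ.le_opNorm (prs e ((⋂ p, Z p) ×ˢ univ) * T * prs e ((⋂ p, Z p) ×ˢ univ))
    rw [hφ.2, one_mul] at h4
    refine (h2 ▸ h4 :).trans ?_
    rw [prs_sum he, Finset.sum_mul, Finset.sum_mul_sum]
    refine (norm_sum_le_of_le _ fun i _ => norm_sum_le_of_le _ fun j _ => h3 i j).trans ?_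
    simp only [Finset.sum_const, Finset.card_univ, Fintype.card_fin, nsmul_eq_mul, zero_add]
    rw [← mul_assoc, ← mul_div_assoc, div_le_iff₀ (by positivity)]
    nlinarith
  obtain ⟨ρ, hρ⟩ := (Submodule.mem_span_range_iff_exists_fun ℂ).1 (mem_span_of_iInf_ker_le_ker ker)
  refine ⟨fun p => (L p).mkContinuous 1 (l1 p), ρ, l2, fun T => ?_⟩
  simpa using (LinearMap.congr_fun hρ T).symm

/-- A pure state that lives on blocks of a fixed size is diagonalizable. -/
theorem diag_of_blocks [TopologicalSpace.SeparableSpace H] (hH : ¬ FiniteDimensional ℂ H)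
    {κ : Type*} {n : ℕ} {e : κ × Fin n → H} (he : Orthonormal ℂ e) (U : Ultrafilter κ)
    {φ : (H →L[ℂ] H) →L[ℂ] ℂ} (hφ : φ ∈ PureStates (H →L[ℂ] H))
    (h1 : ∀ Z ∈ U, φ (prs e (Z ×ˢ univ)) = 1) : Diagonalizable φ := by
  classical
  obtain ⟨L, ρ, hL, hρ⟩ := exists_density he U hφ.1 h1
  let ξ : (Fin n → ℂ) → κ → H := fun x k => ∑ i, x i • e (k, i)
  let ω : (Fin n → ℂ) → (H →L[ℂ] H) →L[ℂ] ℂ := fun x => ∑ p, (conj (x p.1) * x p.2) • L p
  have lim : ∀ x T, Tendsto (fun k => ⟪ξ x k, T (ξ x k)⟫_ℂ) U (𝓝 (ω x T)) := fun x T => by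
    have := tendsto_finsetSum Finset.univ fun p _ => (hL p T).const_mul (conj (x p.1) * x p.2)
    simp only [ξ, ω, map_sum, map_smul, sum_inner, inner_sum, inner_smul_left, inner_smul_right,
      sum_apply, smul_apply, smul_eq_mul]
    convert this using 2 with k
    rw [Fintype.sum_prod_type_right]
    exact Finset.sum_congr rfl fun i _ => by simp only [Finset.mul_sum, mul_left_comm, mul_assoc]
  have i1 : ∀ x k l j, ⟪e (l, j), ξ x k⟫_ℂ = if l = k then x j else 0 := fun x k l j => by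
    simp [ξ, orthonormal_iff_ite.1 he, ite_and]
  have i2 : ∀ x k l, ⟪ξ x l, ξ x k⟫_ℂ = if l = k then ((∑ i, ‖x i‖ ^ 2 : ℝ) : ℂ) else 0 := by
    intro x k l
    rw [show ξ x l = ∑ i, x i • e (l, i) from rfl, sum_inner]
    simp only [inner_smul_left, i1]
    split_ifs <;> simp [Complex.conj_mul']
  have pos : ∀ x T, 0 ≤ ω x (star T * T) := fun x T => ge_of_tendsto' (lim x _) fun k => by
    rw [mul_apply_eq_comp, ← inner_star, star_star, inner_self_eq_norm_sq_to_K]
    exact pow_nonneg (Complex.zero_le_real.2 (norm_nonneg (T (ξ x k)))) 2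
  have psd : (Matrix.of fun i j => ρ (i, j)).PosSemidef := by
    have key : ∀ y : Fin n → ℂ, 0 ≤ ∑ p, ρ p * (y p.1 * conj (y p.2)) := fun y => by
      rcases (Finset.sum_nonneg fun i (_ : i ∈ Finset.univ) => sq_nonneg ‖y i‖).eq_or_lt with h | h
      · have := (Finset.sum_eq_zero_iff_of_nonneg fun i _ => sq_nonneg ‖y i‖).1 h.symm
        simp [show ∀ i, y i = 0 by simpa using this]
      obtain ⟨s, hs⟩ : ∃ s, s = ∑ i, ‖y i‖ ^ 2 := ⟨_, rfl⟩
      rw [← hs] at h
      have h2 : ∀ k j, prs (ξ y) univ (e (k, j)) = (conj (y j) / s) • ξ y k := fun k j =>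
        prs_eq (subset_closure (Submodule.smul_mem _ _ (Submodule.subset_span ⟨k, trivial, rfl⟩)))
          fun l _ => by
            rw [inner_smul_right, i2, ← inner_conj_symm, i1, ← hs]
            by_cases hl : l = k
            · simp [hl, h.ne']
            · simp [hl, Ne.symm hl]
      have h3 : ∀ p, L p (prs (ξ y) univ) = y p.1 * conj (y p.2) / s := fun p =>
        tendsto_nhds_unique (hL p _) (by
          simp only [h2, inner_smul_right, i1, if_true]
          convert tendsto_const_nhds using 2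
          ring)
      have h4 := hφ.1.1 (prs (ξ y) univ)
      rw [(prs_proj _ _).isSelfAdjoint.star_eq, (prs_proj _ _).isIdempotentElem.eq] at h4
      have h5 := mul_nonneg h4 (Complex.zero_le_real.2 h.le)
      rw [hρ, Finset.sum_mul] at h5
      simpa [h3, mul_assoc, h.ne'] using h5
    rw [← Matrix.isPositive_toEuclideanLin_iff, LinearMap.isPositive_iff_complex]
    intro y
    have h := key fun i => conj (y i)
    have e1 : ⟪y, (Matrix.of fun i j => ρ (i, j)).toEuclideanLin y⟫_ℂ =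
        ∑ p, ρ p * (conj (y p.1) * conj (conj (y p.2))) := by
      simp [PiLp.inner_apply, Matrix.mulVec, dotProduct, Fintype.sum_prod_type, Finset.sum_mul,
        mul_assoc, mul_comm (conj _)]
    rw [← inner_conj_symm, e1]
    generalize ∑ p, ρ p * (conj (y p.1) * conj (conj (y p.2))) = w at h
    obtain ⟨h2, h3⟩ := Complex.nonneg_iff.1 h
    exact ⟨Complex.ext (by simp) (by simp [← h3]), by simpa using h2⟩
  obtain ⟨m, v, hv⟩ := Matrix.posSemidef_iff_eq_sum_vecMulVec.1 psd
  have dec : φ = ∑ l, ω (star (v l)) := by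
    ext T
    simp only [hρ, ω, sum_apply, smul_apply, smul_eq_mul]
    rw [Finset.sum_comm]
    refine Finset.sum_congr rfl fun p _ => ?_
    have := congrFun (congrFun hv p.1) p.2
    simp only [Matrix.of_apply, Matrix.sum_apply, Matrix.vecMulVec_apply] at this
    simp [this, Finset.sum_mul]
  have one := state_one ContinuousLinearMap.norm_id_le hφ.1
  obtain ⟨l, -, hl⟩ := Finset.exists_ne_zero_of_sum_ne_zero (s := Finset.univ)
    (f := fun l => ω (star (v l)) 1) (by rw [← sum_apply, ← dec]; exact one.trans_ne one_ne_zero)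
  have pe := pure_eq ContinuousLinearMap.norm_id_le hφ (pos (star (v l))) fun T => by
    rw [dec, ← Finset.add_sum_erase _ _ (Finset.mem_univ l), add_sub_cancel_left, sum_apply]
    exact Finset.sum_nonneg fun _ _ => pos _ _
  generalize star (v l) = x at hl pe
  obtain ⟨s, hs⟩ : ∃ s, s = ∑ i, ‖x i‖ ^ 2 := ⟨_, rfl⟩
  have s1 : ω x 1 = s := tendsto_nhds_unique (lim x 1) (by
    simp only [ContinuousLinearMap.one_def, ContinuousLinearMap.id_apply, i2, if_true, ← hs]
    exact tendsto_const_nhds)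
  have s0 : 0 < s := (hs ▸ Finset.sum_nonneg fun i _ => sq_nonneg ‖x i‖ : 0 ≤ s).lt_of_ne'
    fun h => hl (by rw [s1, h]; rfl)
  have sq : (((√s)⁻¹ : ℝ) : ℂ) * (((√s)⁻¹ : ℝ) : ℂ) * s = 1 := by
    rw [← Complex.ofReal_mul, ← Complex.ofReal_mul, ← mul_inv, Real.mul_self_sqrt s0.le,
      inv_mul_cancel₀ s0.ne', Complex.ofReal_one]
  refine diag_of_seq hH (ξ := fun k => (((√s)⁻¹ : ℝ) : ℂ) • ξ x k) (orthonormal_iff_ite.2
    fun k l => ?_) U fun T => ?_
  · rw [inner_smul_left, inner_smul_right, Complex.conj_ofReal, i2, ← hs, ← mul_assoc]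
    split_ifs
    · exact sq
    · exact mul_zero _
  · have := (lim x T).const_mul ((((√s)⁻¹ : ℝ) : ℂ) * (((√s)⁻¹ : ℝ) : ℂ))
    rw [pe, s1, ← mul_assoc, sq, one_mul] at this
    simpa only [map_smul, inner_smul_left, inner_smul_right, Complex.conj_ofReal, mul_assoc]
      using this

end Pool.Agent.Lib.MP_b8e63c_lc
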