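import Pool.Agent.Lib.MP_b8e63c_lc.Cell
import Pool.Agent.Lib.MP_b8e63c_lc.Diag

/-! Minimal projections of an abelian von Neumann algebra, and cells inside a subspace. -/

open scoped InnerProductSpace ComplexOrder ComplexConjugate
open Set Filter

noncomputable section

namespace Pool.Agent.Lib.MP_b8e63c_lc

/-- A finitely additive zero-one function comes from an ultrafilter. -/
theorem ultra_of_add {κ : Type*} (f : Set κ → ℂ) (h01 : ∀ Z, f Z = 0 ∨ f Z = 1)
    (hadd : ∀ Y Z, Disjoint Y Z → f (Y ∪ Z) = f Y + f Z) (h1 : f univ = 1) :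
    ∃ U : Ultrafilter κ, ∀ Z ∈ U, f Z = 1 := by
  have two : ∀ Y Z, Disjoint Y Z → f Y = 1 → f Z = 0 := fun Y Z h hY =>
    (h01 Z).resolve_right fun hZ => by
      have := h01 (Y ∪ Z)
      rw [hadd Y Z h, hY, hZ] at this
      norm_num at this
  have cp : ∀ Z, f Zᶜ = 0 → f Z = 1 := fun Z h => by
    have := hadd Z Zᶜ disjoint_compl_right
    rwa [union_compl_self, h1, h, add_zero, eq_comm] at this
  refine ⟨Ultrafilter.ofComplNotMemIff ⟨{Z | f Z = 1}, h1, fun {Y Z} hY h => cp Z (two Y _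
    (disjoint_compl_right.mono_left h) hY), fun {Y Z} hY hZ => cp _ ?_⟩ fun Z => ⟨fun h => cp Z
      ((h01 _).resolve_right h), fun h h' => zero_ne_one ((two Z _ disjoint_compl_right h).symm.trans
        h')⟩, fun Z hZ => hZ⟩
  rw [compl_inter, ← union_sdiff_self, hadd _ _ disjoint_sdiff_right, two Y _ disjoint_compl_right hY,
    two Z _ (disjoint_compl_right.mono_right sdiff_subset) hZ, add_zero]

variable {H : Type*} [NormedAddCommGroup H] [InnerProductSpace ℂ H]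

theorem exists_onb (V : Submodule ℂ H) {n : ℕ} (h : Module.rank ℂ V = n) :
    ∃ g : Fin n → H, Orthonormal ℂ g ∧ Submodule.span ℂ (range g) = V := by
  have := Module.finite_of_rank_eq_nat h
  obtain rfl := Module.finrank_eq_of_rank_eq h
  refine ⟨V.subtypeₗᵢ ∘ stdOrthonormalBasis ℂ V,
    (stdOrthonormalBasis ℂ V).orthonormal.comp_linearIsometry _, ?_⟩
  have h1 := congrArg (Submodule.map V.subtype) (stdOrthonormalBasis ℂ V).toBasis.span_eq
  rwa [Submodule.map_span, ← range_comp, Submodule.map_subtype_top] at h1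

/-- Orthogonal cells inside a subspace, of arbitrarily high level when the rank is large. -/
theorem cells (d : ℕ → ℕ) (V : Submodule ℂ H) : ∃ (J : Set ℕ) (g : ∀ s, Fin (d s) → H),
    (∀ s ∈ J, Orthonormal ℂ (g s) ∧ ∀ i, g s i ∈ V) ∧
    (∀ s ∈ J, ∀ r ∈ J, s ≠ r → ∀ i j, ⟪g s i, g r j⟫_ℂ = 0) ∧
    ∀ s₀, ((d s₀ + s₀ : ℕ) : Cardinal) < Module.rank ℂ V → ∃ s ∈ J, s₀ ≤ s := by
  by_cases hV : Module.Finite ℂ V
  · obtain ⟨ρ, hρ⟩ : ∃ ρ : ℕ, Module.rank ℂ V = ρ := ⟨_, (Module.finrank_eq_rank ℂ V).symm⟩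
    obtain ⟨b, b1, b2⟩ := exists_onb V hρ
    refine ⟨{s | s = Nat.findGreatest (fun s => d s ≤ ρ) ρ ∧ d s ≤ ρ},
      fun s i => if h : d s ≤ ρ then b (i.castLE h) else 0, fun s hs => ?_,
      fun s hs r hr h => absurd (hs.1.trans hr.1.symm) h, fun s₀ h => ?_⟩
    · simp only [dif_pos hs.2]
      exact ⟨b1.comp _ (Fin.castLE_injective hs.2), fun i => b2 ▸ Submodule.subset_span ⟨_, rfl⟩⟩
    · rw [hρ, Nat.cast_lt] at h
      exact ⟨_, ⟨rfl, Nat.findGreatest_spec (P := fun s => d s ≤ ρ) (m := s₀) (by omega) (by omega)⟩,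
        Nat.le_findGreatest (by omega) (by omega)⟩
  · let b := Module.Basis.ofVectorSpace ℂ V
    have : Infinite (Module.Basis.ofVectorSpaceIndex ℂ V) := not_finite_iff_infinite.1 fun _ =>
      hV (Module.Finite.of_basis b)
    have h1 := (InnerProductSpace.gramSchmidtNormed_orthonormal (b.linearIndependent.comp _
      (Infinite.natEmbedding _).injective)).comp_linearIsometry V.subtypeₗᵢ
    exact ⟨univ, fun s i => _, fun s _ => ⟨h1.comp (fun i : Fin (d s) => Nat.pair s i)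
      fun i j h => Fin.ext (Nat.pair_eq_pair.1 h).2, fun i => Subtype.prop _⟩,
      fun s _ r _ h i j => h1.2 fun h' => h (Nat.pair_eq_pair.1 h').1,
      fun s₀ _ => ⟨s₀, trivial, le_rfl⟩⟩

variable [CompleteSpace H]

theorem prs_union {κ : Type*} {a : κ → H} (ha : Orthonormal ℂ a) {Y Z : Set κ} (h : Disjoint Y Z) :
    prs a (Y ∪ Z) = prs a Y + prs a Z := by
  have k0 : ∀ {Z : Set κ} {k}, k ∉ Z → ∀ x, ⟪a k, prs a Z x⟫_ℂ = 0 := fun {Z k} hk x => by
    have : prs a Z (a k) = 0 := prs_eq (subset_closure (Submodule.zero_mem _)) fun l hl => by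
      rw [inner_zero_right, ha.2 (ne_of_mem_of_not_mem hl hk)]
    rw [← inner_sa (prs_proj _ _).isSelfAdjoint.star_eq, this, inner_zero_left]
  have k1 : ∀ {Z : Set κ} {k}, k ∈ Z → ∀ x, ⟪a k, prs a Z x⟫_ℂ = ⟪a k, x⟫_ℂ := fun hk x =>
    inner_pr_of_mem x (subset_closure (Submodule.subset_span ⟨_, hk, rfl⟩))
  ext x
  refine prs_eq ((Submodule.span ℂ _).topologicalClosure.add_mem (closure_mono
    (SetLike.coe_subset_coe.2 (Submodule.span_mono (image_mono subset_union_left))) (pr_mem _ x))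
    (closure_mono (SetLike.coe_subset_coe.2 (Submodule.span_mono (image_mono subset_union_right)))
      (pr_mem _ x))) fun k hk => ?_
  rw [add_apply, inner_add_right]
  rcases hk with hk | hk
  · rw [k1 hk, k0 (disjoint_left.1 h hk), add_zero]
  · rw [k1 hk, k0 (disjoint_right.1 h hk), zero_add]

theorem pr_range {c : H →L[ℂ] H} (hc : IsStarProjection c) : pr c.range = c := by
  ext x
  refine pr_eq (subset_closure ⟨x, rfl⟩) ?_
  rintro _ ⟨y, rfl⟩
  show ⟪x - c x, c y⟫_ℂ = 0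
  rw [← inner_sa hc.isSelfAdjoint.star_eq, map_sub, ← mul_apply_eq_comp c c,
    hc.isIdempotentElem.eq, sub_self, inner_zero_left]

theorem range_ortho {c c' : H →L[ℂ] H} (hc : IsStarProjection c) (h : c * c' = 0) :
    c.range ⟂ c'.range := by
  refine Submodule.isOrtho_iff_inner_eq.2 ?_
  rintro _ ⟨x, rfl⟩ _ ⟨y, rfl⟩
  show ⟪c x, c' y⟫_ℂ = 0
  rw [inner_sa hc.isSelfAdjoint.star_eq, ← mul_apply_eq_comp, h, zero_apply, inner_zero_right]

theorem pr_mem_vn (A : VonNeumannAlgebra H) {W : Submodule ℂ H}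
    (h : ∀ y ∈ A.commutant, ∀ w ∈ W, y w ∈ W) : pr W ∈ A := by
  refine (VonNeumannAlgebra.IsStarProjection.mem_iff (pr_proj W) A).2 fun y hy => ?_
  have : (pr W).range = W.topologicalClosure := Submodule.range_starProjection _
  rw [this]
  exact fun v hv => map_mem_closure y.continuous hv (h y hy)

/-- The norm of an operator on the sum of orthogonal projections that commute with it. -/
theorem norm_sup_le {κ : Type*} {c : κ → H →L[ℂ] H} (hc : ∀ k, IsStarProjection (c k))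
    (ho : Pairwise fun k l => c k * c l = 0) {B : H →L[ℂ] H} (hB : ∀ k, c k * B = B * c k) {β : ℝ}
    (h0 : 0 ≤ β) (h : ∀ k, ‖B * c k‖ ≤ β) : ‖pr (⨆ k, (c k).range) * B‖ ≤ β := by
  have hW : Pairwise fun k l => (c k).range ⟂ (c l).range := fun k l hkl =>
    range_ortho (hc k) (ho hkl)
  refine ContinuousLinearMap.opNorm_le_bound _ h0 fun x => ?_
  refine (pow_le_pow_iff_left₀ (norm_nonneg _) (by positivity) two_ne_zero).1
    (pr_iSup_le hW fun t => ?_)
  rw [mul_pow]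
  refine le_trans ?_ (mul_le_mul_of_nonneg_left (sum_pr_le hW t x) (sq_nonneg β))
  rw [Finset.mul_sum]
  refine Finset.sum_le_sum fun k _ => ?_
  have e : c k (B x) = (B * c k) (c k x) := by
    rw [← mul_apply_eq_comp, ← mul_apply_eq_comp, mul_assoc, (hc k).isIdempotentElem.eq, hB]
  rw [pr_range (hc k), ← mul_pow]
  exact pow_le_pow_left₀ (norm_nonneg _) (e ▸ (B * c k).le_of_opNorm_le (h k) _) 2

variable {A : VonNeumannAlgebra H} (hA : ∀ a ∈ A, ∀ b ∈ A, a * b = b * a) {c : H →L[ℂ] H}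
  (hcA : c ∈ A) (hc : IsStarProjection c)
  (hm : ∀ q ∈ A, IsStarProjection q → q * c = q → q = 0 ∨ q = c)
include hA hcA hc hm

theorem dichotomy {h : H →L[ℂ] H} (hh : h ∈ A) (hs : IsSelfAdjoint h) :
    (∀ v, c v = v → ⟪h v, v⟫_ℂ ≤ 0) ∨ ∀ v, c v = v → 0 ≤ ⟪h v, v⟫_ℂ := by
  have hN : pr (h⁺).ker ∈ A := pr_mem_vn A fun y hy w hw => by
    have h1 : h⁺ * y = y * h⁺ :=
      Commute.cfcₙ_real (VonNeumannAlgebra.mem_commutant_iff.1 hy h hh) _
    show h⁺ (y w) = 0
    rw [← mul_apply_eq_comp, h1, mul_apply_eq_comp, show h⁺ w = 0 from hw, map_zero]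
  have e : ∀ v, ⟪h v, v⟫_ℂ = ⟪h⁺ v, v⟫_ℂ - ⟪h⁻ v, v⟫_ℂ := fun v => by
    rw [← inner_sub_left, ← sub_apply, CFC.posPart_sub_negPart h hs]
  rcases hm _ (mul_mem hN hcA) ((pr_proj _).mul hc (hA _ hN _ hcA))
    (by rw [mul_assoc, hc.isIdempotentElem.eq]) with h0 | h0
  · refine .inr fun v hv => ?_
    have h1 : pr (h⁺).ker (h⁻ v) = h⁻ v := pr_self (subset_closure (by
      show h⁺ (h⁻ v) = 0
      rw [← mul_apply_eq_comp, CFC.posPart_mul_negPart, zero_apply]))
    have h2 : pr (h⁺).ker v = 0 := by rw [← hv, ← mul_apply_eq_comp, h0, zero_apply]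
    rw [e, ← h1, inner_sa (pr_proj _).isSelfAdjoint.star_eq, h2, inner_zero_right, sub_zero]
    exact nonneg_iff.1 (CFC.posPart_nonneg h) v
  · refine .inl fun v hv => ?_
    have h1 := pr_mem (h⁺).ker (c v)
    rw [← mul_apply_eq_comp, h0, hv, (h⁺).isClosed_ker.closure_eq] at h1
    rw [e, show h⁺ v = 0 from h1, inner_zero_left, zero_sub, neg_nonpos]
    exact nonneg_iff.1 (CFC.negPart_nonneg h) v

/-- On a minimal projection the norm is seen on any nonzero vector. -/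
theorem norm_min_le {b : H →L[ℂ] H} (hb : b ∈ A) {u : H} (hu : c u = u) (hu0 : u ≠ 0) {β : ℝ}
    (h0 : 0 ≤ β) (h : ‖b u‖ ≤ β * ‖u‖) : ‖b * c‖ ≤ β := by
  refine le_of_forall_gt_imp_ge_of_dense fun t ht => ?_
  have e : ∀ v, ⟪(star b * b - ((t ^ 2 : ℝ) : ℂ) • 1) v, v⟫_ℂ =
      ((‖b v‖ ^ 2 - (t * ‖v‖) ^ 2 : ℝ) : ℂ) := fun v => by
    rw [sub_apply, inner_sub_left, mul_apply_eq_comp, inner_star, smul_apply, inner_smul_left,
      Complex.conj_ofReal, ContinuousLinearMap.one_def, ContinuousLinearMap.id_apply,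
      inner_self_eq_norm_sq_to_K, inner_self_eq_norm_sq_to_K]
    simp [mul_pow]
  rcases dichotomy hA hcA hc hm (h := star b * b - ((t ^ 2 : ℝ) : ℂ) • 1)
    (sub_mem (mul_mem (star_mem hb) hb) (smul_mem' _ _ (one_mem _))) (by
      simp [IsSelfAdjoint]) with h1 | h1
  · refine ContinuousLinearMap.opNorm_le_bound _ (h0.trans ht.le) fun x => ?_
    have h2 := h1 (c x) (by rw [← mul_apply_eq_comp, hc.isIdempotentElem.eq])
    rw [e, ← Complex.ofReal_zero, Complex.real_le_real, sub_nonpos] at h2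
    refine ((pow_le_pow_iff_left₀ (norm_nonneg _) (mul_nonneg (h0.trans ht.le) (norm_nonneg _))
      two_ne_zero).1 h2).trans (mul_le_mul_of_nonneg_left ?_ (h0.trans ht.le))
    exact (c.le_opNorm x).trans (mul_le_of_le_one_left (norm_nonneg _) hc.norm_le)
  · have h2 := h1 u hu
    rw [e, Complex.zero_le_real, sub_nonneg] at h2
    exact absurd h2 (not_le.2 (pow_lt_pow_left₀ (h.trans_lt (mul_lt_mul_of_pos_right ht
      (norm_pos_iff.2 hu0))) (norm_nonneg _) two_ne_zero))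

end Pool.Agent.Lib.MP_b8e63c_lc
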