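import Mathlib

/-! Rounding a fractional choice (the Beck-Fiala argument), and a compactness step. -/

open Set

namespace Pool.Agent.Lib.MP_b8e63c_lc

/-- Rounding: a fractional choice can be made integral, raising each row by at most twice the
largest column sum. -/
theorem beck_fiala {E J N : Type*} [DecidableEq J] (π : E → J) (ℓ : E → N → ℝ)
    (h0 : ∀ e n, 0 ≤ ℓ e n) {Δ : ℝ} (hΔ : 0 < Δ) (t : Finset J) (P : Finset E) :
    ∀ x : E → ℝ, (∀ e ∈ P, 0 < x e ∧ π e ∈ t ∧ ∀ R : Finset N, ∑ n ∈ R, ℓ e n ≤ Δ) →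
      (∀ j ∈ t, ∑ e ∈ P with π e = j, x e = 1) →
      ∃ Q ⊆ P, (∀ j ∈ t, ∃ e ∈ Q, π e = j) ∧ ∀ n, ∑ e ∈ Q, ℓ e n ≤ ∑ e ∈ P, x e * ℓ e n + 2 * Δ := by
  classical
  induction P using Finset.strongInduction with
  | H P ih =>
  intro x hP hx
  obtain ⟨Q, hQ⟩ : ∃ Q, Q = P.filter fun e => x e < 1 := ⟨_, rfl⟩
  have mQ : ∀ e, e ∈ Q ↔ e ∈ P ∧ x e < 1 := fun e => by rw [hQ, Finset.mem_filter]
  have easy : ∀ n, ∑ e ∈ Q, ℓ e n ≤ 2 * Δ → ∑ e ∈ P, ℓ e n ≤ ∑ e ∈ P, x e * ℓ e n + 2 * Δ := by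
    intro n hn
    refine le_trans ?_ (add_le_add le_rfl hn)
    rw [hQ, Finset.sum_filter, ← Finset.sum_add_distrib]
    refine Finset.sum_le_sum fun e he => ?_
    split_ifs with h <;> nlinarith [h0 e n, (hP e he).1]
  rcases Q.eq_empty_or_nonempty with hQ0 | hQ0
  · refine ⟨P, subset_rfl, fun j hj => ?_, fun n => easy n (by rw [hQ0]; simpa using hΔ.le)⟩
    obtain ⟨e, he, -⟩ := Finset.exists_ne_zero_of_sum_ne_zero ((hx j hj).trans_ne one_ne_zero)
    exact ⟨e, (Finset.mem_filter.1 he).1, (Finset.mem_filter.1 he).2⟩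
  have cR : ∀ R : Finset N, (∀ n ∈ R, 2 * Δ < ∑ e ∈ Q, ℓ e n) → 2 * R.card < Q.card := by
    intro R hR
    rcases R.eq_empty_or_nonempty with rfl | hR0
    · simpa using hQ0
    have h1 := Finset.sum_lt_sum_of_nonempty hR0 hR
    rw [Finset.sum_comm] at h1
    have h2 := h1.trans_le (Finset.sum_le_sum fun e he => (hP e ((mQ e).1 he).1).2.2 R)
    simp only [Finset.sum_const, nsmul_eq_mul] at h2
    have : (2 * R.card : ℝ) < Q.card := by nlinarith
    exact_mod_cast this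
  have fin : {n | 2 * Δ < ∑ e ∈ Q, ℓ e n}.Finite := by
    by_contra h
    obtain ⟨R, h1, h2⟩ := Set.Infinite.exists_subset_card_eq h Q.card
    have := cR R h1
    omega
  have c1 := cR fin.toFinset fun n hn => fin.mem_toFinset.1 hn
  have c2 : 2 * (Q.image π).card ≤ Q.card := by
    refine Finset.mul_card_image_le_card _ _ fun j hj => ?_
    obtain ⟨e, he, rfl⟩ := Finset.mem_image.1 hj
    have he' := (mQ e).1 he
    have h1 := hx _ (hP e he'.1).2.1
    rw [← Finset.add_sum_erase (P.filter fun a => π a = π e) x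
      (Finset.mem_filter.2 ⟨he'.1, rfl⟩)] at h1
    obtain ⟨e', h2, -⟩ := Finset.exists_ne_zero_of_sum_ne_zero
      (s := (P.filter fun a => π a = π e).erase e) (f := x) (by linarith [he'.2])
    have h3 := Finset.single_le_sum (f := x) (fun a ha =>
      (hP a (Finset.mem_filter.1 (Finset.mem_of_mem_erase ha)).1).1.le) h2
    obtain ⟨h4, h5⟩ := Finset.mem_erase.1 h2
    rw [Finset.mem_filter] at h5
    exact Finset.one_lt_card.2 ⟨e', Finset.mem_filter.2 ⟨(mQ _).2 ⟨h5.1,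
      by linarith [(hP e he'.1).1]⟩, h5.2⟩, e, Finset.mem_filter.2 ⟨he, rfl⟩, h4⟩
  have dep : ¬ LinearIndependent ℝ fun (e : Q) (r : Q.image π ⊕ fin.toFinset) =>
      r.elim (fun j => if π e = j.1 then (1 : ℝ) else 0) fun n => ℓ e n.1 := fun h => by
    have := h.fintype_card_le_finrank
    simp only [Module.finrank_fintype_fun_eq_card, Fintype.card_sum, Fintype.card_coe] at this
    omega
  obtain ⟨g, g1, i, hi⟩ := Fintype.not_linearIndependent_iff.1 dep
  obtain ⟨y, hy⟩ : ∃ y : E → ℝ, y = fun e => if h : e ∈ Q then g ⟨e, h⟩ else 0 := ⟨_, rfl⟩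
  have sy : ∀ w : E → ℝ, ∑ e ∈ P, y e * w e = ∑ e : Q, g e * w e := fun w => by
    rw [← Finset.sum_subset (s₁ := Q) (fun e he => ((mQ e).1 he).1) fun e _ he => by simp [hy, he],
      ← Finset.sum_coe_sort]
    exact Finset.sum_congr rfl fun e _ => by simp [hy]
  have y1 : ∀ j, ∑ e ∈ P with π e = j, y e = 0 := fun j => by
    rw [Finset.sum_filter]
    refine Eq.trans (Finset.sum_congr rfl fun e _ => by simp) ((sy fun e =>
      if π e = j then 1 else 0).trans ?_)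
    by_cases hj : j ∈ Q.image π
    · simpa using congrFun g1 (.inl ⟨j, hj⟩)
    · exact Finset.sum_eq_zero fun e _ => by
        rw [if_neg fun h => hj (Finset.mem_image.2 ⟨e, e.2, h⟩), mul_zero]
  have y2 : ∀ n, 2 * Δ < ∑ e ∈ Q, ℓ e n → ∑ e ∈ P, y e * ℓ e n = 0 := fun n hn => by
    rw [sy fun e => ℓ e n]
    simpa using congrFun g1 (.inr ⟨n, fin.mem_toFinset.2 hn⟩)
  have neg : (P.filter fun e => y e < 0).Nonempty := by
    by_contra h
    have h1 : ∀ e ∈ P, 0 ≤ y e := fun e he => not_lt.1 fun h' => h ⟨e, Finset.mem_filter.2 ⟨he, h'⟩⟩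
    have := (Finset.sum_eq_zero_iff_of_nonneg fun e he => h1 e (Finset.mem_filter.1 he).1).1
      (y1 (π i)) i (Finset.mem_filter.2 ⟨((mQ _).1 i.2).1, rfl⟩)
    exact hi (by simpa [hy] using this)
  obtain ⟨e₀, h1, h2⟩ := Finset.exists_min_image _ (fun e => x e / -y e) neg
  rw [Finset.mem_filter] at h1
  obtain ⟨τ, hτ⟩ : ∃ τ, τ = x e₀ / -y e₀ := ⟨_, rfl⟩
  have τ0 : 0 < τ := hτ ▸ div_pos (hP _ h1.1).1 (neg_pos.2 h1.2)
  have nn : ∀ e ∈ P, 0 ≤ x e + τ * y e := fun e he => by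
    rcases lt_or_ge (y e) 0 with h | h
    · have := h2 e (Finset.mem_filter.2 ⟨he, h⟩)
      rw [← hτ, le_div_iff₀ (neg_pos.2 h)] at this
      linarith
    · exact add_nonneg (hP e he).1.le (mul_nonneg τ0.le h)
  have sub : ∀ (s : Finset E) (w : E → ℝ), s ⊆ P → ∑ e ∈ s with 0 < x e + τ * y e,
      (x e + τ * y e) * w e = ∑ e ∈ s, x e * w e + τ * ∑ e ∈ s, y e * w e := fun s w hs => by
    rw [Finset.sum_filter_of_ne fun e he h => (nn e (hs he)).lt_of_ne' (left_ne_zero_of_mul h),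
      Finset.mul_sum, ← Finset.sum_add_distrib]
    exact Finset.sum_congr rfl fun e _ => by ring
  obtain ⟨Q', q1, q2, q3⟩ := ih (P.filter fun e => 0 < x e + τ * y e)
    (Finset.filter_ssubset.2 ⟨e₀, h1.1, by
      rw [hτ, div_neg, neg_mul, div_mul_cancel₀ _ h1.2.ne]
      simp⟩) (fun e => x e + τ * y e)
    (fun e he => ⟨(Finset.mem_filter.1 he).2, (hP e (Finset.mem_filter.1 he).1).2⟩) fun j hj => by
      have := sub (P.filter fun e => π e = j) 1 (Finset.filter_subset _ _)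
      simp only [Pi.one_apply, mul_one, hx j hj, y1, mul_zero, add_zero] at this
      rw [Finset.filter_comm, this]
  have q4 := q1.trans (Finset.filter_subset _ _)
  refine ⟨Q', q4, q2, fun n => ?_⟩
  rcases le_or_gt (∑ e ∈ Q, ℓ e n) (2 * Δ) with h | h
  · exact (Finset.sum_le_sum_of_subset_of_nonneg q4 fun _ _ _ => h0 _ _).trans (easy n h)
  · have := q3 n
    rwa [sub P (fun e => ℓ e n) subset_rfl, y2 n h, mul_zero, add_zero] at this

/-- One option for each cell, so that the total load on each row is small. -/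
theorem select {J N : Type*} {β : J → Type*} [∀ j, Fintype (β j)] (ℓ : ∀ j, β j → N → ℝ)
    (a : J → N → ℝ) (d : J → ℕ) (h0 : ∀ j f n, 0 ≤ ℓ j f n) (h1 : ∀ j n, ∑ f, ℓ j f n ≤ a j n)
    (h2 : ∀ (n) (t : Finset J), ∑ j ∈ t, a j n ≤ 1) (h3 : ∀ (j) (R : Finset N), ∑ n ∈ R, a j n ≤ d j)
    (h4 : ∀ j, 0 < d j ∧ 64 * d j < Fintype.card (β j)) :
    ∃ f : ∀ j, β j, ∀ (n) (t : Finset J), ∑ j ∈ t, ℓ j (f j) n ≤ 1 / 8 := by
  classical
  let G : ∀ j, Finset (β j) := fun j =>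
    Finset.univ.filter fun f => ∀ R : Finset N, ∑ n ∈ R, ℓ j f n ≤ 1 / 32
  have cG : ∀ j, (32 : ℝ) ≤ (G j).card := fun j => by
    have : ∀ f : β j, ∃ R : Finset N, f ∉ G j → 1 / 32 ≤ ∑ n ∈ R, ℓ j f n := fun f => by
      by_cases h : f ∈ G j
      · exact ⟨∅, fun h' => absurd h h'⟩
      · simp only [G, Finset.mem_filter, Finset.mem_univ, true_and, not_forall, not_le] at h
        exact h.imp fun R hR _ => hR.le
    choose R hR using this
    have h5 : ∑ f ∈ (G j)ᶜ, (1 / 32 : ℝ) ≤ ∑ f, ∑ n ∈ Finset.univ.biUnion R, ℓ j f n :=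
      (Finset.sum_le_sum fun f hf => (hR f (Finset.mem_compl.1 hf)).trans
        (Finset.sum_le_sum_of_subset_of_nonneg (Finset.subset_biUnion_of_mem R (Finset.mem_univ f))
          fun _ _ _ => h0 _ _ _)).trans (Finset.sum_le_sum_of_subset_of_nonneg
        (Finset.subset_univ _) fun _ _ _ => Finset.sum_nonneg fun _ _ => h0 _ _ _)
    rw [Finset.sum_comm, Finset.sum_const, nsmul_eq_mul] at h5
    have h6 := h5.trans ((Finset.sum_le_sum fun n _ => h1 j n).trans (h3 j _))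
    have h7 : ((G j).card + (G j)ᶜ.card : ℝ) = Fintype.card (β j) := by
      exact_mod_cast Finset.card_add_card_compl (G j)
    have h8 : (64 * d j : ℝ) < Fintype.card (β j) := by exact_mod_cast (h4 j).2
    have h9 : (1 : ℝ) ≤ d j := by exact_mod_cast (h4 j).1
    linarith
  have key : ∀ t : Finset J, ∃ f : ∀ j, β j, ∀ n, ∑ j ∈ t, ℓ j (f j) n ≤ 1 / 8 := fun t => by
    obtain ⟨Q, q1, q2, q3⟩ := beck_fiala (E := Σ j, β j) Sigma.fst (fun e => ℓ e.1 e.2)
      (fun e => h0 e.1 e.2) (Δ := 1 / 32) (by norm_num) t (t.sigma G)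
      (fun e => ((G e.1).card : ℝ)⁻¹) (fun e he => ⟨inv_pos.2 (by linarith [cG e.1]),
        (Finset.mem_sigma.1 he).1, (Finset.mem_filter.1 (Finset.mem_sigma.1 he).2).2⟩)
      fun j hj => by
        rw [Finset.sum_filter, Finset.sum_sigma, Finset.sum_eq_single j (fun k _ hk => by simp [hk])
          fun h => absurd hj h]
        simp only [if_true, Finset.sum_const, nsmul_eq_mul]
        exact mul_inv_cancel₀ (by linarith [cG j])
    have : ∀ j, ∃ f : β j, j ∈ t → (⟨j, f⟩ : Σ j, β j) ∈ Q := fun j => by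
      by_cases hj : j ∈ t
      · obtain ⟨e, he, rfl⟩ := q2 j hj
        exact ⟨e.2, fun _ => he⟩
      · obtain ⟨f⟩ : Nonempty (β j) := Fintype.card_pos_iff.1 (Nat.zero_lt_of_lt (h4 j).2)
        exact ⟨f, fun h => absurd h hj⟩
    choose f hf using this
    refine ⟨f, fun n => ?_⟩
    have h5 : ∑ j ∈ t, ℓ j (f j) n ≤ ∑ e ∈ Q, ℓ e.1 e.2 n := by
      rw [← Finset.sum_image (g := fun j => (⟨j, f j⟩ : Σ j, β j)) (f := fun e => ℓ e.1 e.2 n)
        fun j _ k _ h => congrArg Sigma.fst h]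
      exact Finset.sum_le_sum_of_subset_of_nonneg (Finset.image_subset_iff.2 hf)
        fun _ _ _ => h0 _ _ _
    have h6 : ∑ e ∈ t.sigma G, ((G e.1).card : ℝ)⁻¹ * ℓ e.1 e.2 n ≤ ∑ j ∈ t, 32⁻¹ * a j n := by
      rw [Finset.sum_sigma]
      refine Finset.sum_le_sum fun j _ => ?_
      simp only [← Finset.mul_sum]
      exact mul_le_mul (inv_anti₀ (by norm_num) (cG j)) ((Finset.sum_le_sum_of_subset_of_nonneg
        (Finset.subset_univ _) fun _ _ _ => h0 _ _ _).trans (h1 j n))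
        (Finset.sum_nonneg fun _ _ => h0 _ _ _) (by norm_num)
    rw [← Finset.mul_sum] at h6
    linarith [q3 n, h2 n t]
  choose g hg using key
  obtain ⟨f, hf⟩ := Finset.rado_selection g
  refine ⟨f, fun n s => ?_⟩
  obtain ⟨t, h5, h6⟩ := hf s
  rw [Finset.sum_congr rfl fun j hj => by rw [h6 j hj]]
  exact (Finset.sum_le_sum_of_subset_of_nonneg h5 fun _ _ _ => h0 _ _ _).trans (hg t n)

end Pool.Agent.Lib.MP_b8e63c_lc
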