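import Pool.Agent.Lib.MP_b8e63c_lc.Pave
import Pool.Agent.Lib.MP_b8e63c_lc.Round

/-! Inclined subspaces in finite-dimensional cells, glued over an orthogonal family of cells. -/

open scoped InnerProductSpace ComplexOrder ComplexConjugate
open Set Filter

noncomputable section

namespace Pool.Agent.Lib.MP_b8e63c_lc

variable {H : Type*} [NormedAddCommGroup H] [InnerProductSpace ℂ H] [CompleteSpace H]

theorem pr_biSup {J : Type*} {W : J → Submodule ℂ H} (hW : Pairwise fun j k => W j ⟂ W k)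
    (t : Finset J) (x : H) : ‖pr (⨆ j ∈ t, W j) x‖ ^ 2 = ∑ j ∈ t, ‖pr (W j) x‖ ^ 2 := by
  classical
  induction t using Finset.induction_on with
  | empty =>
    have : pr (⊥ : Submodule ℂ H) x = 0 := pr_eq (subset_closure (Submodule.zero_mem _))
      fun w hw => by rw [(Submodule.mem_bot ℂ).1 hw, inner_zero_right]
    simp [this]
  | insert j t hj ih =>
    rw [Finset.iSup_insert, Finset.sum_insert hj, pr_sup (Submodule.isOrtho_iff_inner_eq.1
      (Submodule.isOrtho_iSup_right.2 fun k => Submodule.isOrtho_iSup_right.2 fun hk =>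
        hW (ne_of_mem_of_not_mem hk hj).symm)), ih]

theorem sum_pr_le {J : Type*} {W : J → Submodule ℂ H} (hW : Pairwise fun j k => W j ⟂ W k)
    (t : Finset J) (x : H) : ∑ j ∈ t, ‖pr (W j) x‖ ^ 2 ≤ ‖x‖ ^ 2 := by
  rw [← pr_biSup hW]
  exact pow_le_pow_left₀ (norm_nonneg _) (norm_pr_le _ _) 2

theorem pr_iSup_le {J : Type*} {W : J → Submodule ℂ H} (hW : Pairwise fun j k => W j ⟂ W k)
    {x : H} {γ : ℝ} (h : ∀ t : Finset J, ∑ j ∈ t, ‖pr (W j) x‖ ^ 2 ≤ γ) :
    ‖pr (⨆ j, W j) x‖ ^ 2 ≤ γ := by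
  refine pr_le_of_inner (by simpa using h ∅) fun w hw => ?_
  obtain ⟨s, hs⟩ := Submodule.mem_iSup_iff_exists_finset.1 hw
  have h3 := pow_le_pow_left₀ (norm_nonneg _)
    (norm_inner_le_norm (𝕜 := ℂ) w (pr (⨆ j ∈ s, W j) x)) 2
  rw [inner_pr_of_mem _ (subset_closure hs), mul_pow, pr_biSup hW, mul_comm] at h3
  exact h3.trans (mul_le_mul_of_nonneg_right (h s) (sq_nonneg _))

/-- One cell. -/
theorem cell (S : Type) [Fintype S] : ∃ (d : ℕ) (Fam : Type) (_ : Fintype Fam), 0 < d ∧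
    64 * d < Fintype.card Fam ∧ ∀ g : Fin d → H, Orthonormal ℂ g →
      ∃ W : S → Fam → Submodule ℂ H, (∀ σ f, W σ f ≤ Submodule.span ℂ (range g)) ∧
        (∀ σ f f', f ≠ f' → ∀ y, ‖pr (W σ f) y‖ ^ 2 + ‖pr (W σ f') y‖ ^ 2 ≤ 5 / 4 * ‖y‖ ^ 2) ∧
        ∀ f : S → Fam, ∃ u, u ≠ 0 ∧ ∀ σ, u ∈ W σ (f σ) := by
  classical
  obtain ⟨D, Fam, _, _, _, v, v1, v2, v3⟩ := exists_inclined (Fintype.card S) 64
  refine ⟨Fintype.card (S → D), Fam, inferInstance, Fintype.card_pos, by rwa [Fintype.card_fun],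
    fun g₀ hg₀ => ?_⟩
  obtain ⟨g, hg, hgg⟩ : ∃ g : (S → D) → H, Orthonormal ℂ g ∧ range g ⊆ range g₀ :=
    ⟨_, hg₀.comp _ (Fintype.equivFin _).injective, range_comp_subset_range _ _⟩
  let T : ((S → D) → ℂ) →ₗ[ℂ] H := Fintype.linearCombination ℂ g
  have inT : ∀ θ θ', ⟪T θ, T θ'⟫_ℂ = ∑ i, conj (θ i) * θ' i := fun θ θ' => hg.inner_sum θ θ' _
  have vv : ∀ f d, conj (v f d) * v f d = 1 := fun f d => by rw [Complex.conj_mul', v1]; simp
  let L : S → Fam → ((S → D) → ℂ) → H := fun σ f θ => T fun i => v f (i σ) * θ i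
  have inL : ∀ σ f g θ θ', ⟪L σ f θ, L σ g θ'⟫_ℂ =
      ∑ i, conj (v f (i σ)) * v g (i σ) * (conj (θ i) * θ' i) := fun σ f g θ θ' => by
    simp only [L, inT, map_mul]
    exact Finset.sum_congr rfl fun i _ => by ring
  have nL : ∀ σ f θ, ‖L σ f θ‖ = ‖T θ‖ := fun σ f θ => by
    rw [norm_eq_sqrt_re_inner (𝕜 := ℂ), norm_eq_sqrt_re_inner (𝕜 := ℂ) (T θ), inL, inT]
    simp only [vv, one_mul]
  let W : S → Fam → Submodule ℂ H := fun σ f =>
    { carrier := {w | ∃ θ : (S → D) → ℂ, (∀ i d, θ (Function.update i σ d) = θ i) ∧ L σ f θ = w}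
      add_mem' := by
        rintro _ _ ⟨θ, h, rfl⟩ ⟨θ', h', rfl⟩
        refine ⟨θ + θ', fun i d => by simp [h, h'], ?_⟩
        simp only [L, ← map_add]
        congr 1
        funext i
        simp [mul_add]
      zero_mem' := ⟨0, fun _ _ => rfl, by simp [L, ← Pi.zero_def]⟩
      smul_mem' := by
        rintro c _ ⟨θ, h, rfl⟩
        refine ⟨c • θ, fun i d => by simp [h], ?_⟩
        simp only [L, ← map_smul]
        congr 1
        funext i
        simp [mul_left_comm] }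
  have WG : ∀ σ f, W σ f ≤ Submodule.span ℂ (range g₀) := by
    rintro σ f _ ⟨θ, -, rfl⟩
    exact sum_mem fun i _ => Submodule.smul_mem _ _ (Submodule.subset_span (hgg ⟨i, rfl⟩))
  have : FiniteDimensional ℂ (Submodule.span ℂ (range g₀)) :=
    FiniteDimensional.span_of_finite ℂ (finite_range g₀)
  have fin : ∀ σ f, FiniteDimensional ℂ (W σ f) := fun σ f =>
    Submodule.finiteDimensional_of_le (WG σ f)
  refine ⟨W, WG, fun σ f f' hf => two_bad ?_, fun f => ⟨T fun i => ∏ τ, v (f τ) (i τ), fun h => ?_,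
    fun σ => ⟨fun i => ∏ τ ∈ Finset.univ.erase σ, v (f τ) (i τ), fun i d => ?_, ?_⟩⟩⟩
  · rintro _ ⟨θ, h, rfl⟩ _ ⟨θ', h', rfl⟩
    have hD : (0 : ℝ) < Fintype.card D := by exact_mod_cast Fintype.card_pos
    have h1 := sum_indep σ (fun d => conj (v f d) * v f' d) (fun i => conj (θ i) * θ' i)
      fun i d => by rw [h, h']
    rw [← inL, ← inT] at h1
    have h3 := congrArg norm h1
    rw [norm_mul, norm_mul, Complex.norm_natCast] at h3
    have h4 := mul_le_mul (v2 f f' hf) (norm_inner_le_norm (𝕜 := ℂ) (T θ) (T θ')) (norm_nonneg _)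
      (by positivity)
    rw [nL, nL]
    refine le_of_mul_le_mul_left ?_ hD
    rw [h3]
    linarith
  · have := inT (fun i => ∏ τ, v (f τ) (i τ)) fun i => ∏ τ, v (f τ) (i τ)
    simp only [h, inner_zero_left, map_prod, ← Finset.prod_mul_distrib, vv, Finset.prod_const_one,
      Finset.sum_const, nsmul_eq_mul, mul_one, Finset.card_univ] at this
    exact Fintype.card_pos.ne (by exact_mod_cast this)
  · exact Finset.prod_congr rfl fun τ hτ => by
      rw [Function.update_of_ne (Finset.ne_of_mem_erase hτ)]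
  · simp only [L]
    congr 1
    funext i
    exact Finset.mul_prod_erase Finset.univ (fun τ => v (f τ) (i τ)) (Finset.mem_univ σ)

/-- One subspace for each orthonormal sequence; finitely many of them meet in every large cell. -/
theorem atomic_family [TopologicalSpace.SeparableSpace H] : ∃ d : ℕ → ℕ, ∀ (J : Type*) (s : J → ℕ)
    (g : ∀ j, Fin (d (s j)) → H), (∀ j, Orthonormal ℂ (g j)) →
    (Pairwise fun j k => Submodule.span ℂ (range (g j)) ⟂ Submodule.span ℂ (range (g k))) →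
    ∃ T : (ℕ → H) → Submodule ℂ H, (∀ e, Orthonormal ℂ e → ∀ n, ‖pr (T e) (e n)‖ ^ 2 ≤ 3 / 4) ∧
      ∀ F : Finset (ℕ → H), ∃ s₀, ∀ j, s₀ ≤ s j →
        ∃ u ∈ Submodule.span ℂ (range (g j)), u ≠ 0 ∧ ∀ e ∈ F, u ∈ T e := by
  classical
  obtain ⟨code, hcode⟩ : ∃ code : (ℕ → H) → ℕ → Bool, Function.Injective code := by
    borelize (ℕ → H)
    obtain ⟨f, -, hf⟩ := MeasurableSpace.measurable_injection_nat_bool_of_countablySeparated (ℕ → H)
    exact ⟨f, hf⟩
  let σ : ∀ m : ℕ, (ℕ → H) → Fin m → Bool := fun m e k => code e k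
  choose d Fam _ d1 d2 hW using fun m : ℕ => cell (H := H) (Fin m → Bool)
  refine ⟨d, fun J s g hg hG => ?_⟩
  choose W w1 w2 w3 using fun j => hW (s j) (g j) (hg j)
  have ex : ∀ e : ℕ → H, ∃ f : ∀ j, Fam (s j), Orthonormal ℂ e → ∀ n,
      ‖pr (⨆ j, W j (σ _ e) (f j)) (e n)‖ ^ 2 ≤ 3 / 4 := fun e => by
    by_cases he : Orthonormal ℂ e
    swap
    · exact ⟨fun j => (Fintype.card_pos_iff.1 (Nat.zero_lt_of_lt (d2 (s j)))).some,
        fun h => absurd h he⟩
    obtain ⟨a, ha⟩ : ∃ a : J → ℕ → ℝ,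
      ∀ j n, a j n = ‖pr (Submodule.span ℂ (range (g j))) (e n)‖ ^ 2 := ⟨_, fun _ _ => rfl⟩
    have a0 : ∀ j n, 0 ≤ a j n := fun j n => ha j n ▸ sq_nonneg _
    have a1 : ∀ (n) (t : Finset J), ∑ j ∈ t, a j n ≤ 1 := fun n t => by
      simpa [ha, he.1 n] using sum_pr_le hG t (e n)
    obtain ⟨f, hf⟩ := select (fun j (f : Fam (s j)) n =>
      if 5 / 8 * a j n < ‖pr (W j (σ _ e) f) (e n)‖ ^ 2 then a j n else 0) a (fun j => d (s j))
      (fun j f n => by split_ifs <;> simp [a0]) (fun j n => by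
        rw [← Finset.sum_filter, Finset.sum_const, nsmul_eq_mul]
        refine mul_le_of_le_one_left (a0 j n) (Nat.cast_le_one.2 (Finset.card_le_one.2
          fun f hf f' hf' => by_contra fun hne => ?_))
        have := w2 j (σ _ e) f f' hne (pr (Submodule.span ℂ (range (g j))) (e n))
        rw [pr_pr (w1 _ _ _), pr_pr (w1 _ _ _), ← ha] at this
        linarith [(Finset.mem_filter.1 hf).2, (Finset.mem_filter.1 hf').2]) a1 (fun j R => by
        have : FiniteDimensional ℂ (Submodule.span ℂ (range (g j))) :=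
          FiniteDimensional.span_of_finite ℂ (finite_range _)
        have h1 := bessel (Submodule.span ℂ (range (g j))) (he.comp (Subtype.val : R → ℕ)
          Subtype.val_injective)
        rw [finrank_span_eq_card (hg j).linearIndependent, Fintype.card_fin] at h1
        rw [← Finset.sum_coe_sort]
        simpa only [ha, Function.comp_apply] using h1) fun j => ⟨d1 _, d2 _⟩
    refine ⟨f, fun _ n => pr_iSup_le (fun j k hjk => (hG hjk).mono (w1 _ _ _) (w1 _ _ _))
      fun t => ?_⟩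
    have h1 : ∑ j ∈ t, ‖pr (W j (σ _ e) (f j)) (e n)‖ ^ 2 ≤ ∑ j ∈ t, (5 / 8 * a j n +
        if 5 / 8 * a j n < ‖pr (W j (σ _ e) (f j)) (e n)‖ ^ 2 then a j n else 0) :=
      Finset.sum_le_sum fun j _ => by
        have := pr_mono (w1 j (σ _ e) (f j)) (e n)
        rw [← ha] at this
        split_ifs <;> linarith [a0 j n]
    rw [Finset.sum_add_distrib, ← Finset.mul_sum] at h1
    linarith [hf n t, a1 n t]
  choose f hf using ex
  refine ⟨_, hf, fun F => ?_⟩
  have ev : ∀ᶠ m in atTop, ∀ e ∈ F, ∀ e' ∈ F, σ m e = σ m e' → e = e' := by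
    refine (eventually_all_finset F).2 fun e _ => (eventually_all_finset F).2 fun e' _ => ?_
    by_cases hee : e = e'
    · exact .of_forall fun _ _ => hee
    · obtain ⟨j, hj⟩ := Function.ne_iff.1 (hcode.ne hee)
      filter_upwards [eventually_gt_atTop j] with m hm hσ
      exact absurd (congrFun hσ ⟨j, hm⟩) hj
  obtain ⟨s₀, hs⟩ := eventually_atTop.1 ev
  refine ⟨s₀, fun j hj => ?_⟩
  have inj : InjOn (σ (s j)) F := fun e he e' he' => hs _ hj e he e' he'
  obtain ⟨u, u1, u2⟩ := w3 j fun τ => f (Function.invFunOn (σ (s j)) F τ) j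
  refine ⟨u, w1 _ _ _ (u2 fun _ => true), u1, fun e he => Submodule.mem_iSup_of_mem j ?_⟩
  have := u2 (σ _ e)
  rwa [inj.leftInvOn_invFunOn he] at this

end Pool.Agent.Lib.MP_b8e63c_lc
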