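import Pool.Agent.Lib.MP_b8e63c_lc.Ext

/-! The extension step for an abstract family of inclined subspaces. -/

open scoped InnerProductSpace ComplexOrder ComplexConjugate
open Set Filter

noncomputable section

namespace Pool.Agent.Lib.MP_b8e63c_lc

variable {H : Type*} [NormedAddCommGroup H] [InnerProductSpace ℂ H] [CompleteSpace H]

/-- A pure state that is dominated on a directed family of inclined subspaces has a pure extension
that is not diagonalizable. -/
theorem ext_of_family (A : StarSubalgebra ℂ (H →L[ℂ] H)) (ψ : A →L[ℂ] ℂ) (hψ : ψ ∈ PureStates A)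
    (ψ1 : ψ 1 = 1) (T : (ℕ → H) → Submodule ℂ H)
    (hT1 : ∀ e, Orthonormal ℂ e → ∀ n, ‖pr (T e) (e n)‖ ^ 2 ≤ 3 / 4)
    (bd : ∀ (b : A) (F : Finset (ℕ → H)) (y : H →L[ℂ] H),
      (∀ v, (∀ e ∈ F, v ∈ T e) → y v = 0) → ‖ψ b‖ ≤ ‖b.1 + y‖) :
    ∃ φ ∈ PureStates (H →L[ℂ] H), (∀ b : A, φ b = ψ b) ∧ ¬ Diagonalizable φ := by
  classical
  have one_le : ‖(1 : H →L[ℂ] H)‖ ≤ 1 := ContinuousLinearMap.norm_id_le
  have one_le' : ‖(1 : A)‖ ≤ 1 := one_le
  let Y : Submodule ℂ (H →L[ℂ] H) :=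
    { carrier := {y | ∃ F : Finset (ℕ → H), ∀ v, (∀ e ∈ F, v ∈ T e) → y v = 0}
      add_mem' := by
        rintro y y' ⟨F, h⟩ ⟨F', h'⟩
        refine ⟨F ∪ F', fun v hv => ?_⟩
        rw [add_apply, h v fun e he => hv e (Finset.mem_union_left _ he),
          h' v fun e he => hv e (Finset.mem_union_right _ he), add_zero]
      zero_mem' := ⟨∅, fun _ _ => rfl⟩
      smul_mem' := by
        rintro c y ⟨F, h⟩
        exact ⟨F, fun v hv => by rw [smul_apply, h v hv, smul_zero]⟩ }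
  have Yl : ∀ y ∈ Y, star y * y ∈ Y := by
    rintro y ⟨F, h⟩
    exact ⟨F, fun v hv => by rw [mul_apply_eq_comp, h v hv, map_zero]⟩
  obtain ⟨g, g1, g2⟩ := Module.Dual.exists_extension_of_le_seminorm
    A.toSubalgebra.toSubmodule ψ.toLinearMap
    (p := (normSeminorm ℂ ((H →L[ℂ] H) ⧸ Y)).comp Y.mkQ) fun b => by
      refine le_of_forall_pos_le_add fun ε hε => ?_
      obtain ⟨m, hm, hlt⟩ := Submodule.Quotient.norm_mk_lt (Y.mkQ b.1) hε
      obtain ⟨F, hF⟩ := (Submodule.Quotient.eq Y).1 hm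
      have := bd b F _ hF
      rw [add_sub_cancel] at this
      exact this.trans hlt.le
  have g3 : ∀ x, ‖g x‖ ≤ 1 * ‖x‖ := fun x => by
    rw [one_mul]
    exact (g2 x).trans (Submodule.Quotient.norm_mk_le Y x)
  let K : Set ((H →L[ℂ] H) → ℂ) :=
    (((↑) : ((H →L[ℂ] H) →L[ℂ] ℂ) → (H →L[ℂ] H) → ℂ) '' Metric.closedBall 0 1) ∩
      {f | (∀ b : A, f b = ψ b) ∧ ∀ y ∈ Y, f y = 0}
  have Kc : IsCompact K := by
    refine (ContinuousLinearMap.isCompact_image_coe_closedBall _ _).inter_right ?_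
    simp only [ofPred_and, ofPred_forall]
    exact (isClosed_iInter fun _ => isClosed_eq (by fun_prop) continuous_const).inter
      (isClosed_iInter fun _ => isClosed_iInter fun _ => isClosed_eq (by fun_prop) continuous_const)
  have Kn : K.Nonempty := by
    refine ⟨g.mkContinuous 1 g3, ⟨_, mem_closedBall_zero_iff.2
      (g.mkContinuous_norm_le zero_le_one g3), rfl⟩, fun b => g1 b, fun y hy => ?_⟩
    have := g2 y
    rw [Seminorm.comp_apply, Submodule.mkQ_apply, (Submodule.Quotient.mk_eq_zero Y).2 hy,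
      map_zero] at this
    exact norm_le_zero_iff.1 this
  obtain ⟨f, hf⟩ := Kc.extremePoints_nonempty Kn
  obtain ⟨⟨φ, φ1, rfl⟩, φ2, φ3⟩ := hf.1
  rw [mem_closedBall_zero_iff] at φ1
  have φ4 : φ 1 = 1 := (φ2 1).trans ψ1
  refine ⟨φ, mem_extremePoints_iff_left.2 ⟨mem_states (pos_of_norm φ1 φ4 one_le) φ1 φ4 one_le,
    fun φ₁ h₁ φ₂ h₂ hs => ?_⟩, φ2, ?_⟩
  · have side : ∀ χ₁ ∈ States (H →L[ℂ] H), ∀ χ₂ ∈ States (H →L[ℂ] H), φ ∈ openSegment ℝ χ₁ χ₂ →
        χ₁ 1 = 1 ∧ ∀ y ∈ Y, χ₁ y = 0 := by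
      rintro χ₁ k₁ χ₂ k₂ ⟨a, b, ha, hb, hab, h⟩
      have ev : ∀ x, a * (χ₁ x).re + b * (χ₂ x).re = (φ x).re := fun x => by
        rw [← h]; simp
      have le1 : ∀ χ ∈ States (H →L[ℂ] H), (χ 1).re ≤ 1 := fun χ k =>
        (Complex.re_le_norm _).trans ((χ.le_opNorm 1).trans (by rw [k.2, one_mul]; exact one_le))
      constructor
      · have h1 := ev 1
        have h2 := (Complex.nonneg_iff.1 (k₁.1 1)).2
        rw [star_one, one_mul] at h2
        rw [φ4, Complex.one_re] at h1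
        refine Complex.ext ?_ h2.symm
        rw [Complex.one_re]
        nlinarith [le1 _ k₁, le1 _ k₂]
      · intro y hy
        have h1 := ev (star y * y)
        have h2 := Complex.nonneg_iff.1 (k₁.1 y)
        have h3 := Complex.nonneg_iff.1 (k₂.1 y)
        rw [φ3 _ (Yl y hy), Complex.zero_re] at h1
        have := cs_zero k₁.1 (q := y) (Complex.ext (by
          rw [Complex.zero_re]
          nlinarith [h2.1, h3.1]) h2.2.symm) 1
        rwa [one_mul] at this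
    have s₁ := side φ₁ h₁ φ₂ h₂ hs
    have s₂ := side φ₂ h₂ φ₁ h₁ (by rwa [openSegment_symm])
    let ι : A →L[ℂ] (H →L[ℂ] H) :=
      A.toSubalgebra.toSubmodule.subtypeL
    have res : ∀ χ ∈ States (H →L[ℂ] H), χ 1 = 1 → χ.comp ι ∈ States A :=
      fun χ k k1 => mem_states (fun a => k.1 a.1)
        (ContinuousLinearMap.opNorm_le_bound _ zero_le_one fun a => by
          have := χ.le_opNorm a.1
          rw [k.2] at this
          exact this) k1 one_le'
    obtain ⟨a, b, ha, hb, hab, h⟩ := hs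
    have e := (mem_extremePoints.1 hψ).2 _ (res φ₁ h₁ s₁.1) _ (res φ₂ h₂ s₂.1)
      ⟨a, b, ha, hb, hab, by
        ext x
        rw [← φ2 x, ← h]
        rfl⟩
    refine DFunLike.coe_injective ((mem_extremePoints_iff_left.1 hf).2 φ₁
      ⟨⟨φ₁, mem_closedBall_zero_iff.2 h₁.2.le, rfl⟩, fun x => by rw [← e.1]; rfl, s₁.2⟩ φ₂
      ⟨⟨φ₂, mem_closedBall_zero_iff.2 h₂.2.le, rfl⟩, fun x => by rw [← e.2]; rfl, s₂.2⟩
      ⟨a, b, ha, hb, hab, by rw [← h]; rfl⟩)
  · rintro ⟨e, U, h⟩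
    have h1 := φ3 (1 - pr (T e)) ⟨{⇑e}, fun v hv => by
      rw [sub_apply, pr_self (subset_closure (hv _ (Finset.mem_singleton_self _)))]
      exact sub_self v⟩
    rw [map_sub, φ4, sub_eq_zero] at h1
    have h2 := le_of_tendsto' (h (pr (T e))).norm (b := 3 / 4) fun n => by
      rw [norm_inner_symm, inner_pr, Complex.norm_real, Real.norm_of_nonneg (sq_nonneg _)]
      exact hT1 e e.orthonormal n
    rw [← h1, norm_one] at h2
    linarith

end Pool.Agent.Lib.MP_b8e63c_lc
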