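import Pool.Agent.Lib.MP_b8e63c_lc.Atom
import Pool.Agent.Lib.MP_b8e63c_lc.Fam

/-! The pure states of an abelian von Neumann algebra with a pure extension that is not
diagonalizable. -/

open scoped InnerProductSpace ComplexOrder ComplexConjugate
open Set Filter

noncomputable section

namespace Pool.Agent.Lib.MP_b8e63c_lc

variable {H : Type*} [NormedAddCommGroup H] [InnerProductSpace ℂ H] [CompleteSpace H]
  {A : VonNeumannAlgebra H} (hA : ∀ a ∈ A, ∀ b ∈ A, a * b = b * a)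
  {χ : A.toStarSubalgebra →L[ℂ] ℂ} (hχ : χ ∈ PureStates A.toStarSubalgebra)
include hA hχ

theorem char_mul {z : A.toStarSubalgebra} (hz : IsStarProjection z.1) (a : A.toStarSubalgebra) :
    χ (z * a) = χ z * χ a :=
  pure_mul (A := A.toStarSubalgebra) ContinuousLinearMap.norm_id_le hχ
    ⟨Subtype.ext hz.isIdempotentElem.eq, Subtype.ext hz.isSelfAdjoint.star_eq⟩
    (fun b => Subtype.ext (hA _ b.2 _ z.2)) a

theorem char_proj {z : A.toStarSubalgebra} (hz : IsStarProjection z.1) : χ z = 0 ∨ χ z = 1 := by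
  have := char_mul hA hχ hz z
  rw [show z * z = z from Subtype.ext hz.isIdempotentElem.eq] at this
  exact IsIdempotentElem.iff_eq_zero_or_one.1 this.symm

omit hA in
theorem char_one : χ 1 = 1 :=
  state_one (A := A.toStarSubalgebra) ContinuousLinearMap.norm_id_le hχ.1

variable [TopologicalSpace.SeparableSpace H]

/-- Unbounded multiplicity gives an extension that is not diagonalizable. -/
theorem ext_of_unbounded (hR : ∀ m : ℕ, ∃ z : A.toStarSubalgebra, IsStarProjection z.1 ∧ χ z = 1 ∧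
      ∀ q ∈ A, IsStarProjection q → q ≠ 0 → q * z.1 = q → (m : Cardinal) < Module.rank ℂ q.range) :
    ∃ φ ∈ PureStates (H →L[ℂ] H), (∀ b : A.toStarSubalgebra, φ b = χ b) ∧ ¬ Diagonalizable φ := by
  let K : Type _ := {c : H →L[ℂ] H // c ∈ A ∧ IsStarProjection c ∧
    ∀ q ∈ A, IsStarProjection q → q * c = q → q = 0 ∨ q = c}
  have ho : Pairwise fun k l : K => k.1 * l.1 = 0 := fun k l hkl => by
    have hp := k.2.2.1.mul l.2.2.1 (hA _ k.2.1 _ l.2.1)
    refine (l.2.2.2 _ (mul_mem k.2.1 l.2.1) hp (by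
      rw [mul_assoc, l.2.2.1.isIdempotentElem.eq])).elim id fun h => ?_
    refine (k.2.2.2 _ (mul_mem k.2.1 l.2.1) hp (by
      rw [hA _ k.2.1 _ l.2.1, mul_assoc, k.2.2.1.isIdempotentElem.eq])).resolve_right fun h' => ?_
    exact hkl (Subtype.ext (h'.symm.trans h))
  have hP : pr (⨆ k : K, k.1.range) ∈ A := pr_mem_vn A fun y hy w hw => by
    refine (iSup_le fun k => ?_ : ⨆ k : K, k.1.range ≤ (⨆ k : K, k.1.range).comap y.toLinearMap) hw
    rintro _ ⟨x, rfl⟩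
    refine Submodule.mem_iSup_of_mem k ⟨y x, ?_⟩
    exact congrArg (fun T : H →L[ℂ] H => T x) (VonNeumannAlgebra.mem_commutant_iff.1 hy _ k.2.1)
  rcases char_proj hA hχ (z := ⟨_, hP⟩) (pr_proj _) with h0 | h0
  · have hz := sub_mem (one_mem A) hP
    refine extension A _ (VonNeumannAlgebra.mem_commutant_iff.2 fun g hg => hA g hg _ hz)
      (pr_proj _).one_sub (fun p hp hpp hp0 h => ?_) _ le_rfl hz χ hχ ?_
    · by_contra hno
      push Not at hno
      have h1 : pr (⨆ k : K, k.1.range) * p = p := ContinuousLinearMap.ext fun x =>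
        pr_self (subset_closure (Submodule.mem_iSup_of_mem (⟨p, hp, hpp, fun q hq hqp h' =>
          by_contra fun h2 => hno q hq hqp (not_or.1 h2).1 (not_or.1 h2).2 h'⟩ : K) ⟨x, rfl⟩))
      rw [hA p hp _ hz, sub_mul, one_mul, h1, sub_self] at h
      exact hp0 h.symm
    · refine (map_sub χ 1 ⟨_, hP⟩).trans ?_
      rw [h0, char_one hχ, sub_zero]
  obtain ⟨d, hd⟩ := atomic_family (H := H)
  choose J g g1 g2 g3 using fun k : K => cells d k.1.range
  obtain ⟨T, T1, T2⟩ := hd {p : K × ℕ // p.2 ∈ J p.1} (fun j => j.1.2) (fun j => g j.1.1 j.1.2)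
    (fun j => (g1 _ _ j.2).1) (by
      rintro ⟨⟨k, s⟩, hs⟩ ⟨⟨l, r⟩, hr⟩ hne
      refine Submodule.isOrtho_span.2 ?_
      rintro _ ⟨i, rfl⟩ _ ⟨j, rfl⟩
      by_cases hkl : k = l
      · subst hkl
        exact g2 k s hs r hr (fun h => hne (Subtype.ext (Prod.ext rfl h))) i j
      · exact Submodule.isOrtho_iff_inner_eq.1 (range_ortho k.2.2.1 (ho hkl)) _
          ((g1 _ _ hs).2 i) _ ((g1 _ _ hr).2 j))
  refine ext_of_family _ χ hχ (char_one hχ) T T1 fun b F y hy => ?_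
  obtain ⟨s₀, hs₀⟩ := T2 F
  obtain ⟨z, z1, z2, z3⟩ := hR (d s₀ + s₀)
  have e : χ b = χ (⟨_, hP⟩ * (z * b)) := by
    rw [char_mul hA hχ (pr_proj _), char_mul hA hχ z1, h0, z2, one_mul, one_mul]
  have := χ.le_opNorm (⟨_, hP⟩ * (z * b))
  rw [hχ.1.2, one_mul, ← e] at this
  refine this.trans (norm_sup_le (B := z.1 * b.1) (fun k : K => k.2.2.1) ho
    (fun k => hA _ k.2.1 _ (z * b).2) (norm_nonneg _) fun k => ?_)
  rw [hA _ z.2 _ b.2, mul_assoc]
  by_cases hk : z.1 * k.1 = 0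
  · rw [hk, mul_zero, norm_zero]
    exact norm_nonneg _
  have h1 := (k.2.2.2 _ (mul_mem z.2 k.2.1) (z1.mul k.2.2.1 (hA _ z.2 _ k.2.1))
    (by rw [mul_assoc, k.2.2.1.isIdempotentElem.eq])).resolve_left hk
  obtain ⟨s, s1, s2⟩ := g3 k s₀ (z3 _ k.2.1 k.2.2.1 (h1 ▸ hk) ((hA _ k.2.1 _ z.2).trans h1))
  obtain ⟨u, u1, u2, u3⟩ := hs₀ ⟨(k, s), s1⟩ s2
  obtain ⟨x, hx⟩ : u ∈ k.1.range :=
    Submodule.span_le.2 (range_subset_iff.2 (g1 k s s1).2) u1
  rw [h1]
  refine norm_min_le hA k.2.1 k.2.2.1 k.2.2.2 b.2 (u := u) ?_ u2 (norm_nonneg _) ?_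
  · rw [← hx]
    exact congrArg (fun T : H →L[ℂ] H => T x) k.2.2.1.isIdempotentElem.eq
  · have := (b.1 + y).le_opNorm u
    rwa [add_apply, hy u u3, add_zero] at this

/-- Bounded multiplicity makes every pure extension diagonalizable. -/
theorem diag_of_bounded (hH : ¬ FiniteDimensional ℂ H) {φ : (H →L[ℂ] H) →L[ℂ] ℂ}
    (hφ : φ ∈ PureStates (H →L[ℂ] H)) (hφχ : ∀ b : A.toStarSubalgebra, φ b = χ b)
    (hR : ¬ ∀ m : ℕ, ∃ z : A.toStarSubalgebra, IsStarProjection z.1 ∧ χ z = 1 ∧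
      ∀ q ∈ A, IsStarProjection q → q ≠ 0 → q * z.1 = q → (m : Cardinal) < Module.rank ℂ q.range) :
    Diagonalizable φ := by
  by_contra hno
  refine hR fun m => ?_
  induction m with
  | zero =>
    refine ⟨1, .one _, char_one hχ, fun q _ _ hq _ => pos_iff_ne_zero.2 fun h => hq ?_⟩
    exact ContinuousLinearMap.coe_injective (LinearMap.range_eq_bot.1 (Submodule.rank_eq_zero.1 h))
  | succ m ih =>
  obtain ⟨z, z1, z2, z3⟩ := ih
  let K : Type _ := {c : H →L[ℂ] H // c ∈ A ∧ IsStarProjection c ∧ c * z.1 = c ∧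
    Module.rank ℂ c.range = (m + 1 : ℕ)}
  have mn : ∀ (k : K), ∀ q ∈ A, IsStarProjection q → q ≠ 0 → k.1 * q = q → q = k.1 := by
    intro k q hq hqp hq0 h
    have h1 := z3 q hq hqp hq0 (by rw [← h, hA _ k.2.1 _ hq, mul_assoc, k.2.2.2.1])
    have h2 : q.range ≤ k.1.range := by
      rintro _ ⟨x, rfl⟩
      exact ⟨q x, congrArg (fun T : H →L[ℂ] H => T x) h⟩
    have := Module.finite_of_rank_eq_nat k.2.2.2.2
    have := Submodule.finiteDimensional_of_le h2
    rw [← Module.finrank_eq_rank, Nat.cast_lt] at h1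
    rw [← pr_range hqp, Submodule.eq_of_le_of_finrank_le h2
      ((Module.finrank_eq_of_rank_eq k.2.2.2.2).trans_le h1), pr_range k.2.2.1]
  have ho : Pairwise fun k l : K => k.1 * l.1 = 0 := fun k l hkl => by_contra fun h => by
    have hp := k.2.2.1.mul l.2.2.1 (hA _ k.2.1 _ l.2.1)
    refine hkl (Subtype.ext ((mn k _ (mul_mem k.2.1 l.2.1) hp h ?_).symm.trans
      (mn l _ (mul_mem k.2.1 l.2.1) hp h ?_)))
    · rw [← mul_assoc, k.2.2.1.isIdempotentElem.eq]
    · rw [hA _ k.2.1 _ l.2.1, ← mul_assoc, l.2.2.1.isIdempotentElem.eq]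
  choose e e1 e2 using fun k : K => exists_onb _ k.2.2.2.2
  have e3 : ∀ k i, e k i ∈ k.1.range := fun k i => e2 k ▸ Submodule.subset_span ⟨i, rfl⟩
  have hE : Orthonormal ℂ fun p : K × Fin (m + 1) => e p.1 p.2 := ⟨fun p => (e1 _).1 _, by
    rintro ⟨k, i⟩ ⟨l, j⟩ hne
    by_cases hkl : k = l
    · subst hkl
      exact (e1 k).2 fun h => hne (Prod.ext rfl h)
    · exact Submodule.isOrtho_iff_inner_eq.1 (range_ortho k.2.2.1 (ho hkl)) _ (e3 _ _) _ (e3 _ _)⟩
  have e4 : ∀ {Z : Set K} {k}, k ∈ Z → k.1.range ≤ Submodule.span ℂ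
      ((fun p : K × Fin (m + 1) => e p.1 p.2) '' Z ×ˢ univ) := fun {Z k} hk => by
    rw [← e2]
    exact Submodule.span_mono (range_subset_iff.2 fun i => ⟨(k, i), ⟨hk, trivial⟩, rfl⟩)
  have hP : ∀ Z : Set K, prs (fun p : K × Fin (m + 1) => e p.1 p.2) (Z ×ˢ univ) ∈ A := fun Z =>
    pr_mem_vn A fun y hy w hw => by
      refine (Submodule.span_le.2 ?_ : _ ≤ (Submodule.span ℂ _).comap y.toLinearMap) hw
      rintro _ ⟨⟨k, i⟩, hk, rfl⟩
      obtain ⟨x, hx⟩ := e3 k i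
      refine e4 hk.1 ⟨y x, ?_⟩
      show k.1 (y x) = y (e k i)
      rw [← hx]
      exact congrArg (fun T : H →L[ℂ] H => T x) (VonNeumannAlgebra.mem_commutant_iff.1 hy _ k.2.1)
  rcases char_proj hA hχ (z := ⟨_, hP univ⟩) (prs_proj _ _) with h0 | h0
  · have hz := sub_mem (one_mem A) (hP univ)
    refine ⟨z * (1 - ⟨_, hP univ⟩), z1.mul (prs_proj _ _).one_sub (hA _ z.2 _ hz), ?_,
      fun q hq hqp hq0 h => ?_⟩
    · rw [char_mul hA hχ z1, map_sub, h0, z2, char_one hχ, sub_zero, one_mul]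
    replace h : q * (z.1 * (1 - prs _ _)) = q := h
    have h1 : q * z.1 = q := by
      rw [← h, hA _ z.2 _ hz, mul_assoc, mul_assoc, z1.isIdempotentElem.eq]
    refine lt_of_le_of_ne (by simpa using Order.succ_le_of_lt (z3 q hq hqp hq0 h1)) fun h2 => ?_
    have h3 : prs (fun p : K × Fin (m + 1) => e p.1 p.2) (univ ×ˢ univ) * q = q :=
      ContinuousLinearMap.ext fun x => pr_self (subset_closure
        (e4 (k := ⟨q, hq, hqp, h1, h2.symm⟩) (mem_univ _) ⟨x, rfl⟩))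
    rw [← mul_assoc, h1, hA q hq _ hz, sub_mul, one_mul, h3, sub_self] at h
    exact hq0 h.symm
  obtain ⟨U, hU⟩ := ultra_of_add (fun Z => χ ⟨_, hP Z⟩) (fun Z => char_proj hA hχ (prs_proj _ _))
    (fun Y Z h => by
      rw [← map_add]
      refine congrArg χ (Subtype.ext ?_)
      show prs _ _ = prs _ _ + prs _ _
      rw [union_prod, prs_union hE (h.set_prod_left _ _)]) h0
  exact absurd (diag_of_blocks hH hE U hφ fun Z hZ => (hφχ ⟨_, hP Z⟩).trans (hU Z hZ)) hno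

end Pool.Agent.Lib.MP_b8e63c_lc
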