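import Mathlib

/-! Definitions for the problem on diagonalizable pure states. -/

open scoped InnerProductSpace ComplexOrder
open Filter Topology

namespace Pool.Agent.Lib.MP_b8e63c_lc

/-- The states of a normed star algebra: positive linear functionals of norm one. -/
def States (A : Type*) [NormedRing A] [NormedAlgebra ℂ A] [Star A] : Set (A →L[ℂ] ℂ) :=
  {φ | (∀ a : A, 0 ≤ φ (star a * a)) ∧ ‖φ‖ = 1}

/-- The pure states: the extreme points of the convex set of states. -/
def PureStates (A : Type*) [NormedRing A] [NormedAlgebra ℂ A] [Star A] : Set (A →L[ℂ] ℂ) :=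
  (States A).extremePoints ℝ

variable {H : Type*} [NormedAddCommGroup H] [InnerProductSpace ℂ H] [CompleteSpace H]

/-- `φ` is a limit along an ultrafilter of the vector states of an orthonormal basis. -/
def Diagonalizable (φ : (H →L[ℂ] H) →L[ℂ] ℂ) : Prop :=
  ∃ (e : HilbertBasis ℕ ℂ H) (U : Ultrafilter ℕ),
    ∀ T : H →L[ℂ] H, Tendsto (fun n => ⟪e n, T (e n)⟫_ℂ) U (𝓝 (φ T))

/-- No minimal projection of `M` lies below `z`: every nonzero projection `p ≤ z` of `M` has a
nonzero proper subprojection in `M`. -/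
def NoMinimalBelow (M : VonNeumannAlgebra H) (z : H →L[ℂ] H) : Prop :=
  ∀ p ∈ M, IsStarProjection p → p ≠ 0 → p * z = p →
    ∃ q ∈ M, IsStarProjection q ∧ q ≠ 0 ∧ q ≠ p ∧ q * p = q

end Pool.Agent.Lib.MP_b8e63c_lc
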