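import Pool.Agent.Lib.MP_b8e63c_lc.Tower

/-! The extension theorem. -/

open scoped InnerProductSpace ComplexOrder ComplexConjugate
open Set Filter

noncomputable section

namespace Pool.Agent.Lib.MP_b8e63c_lc

theorem eq_zero_of_line {α δ : ℂ} (h : ∀ t : ℝ, 0 ≤ α + t * δ) : δ = 0 := by
  have h0 := Complex.nonneg_iff.1 (h 0)
  have h1 := (Complex.nonneg_iff.1 (h 1)).2
  simp only [Complex.ofReal_zero, zero_mul, add_zero, Complex.ofReal_one, one_mul,
    Complex.add_im] at h0 h1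
  refine Complex.ext ?_ (by rw [Complex.zero_im]; linarith [h0.2])
  by_contra hre
  have h2 := (Complex.nonneg_iff.1 (h (-(α.re + 1) / δ.re))).1
  rw [Complex.add_re, Complex.re_ofReal_mul, div_mul_cancel₀ _ hre] at h2
  linarith

/-- The degenerate case of the Cauchy-Schwarz inequality. -/
theorem cs_zero {A : Type*} [NormedRing A] [NormedAlgebra ℂ A] [StarRing A] [StarModule ℂ A]
    {φ : A →L[ℂ] ℂ} (hφ : ∀ a, 0 ≤ φ (star a * a)) {q : A} (hq : φ (star q * q) = 0) (a : A) :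
    φ (a * q) = 0 := by
  have key : ∀ l : ℂ, 0 ≤ φ (a * star a) + (l * φ (a * q) + conj l * φ (star q * star a)) := by
    intro l
    have := hφ (star a + l • q)
    simp only [star_add, star_star, star_smul, add_mul, mul_add, smul_mul_assoc, mul_smul_comm,
      map_add, map_smul, hq, smul_eq_mul, mul_zero, add_zero, Complex.star_def] at this
    convert this using 1
    ring
  have h1 : φ (a * q) + φ (star q * star a) = 0 := eq_zero_of_line fun t => by
    have := key t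
    rwa [Complex.conj_ofReal, ← mul_add] at this
  have h2 : Complex.I * (φ (a * q) - φ (star q * star a)) = 0 :=
    eq_zero_of_line (α := φ (a * star a)) fun t => by
    have := key (t * Complex.I)
    rw [map_mul conj, Complex.conj_ofReal, Complex.conj_I] at this
    convert this using 2
    ring
  have h3 := (mul_eq_zero.1 h2).resolve_left Complex.I_ne_zero
  linear_combination (h1 + h3) / 2

/-- A contractive unital functional is positive. -/
theorem pos_of_norm {A : Type*} [CStarAlgebra A] [PartialOrder A] [StarOrderedRing A]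
    {φ : A →L[ℂ] ℂ} (h1 : ‖φ‖ ≤ 1) (h2 : φ 1 = 1) (hA : ‖(1 : A)‖ ≤ 1) (a : A) :
    0 ≤ φ (star a * a) := by
  have hle : ∀ w, ‖φ w‖ ≤ ‖w‖ := fun w =>
    (φ.le_opNorm w).trans (mul_le_of_le_one_left (norm_nonneg _) h1)
  have h0 : 0 ≤ star a * a := star_mul_self_nonneg a
  generalize star a * a = x at h0
  have hs : IsSelfAdjoint x := .of_nonneg h0
  refine Complex.nonneg_iff.2 ⟨?_, ?_⟩
  · have h3 := (CStarAlgebra.norm_le_iff_le_algebraMap (algebraMap ℝ A ‖x‖ - x) (norm_nonneg x)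
      (sub_nonneg.2 hs.le_algebraMap_norm_self)).2 (sub_le_self _ h0)
    have h4 := (Complex.re_le_norm _).trans ((hle _).trans h3)
    rw [map_sub, Algebra.algebraMap_eq_smul_one, φ.map_smul_of_tower, h2] at h4
    simpa using h4
  · have key : ∀ t : ℝ, 2 * t * (φ x).im ≤ ‖x‖ * ‖x‖ := fun t => by
      have h3 : star (x + ((t : ℂ) * Complex.I) • (1 : A)) * (x + ((t : ℂ) * Complex.I) • (1 : A)) =
          x * x + ((t * t : ℝ) : ℂ) • (1 : A) := by
        simp only [star_add, star_smul, star_one, hs.star_eq, add_mul, mul_add, smul_mul_assoc,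
          mul_smul_comm, one_mul, mul_one, smul_add, smul_smul, Complex.star_def, map_mul,
          Complex.conj_ofReal, Complex.conj_I]
        have : (t : ℂ) * Complex.I * (t * -Complex.I) = ((t * t : ℝ) : ℂ) := by
          push_cast
          linear_combination (-(t : ℂ) * t) * Complex.I_mul_I
        rw [this]
        module
      have h4 := CStarRing.norm_star_mul_self (x := x + ((t : ℂ) * Complex.I) • (1 : A))
      have h5 : ‖x * x + ((t * t : ℝ) : ℂ) • (1 : A)‖ ≤ ‖x‖ * ‖x‖ + t * t := by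
        refine (norm_add_le _ _).trans (add_le_add (norm_mul_le _ _) ?_)
        rw [norm_smul, Complex.norm_real, Real.norm_of_nonneg (mul_self_nonneg t)]
        exact mul_le_of_le_one_right (mul_self_nonneg t) hA
      have h6 := (Complex.abs_im_le_norm _).trans (hle (x + ((t : ℂ) * Complex.I) • (1 : A)))
      rw [map_add, map_smul, h2] at h6
      simp only [smul_eq_mul, mul_one, Complex.add_im, Complex.mul_im, Complex.ofReal_re,
        Complex.I_im, Complex.ofReal_im, Complex.I_re, mul_zero, add_zero] at h6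
      have h7 := mul_self_le_mul_self (abs_nonneg _) h6
      rw [abs_mul_abs_self, ← h4, h3] at h7
      nlinarith [mul_self_nonneg (φ x).im]
    by_contra him
    have := key ((‖x‖ * ‖x‖ + 1) / (2 * (φ x).im))
    have h8 : 2 * ((‖x‖ * ‖x‖ + 1) / (2 * (φ x).im)) * (φ x).im = ‖x‖ * ‖x‖ + 1 := by
      have : (φ x).im ≠ 0 := fun h => him h.symm
      field_simp
    linarith

theorem mem_states {A : Type*} [NormedRing A] [NormedAlgebra ℂ A] [Star A] {φ : A →L[ℂ] ℂ}
    (h0 : ∀ a, 0 ≤ φ (star a * a)) (h1 : ‖φ‖ ≤ 1) (h2 : φ 1 = 1) (hA : ‖(1 : A)‖ ≤ 1) :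
    φ ∈ States A := by
  refine ⟨h0, le_antisymm h1 ?_⟩
  have := φ.le_opNorm 1
  rw [h2, norm_one] at this
  exact this.trans (mul_le_of_le_one_right (norm_nonneg _) hA)

variable {H : Type*} [NormedAddCommGroup H] [InnerProductSpace ℂ H] [CompleteSpace H]

/-- The extension theorem. -/
theorem extension [TopologicalSpace.SeparableSpace H] (M : VonNeumannAlgebra H) (z : H →L[ℂ] H)
    (hzN : z ∈ M.commutant) (hzp : IsStarProjection z) (hM : NoMinimalBelow M z)
    (A : StarSubalgebra ℂ (H →L[ℂ] H)) (hA : A ≤ M.toStarSubalgebra) (hz : z ∈ A)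
    (ψ : A →L[ℂ] ℂ) (hψ : ψ ∈ PureStates A) (hψz : ψ ⟨z, hz⟩ = 1) :
    ∃ φ ∈ PureStates (H →L[ℂ] H), (∀ b : A, φ b = ψ b) ∧ ¬ Diagonalizable φ := by
  classical
  obtain ⟨T, hT1, hT2⟩ := exists_family hM (hA hz) hzN hzp
  have one_le : ‖(1 : H →L[ℂ] H)‖ ≤ 1 := ContinuousLinearMap.norm_id_le
  have one_le' : ‖(1 : A)‖ ≤ 1 := one_le
  have ψle : ∀ w, ‖ψ w‖ ≤ ‖w‖ := fun w => by simpa [hψ.1.2] using ψ.le_opNorm w
  have hq : star (1 - ⟨z, hz⟩ : A) * (1 - ⟨z, hz⟩) = 1 - ⟨z, hz⟩ :=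
    Subtype.ext (by
      show star (1 - z) * (1 - z) = 1 - z
      rw [hzp.one_sub.isSelfAdjoint.star_eq, hzp.one_sub.isIdempotentElem.eq])
  have ψ1 : ψ 1 = 1 := by
    have h1 := hψ.1.1 (1 - ⟨z, hz⟩)
    rw [hq, map_sub, hψz, Complex.nonneg_iff] at h1
    have h2 := (Complex.re_le_norm _).trans ((ψle 1).trans one_le')
    simp only [Complex.sub_re, Complex.sub_im, Complex.one_re, Complex.one_im] at h1
    exact Complex.ext (by rw [Complex.one_re]; linarith [h1.1])
      (by rw [Complex.one_im]; linarith [h1.2])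
  have ψz : ∀ b : A, ‖ψ b‖ ≤ ‖b.1 * z‖ := fun b => by
    have h1 := cs_zero hψ.1.1 (q := 1 - ⟨z, hz⟩) (by rw [hq, map_sub, hψz, ψ1, sub_self]) b
    rw [mul_sub, mul_one, map_sub, sub_eq_zero] at h1
    rw [h1]
    exact ψle _
  let Y : Submodule ℂ (H →L[ℂ] H) :=
    { carrier := {y | ∃ F : Finset (ℕ → H), ∀ v, (∀ e ∈ F, v ∈ T e) → y v = 0}
      add_mem' := by
        rintro y y' ⟨F, h⟩ ⟨F', h'⟩
        refine ⟨F ∪ F', fun v hv => ?_⟩
        rw [add_apply, h v fun e he => hv e (Finset.mem_union_left _ he),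
          h' v fun e he => hv e (Finset.mem_union_right _ he), add_zero]
      zero_mem' := ⟨∅, fun _ _ => rfl⟩
      smul_mem' := by
        rintro c y ⟨F, h⟩
        exact ⟨F, fun v hv => by rw [smul_apply, h v hv, smul_zero]⟩ }
  have Yl : ∀ y ∈ Y, star y * y ∈ Y := by
    rintro y ⟨F, h⟩
    exact ⟨F, fun v hv => by rw [mul_apply_eq_comp, h v hv, map_zero]⟩
  have bd : ∀ b ∈ M, ∀ y ∈ Y, ‖b * z‖ ≤ ‖b + y‖ := by
    rintro b hb y ⟨F, h⟩
    refine ContinuousLinearMap.opNorm_le_bound _ (norm_nonneg _) fun ξ => ?_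
    have h1 : closure {a | z a = a ∧ ∃ u ∈ M.commutant, star u * u = z ∧ ∀ e ∈ F, u a ∈ T e} ⊆
        {a : H | ‖b a‖ ≤ ‖b + y‖ * ‖a‖} := by
      refine closure_minimal ?_ (isClosed_le (by fun_prop) (by fun_prop))
      rintro a ⟨ha, u, u1, u2, u3⟩
      have iso : ∀ v, z v = v → ‖u v‖ = ‖v‖ := fun v hv => by
        rw [norm_eq_sqrt_re_inner (𝕜 := ℂ), norm_eq_sqrt_re_inner (𝕜 := ℂ) v, ← inner_star,
          ← mul_apply_eq_comp, u2, hv]
      have h2 := (b + y).le_opNorm (u a)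
      rw [add_apply, h _ u3, add_zero, ← mul_apply_eq_comp,
        VonNeumannAlgebra.mem_commutant_iff.1 u1 b hb, mul_apply_eq_comp, iso a ha, iso] at h2
      · exact h2
      · rw [← mul_apply_eq_comp, ← VonNeumannAlgebra.mem_commutant_iff.1 hzN b hb,
          mul_apply_eq_comp, ha]
    refine (h1 (hT2 F ξ)).trans (mul_le_mul_of_nonneg_left ?_ (norm_nonneg _))
    exact (z.le_opNorm ξ).trans (mul_le_of_le_one_left (norm_nonneg _) hzp.norm_le)
  obtain ⟨g, g1, g2⟩ := Module.Dual.exists_extension_of_le_seminorm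
    A.toSubalgebra.toSubmodule ψ.toLinearMap
    (p := (normSeminorm ℂ ((H →L[ℂ] H) ⧸ Y)).comp Y.mkQ) fun b => by
      refine (ψz b).trans (le_of_forall_pos_le_add fun ε hε => ?_)
      obtain ⟨m, hm, hlt⟩ := Submodule.Quotient.norm_mk_lt (Y.mkQ b.1) hε
      have := bd b.1 (hA b.2) _ ((Submodule.Quotient.eq Y).1 hm)
      rw [add_sub_cancel] at this
      exact this.trans hlt.le
  have g3 : ∀ x, ‖g x‖ ≤ 1 * ‖x‖ := fun x => by
    rw [one_mul]
    exact (g2 x).trans (Submodule.Quotient.norm_mk_le Y x)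
  let K : Set ((H →L[ℂ] H) → ℂ) :=
    (((↑) : ((H →L[ℂ] H) →L[ℂ] ℂ) → (H →L[ℂ] H) → ℂ) '' Metric.closedBall 0 1) ∩
      {f | (∀ b : A, f b = ψ b) ∧ ∀ y ∈ Y, f y = 0}
  have Kc : IsCompact K := by
    refine (ContinuousLinearMap.isCompact_image_coe_closedBall _ _).inter_right ?_
    simp only [ofPred_and, ofPred_forall]
    exact (isClosed_iInter fun _ => isClosed_eq (by fun_prop) continuous_const).inter
      (isClosed_iInter fun _ => isClosed_iInter fun _ => isClosed_eq (by fun_prop) continuous_const)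
  have Kn : K.Nonempty := by
    refine ⟨g.mkContinuous 1 g3, ⟨_, mem_closedBall_zero_iff.2
      (g.mkContinuous_norm_le zero_le_one g3), rfl⟩, fun b => g1 b, fun y hy => ?_⟩
    have := g2 y
    rw [Seminorm.comp_apply, Submodule.mkQ_apply, (Submodule.Quotient.mk_eq_zero Y).2 hy,
      map_zero] at this
    exact norm_le_zero_iff.1 this
  obtain ⟨f, hf⟩ := Kc.extremePoints_nonempty Kn
  obtain ⟨⟨φ, φ1, rfl⟩, φ2, φ3⟩ := hf.1
  rw [mem_closedBall_zero_iff] at φ1
  have φ4 : φ 1 = 1 := (φ2 1).trans ψ1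
  refine ⟨φ, mem_extremePoints_iff_left.2 ⟨mem_states (pos_of_norm φ1 φ4 one_le) φ1 φ4 one_le,
    fun φ₁ h₁ φ₂ h₂ hs => ?_⟩, φ2, ?_⟩
  · have side : ∀ χ₁ ∈ States (H →L[ℂ] H), ∀ χ₂ ∈ States (H →L[ℂ] H), φ ∈ openSegment ℝ χ₁ χ₂ →
        χ₁ 1 = 1 ∧ ∀ y ∈ Y, χ₁ y = 0 := by
      rintro χ₁ k₁ χ₂ k₂ ⟨a, b, ha, hb, hab, h⟩
      have ev : ∀ x, a * (χ₁ x).re + b * (χ₂ x).re = (φ x).re := fun x => by
        rw [← h]; simp
      have le1 : ∀ χ ∈ States (H →L[ℂ] H), (χ 1).re ≤ 1 := fun χ k =>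
        (Complex.re_le_norm _).trans ((χ.le_opNorm 1).trans (by rw [k.2, one_mul]; exact one_le))
      constructor
      · have h1 := ev 1
        have h2 := (Complex.nonneg_iff.1 (k₁.1 1)).2
        rw [star_one, one_mul] at h2
        rw [φ4, Complex.one_re] at h1
        refine Complex.ext ?_ h2.symm
        rw [Complex.one_re]
        nlinarith [le1 _ k₁, le1 _ k₂]
      · intro y hy
        have h1 := ev (star y * y)
        have h2 := Complex.nonneg_iff.1 (k₁.1 y)
        have h3 := Complex.nonneg_iff.1 (k₂.1 y)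
        rw [φ3 _ (Yl y hy), Complex.zero_re] at h1
        have := cs_zero k₁.1 (q := y) (Complex.ext (by
          rw [Complex.zero_re]
          nlinarith [h2.1, h3.1]) h2.2.symm) 1
        rwa [one_mul] at this
    have s₁ := side φ₁ h₁ φ₂ h₂ hs
    have s₂ := side φ₂ h₂ φ₁ h₁ (by rwa [openSegment_symm])
    let ι : A →L[ℂ] (H →L[ℂ] H) :=
      A.toSubalgebra.toSubmodule.subtypeL
    have res : ∀ χ ∈ States (H →L[ℂ] H), χ 1 = 1 → χ.comp ι ∈ States A :=
      fun χ k k1 => mem_states (fun a => k.1 a.1)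
        (ContinuousLinearMap.opNorm_le_bound _ zero_le_one fun a => by
          have := χ.le_opNorm a.1
          rw [k.2] at this
          exact this) k1 one_le'
    obtain ⟨a, b, ha, hb, hab, h⟩ := hs
    have e := (mem_extremePoints.1 hψ).2 _ (res φ₁ h₁ s₁.1) _ (res φ₂ h₂ s₂.1)
      ⟨a, b, ha, hb, hab, by
        ext x
        rw [← φ2 x, ← h]
        rfl⟩
    refine DFunLike.coe_injective ((mem_extremePoints_iff_left.1 hf).2 φ₁
      ⟨⟨φ₁, mem_closedBall_zero_iff.2 h₁.2.le, rfl⟩, fun x => by rw [← e.1]; rfl, s₁.2⟩ φ₂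
      ⟨⟨φ₂, mem_closedBall_zero_iff.2 h₂.2.le, rfl⟩, fun x => by rw [← e.2]; rfl, s₂.2⟩
      ⟨a, b, ha, hb, hab, by rw [← h]; rfl⟩)
  · rintro ⟨e, U, h⟩
    have h1 := φ3 (1 - pr (T e)) ⟨{⇑e}, fun v hv => by
      rw [sub_apply, pr_self (subset_closure (hv _ (Finset.mem_singleton_self _)))]
      exact sub_self v⟩
    rw [map_sub, φ4, sub_eq_zero] at h1
    have h2 := le_of_tendsto' (h (pr (T e))).norm (b := 3 / 4) fun n => by
      rw [norm_inner_symm, inner_pr, Complex.norm_real, Real.norm_of_nonneg (sq_nonneg _)]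
      exact hT1 e e.orthonormal n
    rw [← h1, norm_one] at h2
    linarith

end Pool.Agent.Lib.MP_b8e63c_lc
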