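import Pool.Agent.Lib.MP_b8e63c_lc.Part

/-! One level of the construction: inclined subspaces whose common vectors come from an isometry
of the commutant. -/

open scoped InnerProductSpace ComplexOrder ComplexConjugate
open Set

noncomputable section

namespace Pool.Agent.Lib.MP_b8e63c_lc

/-- Many unimodular vectors that are almost orthogonal. -/
theorem exists_inclined (K C : ℕ) : ∃ (D Fam : Type) (_ : Fintype D) (_ : Nonempty D)
    (_ : Fintype Fam) (v : Fam → D → ℂ), (∀ f d, ‖v f d‖ = 1) ∧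
      (∀ f g, f ≠ g → ‖∑ d, conj (v f d) * v g d‖ ≤ Fintype.card D / 4) ∧
      C * Fintype.card D ^ K < Fintype.card Fam := by
  classical
  obtain ⟨p, hp, hpp⟩ := Nat.exists_infinite_primes (8 * K + C + 1)
  have : Fact p.Prime := ⟨hpp⟩
  let χ : AddChar (ZMod p) ℂ := ZMod.stdAddChar
  refine ⟨ZMod p × ZMod p, Fin (2 * K + 1) → ZMod p, inferInstance, inferInstance, inferInstance,
    fun f d => χ (d.2 * (Polynomial.ofFn _ f).eval d.1), fun f d => χ.norm_apply _,
    fun f g hfg => ?_, ?_⟩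
  · let q : Polynomial (ZMod p) := Polynomial.ofFn (2 * K + 1) (g - f)
    have hq : q ≠ 0 := fun h => hfg (sub_eq_zero.1 (Polynomial.injective_ofFn (2 * K + 1)
      (h.trans (map_zero _).symm))).symm
    have h1 : ∑ d : ZMod p × ZMod p, conj (χ (d.2 * (Polynomial.ofFn _ f).eval d.1)) *
        χ (d.2 * (Polynomial.ofFn _ g).eval d.1) =
        (((Finset.univ.filter fun t => q.eval t = 0).card * p : ℕ) : ℂ) := by
      rw [Fintype.sum_prod_type]
      have h2 : ∀ t : ZMod p, ∑ c : ZMod p, conj (χ (c * (Polynomial.ofFn _ f).eval t)) *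
          χ (c * (Polynomial.ofFn _ g).eval t) = if q.eval t = 0 then (p : ℂ) else 0 := fun t => by
        have h3 := AddChar.sum_mulShift (q.eval t) (ZMod.isPrimitive_stdAddChar p)
        rw [ZMod.card, Nat.cast_ite, Nat.cast_zero] at h3
        rw [← h3]
        refine Finset.sum_congr rfl fun c _ => ?_
        rw [← χ.map_neg_eq_conj, ← χ.map_add_eq_mul]
        congr 1
        simp only [q, map_sub, Polynomial.eval_sub]
        ring
      simp only [h2]
      rw [← Finset.sum_filter, Finset.sum_const, nsmul_eq_mul, Nat.cast_mul]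
    have h4 : (Finset.univ.filter fun t => q.eval t = 0).card ≤ 2 * K := by
      refine (Polynomial.card_le_degree_of_subset_roots (p := q) fun t ht => ?_).trans
        (Nat.lt_succ_iff.1 (Polynomial.ofFn_natDegree_lt (by omega) _))
      exact (Polynomial.mem_roots hq).2 (Finset.mem_filter.1 ht).2
    rw [h1, Complex.norm_natCast, Fintype.card_prod, ZMod.card, le_div_iff₀ (by norm_num)]
    have h5 : (Finset.univ.filter fun t => q.eval t = 0).card * p * 4 ≤ p * p := by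
      nlinarith
    exact_mod_cast h5
  · rw [Fintype.card_prod, Fintype.card_fun, ZMod.card, Fintype.card_fin, ← sq, ← pow_mul,
      pow_succ']
    exact Nat.mul_lt_mul_of_pos_right (by omega) (pow_pos hpp.pos _)

/-- Summation against a function that does not depend on one coordinate. -/
theorem sum_indep {S D : Type} [Fintype S] [DecidableEq S] [Fintype D] (σ : S) (a : D → ℂ)
    (h : (S → D) → ℂ) (hh : ∀ i d, h (Function.update i σ d) = h i) :
    (Fintype.card D : ℂ) * ∑ i, a (i σ) * h i = (∑ d, a d) * ∑ i, h i := by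
  let ι : (S → D) × D → (S → D) × D := fun x => (Function.update x.1 σ x.2, x.1 σ)
  have hι : Function.Involutive ι := fun x => by simp [ι]
  have := Equiv.sum_comp (hι.toPerm ι) fun x : (S → D) × D => a x.2 * h x.1
  simp only [Function.Involutive.coe_toPerm, ι, hh, Fintype.sum_prod_type, Finset.sum_const,
    Finset.card_univ, nsmul_eq_mul] at this
  rw [Finset.mul_sum, this, Finset.mul_sum]
  exact Finset.sum_congr rfl fun i _ => (Finset.sum_mul _ _ _).symm

variable {H : Type*} [NormedAddCommGroup H] [InnerProductSpace ℂ H] [CompleteSpace H]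

theorem pr_eq {W : Submodule ℂ H} {x v : H} (h1 : v ∈ closure (W : Set H))
    (h2 : ∀ w ∈ W, ⟪x - v, w⟫_ℂ = 0) : pr W x = v :=
  Submodule.eq_starProjection_of_mem_of_inner_eq_zero h1 fun _ hw =>
    closure_minimal (t := {w | ⟪x - v, w⟫_ℂ = 0}) h2
      (isClosed_eq (by fun_prop) continuous_const) hw

theorem norm_pr_le (W : Submodule ℂ H) (x : H) : ‖pr W x‖ ≤ ‖x‖ :=
  Submodule.norm_starProjection_apply_le _ x

theorem inner_pr_of_mem {W : Submodule ℂ H} (x : H) {w : H} (h : w ∈ closure (W : Set H)) :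
    ⟪w, pr W x⟫_ℂ = ⟪w, x⟫_ℂ := by
  rw [← inner_sa (pr_proj W).isSelfAdjoint.star_eq, pr_self h]

theorem inner_pr (W : Submodule ℂ H) (x : H) : ⟪pr W x, x⟫_ℂ = ((‖pr W x‖ ^ 2 : ℝ) : ℂ) := by
  rw [← inner_pr_of_mem x (pr_mem W x), inner_self_eq_norm_sq_to_K]
  norm_cast

theorem pr_pr {W G : Submodule ℂ H} (h : W ≤ G) (x : H) : pr W (pr G x) = pr W x :=
  pr_eq (pr_mem W x) fun w hw => by
    rw [inner_sub_left, inner_sa (pr_proj G).isSelfAdjoint.star_eq, pr_self (subset_closure (h hw)),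
      ← inner_sub_left]
    exact pr_inner W x (subset_closure hw)

theorem two_bad {A B : Submodule ℂ H} [FiniteDimensional ℂ A] [FiniteDimensional ℂ B]
    (h : ∀ a ∈ A, ∀ b ∈ B, ‖⟪a, b⟫_ℂ‖ ≤ 1 / 4 * (‖a‖ * ‖b‖)) (y : H) :
    ‖pr A y‖ ^ 2 + ‖pr B y‖ ^ 2 ≤ 5 / 4 * ‖y‖ ^ 2 := by
  have ha := pr_mem A y
  have hb := pr_mem B y
  rw [A.closed_of_finiteDimensional.closure_eq] at ha
  rw [B.closed_of_finiteDimensional.closure_eq] at hb
  have h1 := h _ ha _ hb
  have h2 := norm_add_sq (𝕜 := ℂ) (pr A y) (pr B y)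
  have h3 := (RCLike.re_le_norm _).trans h1
  have h4 := norm_inner_le_norm (𝕜 := ℂ) (pr A y + pr B y) y
  rw [inner_add_left, inner_pr, inner_pr, ← Complex.ofReal_add, Complex.norm_real,
    Real.norm_of_nonneg (by positivity)] at h4
  have h5 : ‖pr A y + pr B y‖ ^ 2 ≤ 5 / 4 * (‖pr A y‖ ^ 2 + ‖pr B y‖ ^ 2) := by
    nlinarith [sq_nonneg (‖pr A y‖ - ‖pr B y‖)]
  nlinarith [sq_nonneg (‖pr A y + pr B y‖ - 5 / 4 * ‖y‖)]

theorem bessel (G : Submodule ℂ H) [FiniteDimensional ℂ G] {κ : Type} [Fintype κ] {e : κ → H}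
    (he : Orthonormal ℂ e) : ∑ k, ‖pr G (e k)‖ ^ 2 ≤ Module.finrank ℂ G := by
  let b := stdOrthonormalBasis ℂ G
  have h1 : ∀ x, ‖pr G x‖ ^ 2 = ∑ j, ‖⟪x, (b j : H)⟫_ℂ‖ ^ 2 := fun x => by
    have hx := pr_mem G x
    rw [G.closed_of_finiteDimensional.closure_eq] at hx
    refine (b.sum_sq_norm_inner_right ⟨_, hx⟩).symm.trans (Finset.sum_congr rfl fun j _ => ?_)
    rw [Submodule.coe_inner, inner_pr_of_mem x (subset_closure (b j).2), norm_inner_symm]
  simp only [h1]
  rw [Finset.sum_comm]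
  refine (Finset.sum_le_sum fun j _ => he.sum_inner_products_le (b j : H)).trans ?_
  have h2 : ∀ j, ‖(b j : H)‖ = 1 := fun j => b.orthonormal.1 j
  simp [h2]

variable {M : VonNeumannAlgebra H} {z : H →L[ℂ] H}

/-- One level. -/
theorem level (hM : NoMinimalBelow M z) (hz : z ∈ M) (hzN : z ∈ M.commutant)
    (hzp : IsStarProjection z) (V : Submodule ℂ H) [FiniteDimensional ℂ V] (hV : ∀ a ∈ V, z a = a)
    (S : Type) [Fintype S] {η : ℝ} (hη : 0 < η) :
    ∃ (G : Submodule ℂ H) (W : S → (ℕ → H) → Submodule ℂ H), FiniteDimensional ℂ G ∧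
      (∀ a ∈ G, z a = a) ∧ (∀ a ∈ G, ∀ b ∈ V, ⟪a, b⟫_ℂ = 0) ∧ (∀ σ e, W σ e ≤ G) ∧
      (∀ σ e, Orthonormal ℂ e → ∀ n, ‖pr (W σ e) (e n)‖ ^ 2 ≤ 5 / 8 * ‖pr G (e n)‖ ^ 2 + η) ∧
      ∀ e : S → ℕ → H, ∃ u ∈ M.commutant, star u * u = z ∧ ∀ σ, ∀ a ∈ V, u a ∈ W σ (e σ) := by
  classical
  obtain ⟨D, Fam, _, _, _, v, v1, v2, v3⟩ :=
    exists_inclined (Fintype.card S) ⌈Module.finrank ℂ V / η⌉₊
  obtain ⟨s, s1, s2, s3⟩ := exists_signs hM hz hzN hzp V hV (S → D)
  let T : ((S → D) → V) →ₗ[ℂ] H :=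
    { toFun := fun θ => ∑ i, s i (θ i)
      map_add' := fun θ θ' => by simp [Finset.sum_add_distrib]
      map_smul' := fun c θ => by simp [Finset.smul_sum] }
  have hT : ∀ θ, T θ = ∑ i, s i (θ i) := fun _ => rfl
  have inT : ∀ θ θ', ⟪T θ, T θ'⟫_ℂ = (Fintype.card (S → D) : ℂ)⁻¹ * ∑ i, ⟪θ i, θ' i⟫_ℂ := by
    intro θ θ'
    rw [hT, hT, sum_inner, Finset.mul_sum]
    refine Finset.sum_congr rfl fun i _ => ?_
    rw [inner_sum, Finset.sum_eq_single i (fun j _ hj => ?_) (by simp),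
      (s1 i).2.2.2.2 _ (θ i).2 _ (θ' i).2, Submodule.coe_inner]
    rw [inner_sa (s1 i).2.1, ← mul_apply_eq_comp, s2 i j hj.symm]
    simp
  have vv : ∀ f d, conj (v f d) * v f d = 1 := fun f d => by rw [Complex.conj_mul', v1]; simp
  let L : S → Fam → ((S → D) → V) → H := fun σ f θ => T fun i => v f (i σ) • θ i
  have inL : ∀ σ f g θ θ', ⟪L σ f θ, L σ g θ'⟫_ℂ = (Fintype.card (S → D) : ℂ)⁻¹ *
      ∑ i, conj (v f (i σ)) * v g (i σ) * ⟪θ i, θ' i⟫_ℂ := fun σ f g θ θ' => by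
    simp only [L, inT, inner_smul_left, inner_smul_right]
    congr 1
    exact Finset.sum_congr rfl fun i _ => by ring
  have nL : ∀ σ f θ, ‖L σ f θ‖ = ‖T θ‖ := fun σ f θ => by
    rw [norm_eq_sqrt_re_inner (𝕜 := ℂ), norm_eq_sqrt_re_inner (𝕜 := ℂ) (T θ), inL, inT]
    simp only [vv, one_mul]
  let W : S → Fam → Submodule ℂ H := fun σ f =>
    { carrier := {w | ∃ θ : (S → D) → V, (∀ i d, θ (Function.update i σ d) = θ i) ∧ L σ f θ = w}
      add_mem' := by
        rintro _ _ ⟨θ, h, rfl⟩ ⟨θ', h', rfl⟩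
        refine ⟨θ + θ', fun i d => by simp [h, h'], ?_⟩
        simp only [L, ← map_add]
        congr 1
        funext i
        simp
      zero_mem' := ⟨0, fun _ _ => rfl, by simp [L, hT]⟩
      smul_mem' := by
        rintro c _ ⟨θ, h, rfl⟩
        refine ⟨c • θ, fun i d => by simp [h], ?_⟩
        simp only [L, ← map_smul]
        congr 1
        funext i
        simp [smul_comm c] }
  have WG : ∀ σ f, W σ f ≤ LinearMap.range T := by
    rintro σ f _ ⟨θ, -, rfl⟩
    exact ⟨_, rfl⟩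
  have fin : ∀ σ f, FiniteDimensional ℂ (W σ f) := fun σ f =>
    Submodule.finiteDimensional_of_le (WG σ f)
  have ang : ∀ σ f g, f ≠ g → ∀ a ∈ W σ f, ∀ b ∈ W σ g, ‖⟪a, b⟫_ℂ‖ ≤ 1 / 4 * (‖a‖ * ‖b‖) := by
    rintro σ f g hfg _ ⟨θ, h, rfl⟩ _ ⟨θ', h', rfl⟩
    have hD : (0 : ℝ) < Fintype.card D := by exact_mod_cast Fintype.card_pos
    have h1 := sum_indep σ (fun d => conj (v f d) * v g d) (fun i => ⟪θ i, θ' i⟫_ℂ)
      fun i d => by rw [h, h']
    have h2 : (Fintype.card D : ℂ) * ⟪L σ f θ, L σ g θ'⟫_ℂ =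
        (∑ d, conj (v f d) * v g d) * ⟪T θ, T θ'⟫_ℂ := by
      rw [inL, inT, mul_left_comm, h1, mul_left_comm]
    have h3 := congrArg norm h2
    rw [norm_mul, norm_mul, Complex.norm_natCast] at h3
    have h4 := mul_le_mul (v2 f g hfg) (norm_inner_le_norm (𝕜 := ℂ) (T θ) (T θ')) (norm_nonneg _)
      (by positivity)
    rw [nL, nL]
    refine le_of_mul_le_mul_left ?_ hD
    rw [h3]
    linarith
  have ex : ∀ (σ : S) (e : ℕ → H), ∃ f, Orthonormal ℂ e → ∀ n,
      ‖pr (W σ f) (e n)‖ ^ 2 ≤ 5 / 8 * ‖pr (LinearMap.range T) (e n)‖ ^ 2 + η := by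
    intro σ e
    by_contra hno
    push Not at hno
    obtain ⟨f₀⟩ : Nonempty Fam := Fintype.card_pos_iff.1 (Nat.zero_lt_of_lt v3)
    have he := (hno f₀).1
    choose n hn using fun f => (hno f).2
    have inj : Function.Injective n := fun f g hfg => by
      by_contra hne
      have := fin σ f
      have := fin σ g
      have h1 := two_bad (ang σ f g hne) (pr (LinearMap.range T) (e (n f)))
      have h2 := hn f
      have h3 := hn g
      rw [pr_pr (WG σ f), pr_pr (WG σ g)] at h1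
      rw [← hfg] at h3
      linarith
    have h1 := bessel (LinearMap.range T) (he.comp n inj)
    have h2 : ∀ f, η ≤ ‖pr (LinearMap.range T) (e (n f))‖ ^ 2 := fun f => by
      have h3 := norm_pr_le (W σ f) (pr (LinearMap.range T) (e (n f)))
      rw [pr_pr (WG σ f)] at h3
      have h4 := pow_le_pow_left₀ (norm_nonneg _) h3 2
      have h5 := hn f
      nlinarith [sq_nonneg ‖pr (LinearMap.range T) (e (n f))‖]
    have h3 := (Finset.sum_le_sum fun f _ => h2 f).trans h1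
    have h4 := LinearMap.finrank_range_le T
    rw [Module.finrank_pi_fintype] at h4
    simp only [Finset.sum_const, Finset.card_univ, nsmul_eq_mul, smul_eq_mul, Fintype.card_fun]
      at h3 h4
    have h5 : (Module.finrank ℂ (LinearMap.range T) : ℝ) ≤
        (Fintype.card D : ℝ) ^ Fintype.card S * Module.finrank ℂ V := by exact_mod_cast h4
    have h6 : ((⌈Module.finrank ℂ V / η⌉₊ : ℕ) : ℝ) * (Fintype.card D : ℝ) ^ Fintype.card S <
        Fintype.card Fam := by exact_mod_cast v3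
    have h7 := (div_le_iff₀ hη).1 (Nat.le_ceil ((Module.finrank ℂ V : ℝ) / η))
    have h8 := mul_le_mul_of_nonneg_left h7
      (show (0 : ℝ) ≤ (Fintype.card D : ℝ) ^ Fintype.card S by positivity)
    nlinarith [mul_lt_mul_of_pos_right h6 hη]
  choose f hf using ex
  refine ⟨LinearMap.range T, fun σ e => W σ (f σ e), inferInstance, ?_, ?_, fun σ e => WG σ _, hf,
    fun e => ⟨∑ i, (∏ τ, v (f τ (e τ)) (i τ)) • s i, ?_, ?_, fun σ a ha => ?_⟩⟩
  · rintro _ ⟨θ, rfl⟩
    rw [hT, map_sum]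
    exact Finset.sum_congr rfl fun i _ => by rw [← mul_apply_eq_comp, (s1 i).2.2.1]
  · rintro _ ⟨θ, rfl⟩ b hb
    rw [hT, sum_inner]
    exact Finset.sum_eq_zero fun i _ => (s1 i).2.2.2.1 _ (θ i).2 b hb
  · exact sum_mem fun i _ => smul_mem' _ _ (s1 i).1
  · rw [star_sum, Finset.sum_mul, ← s3]
    refine Finset.sum_congr rfl fun i _ => ?_
    rw [Finset.mul_sum, Finset.sum_eq_single i (fun j _ hj => ?_) (by simp)]
    · rw [star_smul, (s1 i).2.1, smul_mul_smul_comm, Complex.star_def, map_prod,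
        ← Finset.prod_mul_distrib]
      simp only [vv, Finset.prod_const_one, one_smul]
    · rw [star_smul, (s1 i).2.1, smul_mul_smul_comm, s2 i j hj.symm, smul_zero]
  · refine ⟨fun i => (∏ τ ∈ Finset.univ.erase σ, v (f τ (e τ)) (i τ)) • ⟨a, ha⟩,
      fun i d => ?_, ?_⟩
    · beta_reduce
      rw [Finset.prod_congr rfl fun τ hτ => by
        rw [Function.update_of_ne (Finset.ne_of_mem_erase hτ)]]
    · simp only [L, hT, smul_smul, sum_apply, smul_apply, Submodule.coe_smul, map_smul]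
      refine Finset.sum_congr rfl fun i _ => ?_
      rw [Finset.mul_prod_erase Finset.univ (fun τ => v (f τ (e τ)) (i τ)) (Finset.mem_univ σ)]

end Pool.Agent.Lib.MP_b8e63c_lc
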