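import Pool.Agent.Lib.MP_b8e63c_lc.Defs

/-! Exact Lyapunov partitions in the commutant of an algebra without minimal projections. -/

open scoped InnerProductSpace ComplexOrder ComplexConjugate
open Set

noncomputable section

namespace Pool.Agent.Lib.MP_b8e63c_lc

variable {H : Type*} [NormedAddCommGroup H] [InnerProductSpace ℂ H] [CompleteSpace H]

/-- The projection onto the closure of a subspace. -/
def pr (W : Submodule ℂ H) : H →L[ℂ] H := W.topologicalClosure.starProjection

theorem pr_proj (W : Submodule ℂ H) : IsStarProjection (pr W) := isStarProjection_starProjection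

theorem pr_mem (W : Submodule ℂ H) (x : H) : pr W x ∈ closure (W : Set H) :=
  W.topologicalClosure.starProjection_apply_mem x

theorem pr_self {W : Submodule ℂ H} {x : H} (h : x ∈ closure (W : Set H)) : pr W x = x :=
  Submodule.starProjection_eq_self_iff.2 h

theorem pr_inner (W : Submodule ℂ H) (x : H) {w : H} (h : w ∈ closure (W : Set H)) :
    ⟪x - pr W x, w⟫_ℂ = 0 := W.topologicalClosure.starProjection_inner_eq_zero x w h

theorem inner_star (T : H →L[ℂ] H) (a b : H) : ⟪star T a, b⟫_ℂ = ⟪a, T b⟫_ℂ :=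
  ContinuousLinearMap.adjoint_inner_left T b a

theorem inner_sa {T : H →L[ℂ] H} (h : star T = T) (a b : H) : ⟪T a, b⟫_ℂ = ⟪a, T b⟫_ℂ := by
  rw [← inner_star, h]

theorem smul_mem' (M : VonNeumannAlgebra H) (c : ℂ) {x : H →L[ℂ] H} (h : x ∈ M) : c • x ∈ M :=
  M.toStarSubalgebra.smul_mem h c

/-- `T` has zero compression to `V`. -/
def Kill (V : Submodule ℂ H) (T : H →L[ℂ] H) : Prop := ∀ a ∈ V, ∀ b ∈ V, ⟪T a, b⟫_ℂ = 0

variable {M : VonNeumannAlgebra H} {z : H →L[ℂ] H}

/-- The space `c M' c ξ` is not finite-dimensional. -/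
theorem not_finite (hM : NoMinimalBelow M z) (hz : z ∈ M) (hzs : star z = z) {c : H →L[ℂ] H}
    (hc : c ∈ M.commutant) (hcs : star c = c) (hcz : z * c = c) {ξ : H} (hξ : c ξ ≠ 0)
    (E : Submodule ℂ H) [FiniteDimensional ℂ E] (hE : ∀ y ∈ M.commutant, c (y (c ξ)) ∈ E)
    (hE' : ∀ v ∈ E, ∃ y ∈ M.commutant, c (y (c ξ)) = v) : False := by
  have com : ∀ g ∈ M, ∀ y ∈ M.commutant, ∀ v, g (y v) = y (g v) := fun g hg y hy v =>
    congrArg (fun T : H →L[ℂ] H => T v) (VonNeumannAlgebra.mem_commutant_iff.1 hy g hg)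
  let L : Submodule ℂ H :=
    { carrier := {v | ∃ y ∈ M.commutant, y (c ξ) = v}
      add_mem' := by
        rintro _ _ ⟨y, hy, rfl⟩ ⟨y', hy', rfl⟩
        exact ⟨y + y', add_mem hy hy', rfl⟩
      zero_mem' := ⟨0, zero_mem _, rfl⟩
      smul_mem' := by
        rintro a _ ⟨y, hy, rfl⟩
        exact ⟨a • y, smul_mem' _ a hy, rfl⟩ }
  have hf := pr_proj L
  have hfM : pr L ∈ M := by
    refine (VonNeumannAlgebra.IsStarProjection.mem_iff hf M).2 fun y hy => ?_
    have : (pr L).range = L.topologicalClosure := Submodule.range_starProjection _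
    rw [this]
    intro v hv
    refine map_mem_closure y.continuous hv ?_
    rintro _ ⟨y', hy', rfl⟩
    exact ⟨y * y', mul_mem hy hy', rfl⟩
  have hcξ : c ξ ∈ closure (L : Set H) := subset_closure ⟨1, one_mem _, rfl⟩
  have hzf : z * pr L = pr L := by
    ext v
    have : closure (L : Set H) ⊆ {w | z w = w} := by
      refine closure_minimal ?_ (isClosed_eq z.continuous continuous_id)
      rintro _ ⟨y, hy, rfl⟩
      show z (y (c ξ)) = y (c ξ)
      rw [com z hz y hy, show z (c ξ) = (z * c) ξ from rfl, hcz]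
    exact this (pr_mem L v)
  have hfz : pr L * z = pr L := by
    have := congrArg star hzf
    rwa [star_mul, hzs, hf.isSelfAdjoint.star_eq] at this
  have hcL : ∀ v ∈ closure (L : Set H), c v ∈ E := fun v hv => by
    have : c v ∈ closure (E : Set H) := by
      refine map_mem_closure c.continuous hv ?_
      rintro _ ⟨y, hy, rfl⟩
      exact hE y hy
    rwa [E.closed_of_finiteDimensional.closure_eq] at this
  have inv : ∀ g ∈ M, IsStarProjection g → g * pr L = g → ∀ v ∈ E, g v ∈ E := by
    intro g hg hgp hgf v hv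
    obtain ⟨y, hy, rfl⟩ := hE' v hv
    have h1 : pr L * g = g := by
      have := congrArg star hgf
      rwa [star_mul, hgp.isSelfAdjoint.star_eq, hf.isSelfAdjoint.star_eq] at this
    rw [com g hg c hc, ← h1]
    exact hcL _ (pr_mem L _)
  have nz : ∀ g ∈ M, IsStarProjection g → g * pr L = g → g (c (c ξ)) = 0 → g = 0 := by
    intro g hg hgp hgf h0
    have h1 : g (c ξ) = 0 := by
      have h2 : ⟪g (c ξ), g (c ξ)⟫_ℂ = 0 := by
        rw [inner_sa hgp.isSelfAdjoint.star_eq, show g (g (c ξ)) = (g * g) (c ξ) from rfl,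
          hgp.isIdempotentElem.eq, inner_sa hcs, ← com g hg c hc, h0, inner_zero_right]
      exact inner_self_eq_zero.1 h2
    have : closure (L : Set H) ⊆ {w | g w = 0} := by
      refine closure_minimal ?_ (isClosed_eq g.continuous continuous_const)
      rintro _ ⟨y, hy, rfl⟩
      show g (y (c ξ)) = 0
      rw [com g hg y hy, h1, map_zero]
    rw [← hgf]
    ext v
    exact this (pr_mem L v)
  have key : ∀ n : ℕ, ∀ g ∈ M, IsStarProjection g → g ≠ 0 → g * pr L = g →
      n ≤ Module.finrank ℂ (E.map (g : H →ₗ[ℂ] H)) := by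
    intro n
    induction n with
    | zero => intros; exact Nat.zero_le _
    | succ n ih =>
      intro g hg hgp hg0 hgf
      obtain ⟨q, hq, hqp, hq0, hqg, hqg'⟩ :=
        hM g hg hgp hg0 (by rw [← hgf, mul_assoc, hfz])
      have hqf : q * pr L = q := by rw [← hqg', mul_assoc, hgf]
      have hgq : g * q = q := by
        have := congrArg star hqg'
        rwa [star_mul, hgp.isSelfAdjoint.star_eq, hqp.isSelfAdjoint.star_eq] at this
      have hr : IsStarProjection (g - q) := hqp.sub_of_mul_eq_left hgp hqg'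
      have hrf : (g - q) * pr L = g - q := by rw [sub_mul, hgf, hqf]
      have hrM : g - q ∈ M := sub_mem hg hq
      refine Nat.succ_le_of_lt ((ih q hq hqp hq0 hqf).trans_lt
        (Submodule.finrank_lt_finrank_of_lt (lt_of_le_of_ne ?_ fun he => ?_)))
      · rintro _ ⟨v, hv, rfl⟩
        exact ⟨q v, inv q hq hqp hqf v hv, congrArg (fun T : H →L[ℂ] H => T v) hgq⟩
      · have hw : c (c ξ) ∈ E := hE 1 (one_mem _)
        have h1 : (g - q) (c (c ξ)) ∈ E.map (g : H →ₗ[ℂ] H) := by
          refine ⟨_, inv _ hrM hr hrf _ hw, ?_⟩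
          show (g * (g - q)) _ = _
          rw [mul_sub, hgp.isIdempotentElem.eq, hgq]
        rw [← he] at h1
        obtain ⟨v, -, hv⟩ := h1
        refine hqg (sub_eq_zero.1 (nz _ hrM hr hrf ?_)).symm
        have h2 : (g - q) * q = 0 := by rw [sub_mul, hgq, hqp.isIdempotentElem.eq, sub_self]
        rw [← hr.isIdempotentElem.eq]
        show (g - q) ((g - q) _) = 0
        rw [← hv]
        exact congrArg (fun T : H →L[ℂ] H => T v) h2
  have h0 : pr L ≠ 0 := fun h => hξ (by rw [← pr_self hcξ, h]; rfl)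
  exact Nat.not_succ_le_self _ (key _ _ hfM hf h0 hf.isIdempotentElem.eq)

theorem exists_perturb (hM : NoMinimalBelow M z) (hz : z ∈ M) (hzs : star z = z) {c : H →L[ℂ] H}
    (hc : c ∈ M.commutant) (hcs : star c = c) (hcz : z * c = c) (hc0 : c ≠ 0)
    (V : Submodule ℂ H) [FiniteDimensional ℂ V] :
    ∃ y ∈ M.commutant, star y = y ∧ c * y * c ≠ 0 ∧ Kill V (c * y * c) := by
  by_contra hno
  push Not at hno
  obtain ⟨ξ, hξ⟩ : ∃ ξ, c ξ ≠ 0 := by
    by_contra h
    push Not at h
    exact hc0 (ContinuousLinearMap.ext h)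
  let N : Submodule ℂ (H →L[ℂ] H) := M.commutant.toStarSubalgebra.toSubalgebra.toSubmodule
  let Φ : N →ₗ[ℂ] (V →L[ℂ] V) :=
    { toFun := fun y => V.orthogonalProjectionOnto ∘L (c * y.1 * c) ∘L V.subtypeL
      map_add' := fun y y' => by ext v; simp
      map_smul' := fun a y => by ext v; simp }
  let Ψ : N →ₗ[ℂ] H :=
    { toFun := fun y => c (y.1 (c ξ))
      map_add' := fun y y' => by simp
      map_smul' := fun a y => by simp }
  have hk : LinearMap.ker Φ ≤ LinearMap.ker Ψ := by
    intro y hy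
    have hyN : y.1 ∈ M.commutant := y.2
    have k1 : Kill V (c * y.1 * c) := fun a ha b hb => by
      have : V.orthogonalProjectionOnto ((c * y.1 * c) a) = 0 :=
        congrArg (fun T : V →L[ℂ] V => T ⟨a, ha⟩) (LinearMap.mem_ker.1 hy)
      exact Submodule.inner_left_of_mem_orthogonal hb
        (Submodule.orthogonalProjectionOnto_eq_zero_iff.1 this)
    have k2 : Kill V (c * star y.1 * c) := fun a ha b hb => by
      have : c * star y.1 * c = star (c * y.1 * c) := by simp [star_mul, hcs, mul_assoc]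
      rw [this, inner_star, ← inner_conj_symm, k1 b hb a ha, map_zero]
    have e1 : c * (y.1 + star y.1) * c = 0 := by
      by_contra h
      refine hno _ (add_mem hyN (star_mem hyN)) (by simp [add_comm]) h fun a ha b hb => ?_
      rw [mul_add, add_mul, add_apply, inner_add_left, k1 a ha b hb,
        k2 a ha b hb, add_zero]
    have e2 : c * (Complex.I • (y.1 - star y.1)) * c = 0 := by
      by_contra h
      refine hno _ (smul_mem' _ _ (sub_mem hyN (star_mem hyN))) ?_ h fun a ha b hb => ?_
      · rw [star_smul, star_sub, star_star, Complex.star_def, Complex.conj_I, neg_smul,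
          ← smul_neg, neg_sub]
      · rw [mul_smul_comm, smul_mul_assoc, mul_sub, sub_mul, smul_apply,
          inner_smul_left, sub_apply, inner_sub_left, k1 a ha b hb,
          k2 a ha b hb, sub_zero, mul_zero]
    rw [mul_smul_comm, smul_mul_assoc, smul_eq_zero_iff_right Complex.I_ne_zero, mul_sub,
      sub_mul, sub_eq_zero] at e2
    rw [mul_add, add_mul, ← e2, ← two_smul ℂ, smul_eq_zero_iff_right two_ne_zero] at e1
    exact congrArg (fun T : H →L[ℂ] H => T ξ) e1
  have : Module.Finite ℂ (N ⧸ LinearMap.ker Φ) := Module.Finite.equiv Φ.quotKerEquivRange.symm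
  have : FiniteDimensional ℂ (LinearMap.range Ψ) := by
    rw [← Submodule.range_liftQ _ Ψ hk]
    infer_instance
  refine not_finite hM hz hzs hc hcs hcz hξ (LinearMap.range Ψ) (fun y hy => ⟨⟨y, hy⟩, rfl⟩) ?_
  rintro _ ⟨y, rfl⟩
  exact ⟨y.1, y.2, rfl⟩

end Pool.Agent.Lib.MP_b8e63c_lc
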