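import Mathlib

/-! The Marcus-Spielman-Srivastava argument for two classes, first part: elementary lemmas. -/

open scoped ComplexConjugate
open Set Filter Topology

namespace Pool.Agent.Lib.MP_b8e63c_lc.Mss

theorem quad_im {a b c : ℂ} (h : ∀ w : ℂ, 0 ≤ w.im → a * (w * w) + b * w + c ≠ 0) :
    b = 0 ∨ (b * conj c).im < 0 := by
  have root : ∀ w : ℂ, a * (w * w) + b * w + c = 0 → w.im < 0 := fun w hw =>
    lt_of_not_ge fun h' => h w h' hw
  by_cases ha : a = 0
  · refine or_iff_not_imp_left.2 fun hb => ?_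
    have h1 := root (-(c / b)) (by rw [ha]; field_simp; ring)
    have h2 : b * conj c = (Complex.normSq b : ℂ) * conj (c / b) := by
      rw [← Complex.mul_conj, mul_assoc, ← map_mul, mul_div_cancel₀ _ hb]
    rw [h2, Complex.im_ofReal_mul, Complex.conj_im]
    exact mul_neg_of_pos_of_neg (Complex.normSq_pos.2 hb) h1
  · right
    obtain ⟨r, hr⟩ := exists_quadratic_eq_zero ha (IsAlgClosed.exists_eq_mul_self (discrim a b c))
    obtain ⟨s, hs⟩ : ∃ s, b = -(a * (r + s)) := ⟨-b / a - r, by field_simp; ring⟩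
    have hc : c = a * (r * s) := by rw [hs] at hr; linear_combination hr
    have h1 := root r hr
    have h2 := root s (by rw [hs, hc]; ring)
    have h3 : b * conj c = -((Complex.normSq a : ℂ) *
        ((Complex.normSq r : ℂ) * conj s + (Complex.normSq s : ℂ) * conj r)) := by
      simp only [hs, hc, ← Complex.mul_conj, map_mul]
      ring
    have hr0 : r ≠ 0 := fun h0 => by simp [h0] at h1
    have hs0 : s ≠ 0 := fun h0 => by simp [h0] at h2
    rw [h3, Complex.neg_im, Complex.im_ofReal_mul, Complex.add_im, Complex.im_ofReal_mul,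
      Complex.im_ofReal_mul, Complex.conj_im, Complex.conj_im, neg_lt_zero]
    exact mul_pos (Complex.normSq_pos.2 ha) (add_pos
      (mul_pos (Complex.normSq_pos.2 hr0) (neg_pos.2 h2))
      (mul_pos (Complex.normSq_pos.2 hs0) (neg_pos.2 h1)))

theorem delta {a b c a' b' c' : ℝ} (h : ∀ w : ℂ, 0 < w.im →
    (((a' : ℂ) * (w * w) + b' * w + c') * conj ((a : ℂ) * (w * w) + b * w + c)).im ≤ 0) (y : ℝ) :
    0 ≤ (a * b' - a' * b) * (y * y) + 2 * (a * c' - a' * c) * y + (b * c' - b' * c) := by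
  have h1 : ∀ τ : ℝ, 0 < τ → 0 ≤ (a * b' - a' * b) * (y * y) + 2 * (a * c' - a' * c) * y +
      (b * c' - b' * c) + τ ^ 2 * (a * b' - a' * b) := fun τ hτ => by
    have := h ⟨y, τ⟩ hτ
    simp only [Complex.mul_im, Complex.mul_re, Complex.add_re, Complex.add_im, Complex.conj_re,
      Complex.conj_im, Complex.ofReal_re, Complex.ofReal_im] at this
    refine nonneg_of_mul_nonneg_right ?_ hτ
    linarith
  have h2 : Tendsto (fun τ : ℝ => (a * b' - a' * b) * (y * y) + 2 * (a * c' - a' * c) * y +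
      (b * c' - b' * c) + τ ^ 2 * (a * b' - a' * b)) (𝓝[>] 0) (𝓝 _) :=
    (Continuous.tendsto (by fun_prop) 0).mono_left nhdsWithin_le_nhds
  simpa using ge_of_tendsto h2 (eventually_nhdsWithin_of_forall h1)

theorem barrier {a b c a' b' c' : ℝ} (h1 : ∀ w, 0 ≤ w → 0 < a * (w * w) + b * w + c)
    (h2 : ∀ y, 0 ≤ (a * (2 * a) - 0 * b) * (y * y) + 2 * (a * b - 0 * c) * y + (b * b - 2 * a * c))
    (h3 : ∀ y, 0 ≤ (a * b' - a' * b) * (y * y) + 2 * (a * c' - a' * c) * y + (b * c' - b' * c))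
    (h4 : b ≤ 2 / 3 * c) (h5 : c' ≤ 2 / 3 * c) :
    0 < c + b / 2 - 3 / 4 * a ∧ c' + b' / 2 - 3 / 4 * a' ≤ 2 / 3 * (c + b / 2 - 3 / 4 * a) := by
  have hc : 0 < c := by simpa using h1 0 le_rfl
  have ha : 0 ≤ a := by
    by_contra ha
    have ha' : 0 < -a := by linarith
    obtain ⟨u, hu⟩ : ∃ u, u = (|b| + c) / -a := ⟨_, rfl⟩
    have hu0 : 0 ≤ u := by rw [hu]; positivity
    have hu1 : u * -a = |b| + c := by rw [hu]; exact div_mul_cancel₀ _ ha'.ne'
    have := h1 (u + 1) (by linarith)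
    nlinarith [le_abs_self b, mul_nonneg hu0 hc.le, mul_nonneg hu0 ha'.le,
      mul_le_mul_of_nonneg_right (le_abs_self b) (show 0 ≤ u + 1 by linarith)]
  have hb : 0 ≤ b := by
    by_contra hb
    have hb' : 0 < -b := by linarith
    rcases ha.eq_or_lt with h0 | h0
    · have := h1 (c / -b) (by positivity)
      rw [← h0, zero_mul, zero_add, mul_div_assoc', div_neg, mul_div_cancel_left₀ _ (by linarith)]
        at this
      linarith
    · obtain ⟨u, hu⟩ : ∃ u, u = -b / (2 * a) := ⟨_, rfl⟩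
      have hu1 : u * (2 * a) = -b := by rw [hu]; exact div_mul_cancel₀ _ (by positivity)
      have e1 := mul_pos h0 (h1 u (by rw [hu]; positivity))
      have e2 := h2 u
      have e3 : b = -(u * (2 * a)) := by linarith
      rw [e3] at e1 e2
      nlinarith
  have e1 : 2 * a * c ≤ b * b := by simpa using h2 0
  have e2 : a ≤ b / 3 := by
    refine le_of_mul_le_mul_right ?_ hc
    nlinarith
  have g1 : 0 < c + b / 2 - 3 / 4 * a := by linarith
  refine ⟨g1, ?_⟩
  have hC : 0 ≤ b * c' - b' * c := by simpa using h3 0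
  have hD := discrim_le_zero h3
  rw [discrim] at hD
  have key : a * c' - a' * c ≤ 2 / 3 * (b * c' - b' * c) := by
    obtain ⟨B, hB⟩ : ∃ B, B = a * c' - a' * c := ⟨_, rfl⟩
    obtain ⟨C, hC'⟩ : ∃ C, C = b * c' - b' * c := ⟨_, rfl⟩
    obtain ⟨A, hA⟩ : ∃ A, A = a * b' - a' * b := ⟨_, rfl⟩
    have id : b * B = c * A + a * C := by rw [hA, hB, hC']; ring
    rw [← hA, ← hB, ← hC'] at hD
    rw [← hC'] at hC
    rw [← hB, ← hC']
    by_contra hn
    have hn' : 2 / 3 * C < B := not_le.1 hn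
    have hB0 : 0 < B := by linarith
    have f1 : c * (B * B) ≤ c * (A * C) := mul_le_mul_of_nonneg_left (by nlinarith) hc.le
    have f2 : c * A * C ≤ b * B * C :=
      mul_le_mul_of_nonneg_right (by nlinarith [mul_nonneg ha hC]) hC
    have f3 : b * (B * C) ≤ 2 / 3 * c * (B * C) :=
      mul_le_mul_of_nonneg_right h4 (mul_nonneg hB0.le hC)
    have f4 := mul_lt_mul_of_pos_left hn' (mul_pos hc hB0)
    nlinarith
  refine le_of_mul_le_mul_left ?_ hc
  nlinarith [mul_le_mul_of_nonneg_right h5 g1.le]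

theorem inter {P Q : ℝ → ℝ} (hP : Continuous P) (hQ : Continuous Q) {x₀ : ℝ}
    (hbig : ∀ᶠ x in atTop, 0 < P x ∧ 0 < Q x)
    (hmono : ∀ t ∈ Icc (0 : ℝ) 1, (∀ x, x₀ ≤ x → 0 < t * P x + (1 - t) * Q x) →
      ∀ x, x₀ ≤ x → t * P x₀ + (1 - t) * Q x₀ ≤ t * P x + (1 - t) * Q x)
    (hhalf : ∀ x, x₀ ≤ x → 0 < 1 / 2 * P x + (1 - 1 / 2) * Q x) (h0 : 0 < P x₀) :
    ∀ x, x₀ ≤ x → 0 < P x := by
  obtain ⟨L, hL⟩ := eventually_atTop.1 hbig
  obtain ⟨M, hM⟩ := (isCompact_Icc (a := x₀) (b := L)).exists_bound_of_continuousOn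
    (hP.sub hQ).continuousOn
  let s : Set ℝ := {t | ∀ x, x₀ ≤ x → t * P x₀ + (1 - t) * Q x₀ ≤ t * P x + (1 - t) * Q x}
  have hs : IsClosed s := by
    simp only [s, ofPred_forall]
    exact isClosed_iInter fun _ => isClosed_iInter fun _ => isClosed_le (by fun_prop) (by fun_prop)
  have key : Icc (1 / 2 : ℝ) 1 ⊆ s := by
    refine (hs.inter isClosed_Icc).Icc_subset_of_forall_exists_gt
      (hmono _ ⟨by norm_num, by norm_num⟩ hhalf) ?_
    rintro t ⟨ht, ht1, ht2⟩ y hy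
    have hm : 0 < t * P x₀ + (1 - t) * Q x₀ := by
      nlinarith [mul_pos (sub_pos.2 ht2) (hhalf x₀ le_rfl), mul_nonneg (sub_nonneg.2 ht1) h0.le]
    obtain ⟨η, hη⟩ : ∃ η, η = (t * P x₀ + (1 - t) * Q x₀) / (|M| + 1) := ⟨_, rfl⟩
    have hη0 : 0 < η := by rw [hη]; positivity
    have hη1 : η * (|M| + 1) = t * P x₀ + (1 - t) * Q x₀ := by
      rw [hη]; exact div_mul_cancel₀ _ (by positivity)
    obtain ⟨u, hu1, hu2⟩ := exists_between (lt_min (lt_min hy ht2) (lt_add_of_pos_right t hη0))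
    simp only [lt_min_iff] at hu2
    refine ⟨u, hmono u ⟨by linarith, hu2.1.2.le⟩ fun x hx => ?_, hu1, hu2.1.1.le⟩
    rcases le_total x L with h | h
    · have h1 := (abs_le.1 ((hM x ⟨hx, h⟩).trans (le_abs_self M))).1
      have h2 := ht x hx
      simp only [Pi.sub_apply] at h1
      nlinarith [mul_le_mul_of_nonneg_left h1 (sub_pos.2 hu1).le, abs_nonneg M,
        mul_le_mul_of_nonneg_right (show u - t ≤ η by linarith [hu2.2]) (abs_nonneg M)]
    · exact add_pos (mul_pos (by linarith) (hL x h).1) (mul_pos (sub_pos.2 hu2.1.2) (hL x h).2)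
  intro x hx
  have := key ⟨by norm_num, le_rfl⟩ x hx
  linarith

theorem prod_mono {x y : ℂ} (s : Multiset ℂ) (h : ∀ ρ ∈ s, ‖x - ρ‖ ≤ ‖y - ρ‖) :
    ‖(s.map fun ρ => x - ρ).prod‖ ≤ ‖(s.map fun ρ => y - ρ).prod‖ := by
  induction s using Multiset.induction_on with
  | empty => simp
  | cons ρ s ih =>
    simp only [Multiset.map_cons, Multiset.prod_cons, norm_mul]
    exact mul_le_mul (h ρ (Multiset.mem_cons_self _ _))
      (ih fun r hr => h r (Multiset.mem_cons_of_mem hr)) (norm_nonneg _) (norm_nonneg _)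

end Pool.Agent.Lib.MP_b8e63c_lc.Mss
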