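import Pool.Agent.Lib.MP_b8e63c_lc.MssA

/-! The Marcus-Spielman-Srivastava argument for two classes, second part: matrices. -/

open scoped ComplexConjugate ComplexOrder Matrix
open Set Filter Topology Matrix

noncomputable section

namespace Pool.Agent.Lib.MP_b8e63c_lc.Mss

variable {ι : Type} [Fintype ι] [DecidableEq ι]

/-- The rank one matrix of a vector. -/
def rk (v : ι → ℂ) : Matrix ι ι ℂ := vecMulVec v (star v)

/-- The quadratic form of a matrix. -/
def qf (X : Matrix ι ι ℂ) (y : ι → ℂ) : ℂ := star y ⬝ᵥ X *ᵥ y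

omit [DecidableEq ι] in
theorem rk_psd (v : ι → ℂ) : (rk v).PosSemidef := posSemidef_vecMulVec_self_star v

omit [DecidableEq ι] in
theorem qf_add (X Y : Matrix ι ι ℂ) (y : ι → ℂ) : qf (X + Y) y = qf X y + qf Y y := by
  simp [qf, add_mulVec]

omit [DecidableEq ι] in
theorem qf_smul (c : ℂ) (X : Matrix ι ι ℂ) (y : ι → ℂ) : qf (c • X) y = c * qf X y := by
  simp [qf, smul_mulVec]

omit [DecidableEq ι] in
theorem qf_psd {X : Matrix ι ι ℂ} (h : X.PosSemidef) (y : ι → ℂ) :
    0 ≤ (qf X y).re ∧ 0 = (qf X y).im := Complex.nonneg_iff.1 (h.dotProduct_mulVec_nonneg y)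

omit [DecidableEq ι] in
theorem qf_herm {X : Matrix ι ι ℂ} (h : X.IsHermitian) (y : ι → ℂ) : (qf X y).im = 0 :=
  h.im_star_dotProduct_mulVec_self y

theorem qf_one {y : ι → ℂ} (hy : y ≠ 0) : 0 < (qf 1 y).re :=
  (Complex.pos_iff.1 (PosDef.one.dotProduct_mulVec_pos hy)).1

/-- The properties of the determinant that survive averaging over rank one updates. -/
structure Good (g : Matrix ι ι ℂ → ℂ) : Prop where
  aff : ∀ X v (s : ℂ), g (X + s • rk v) = g X + s * (g (X + rk v) - g X)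
  nz : ∀ X, (∀ y, y ≠ 0 → 0 < (qf X y).im) → g X ≠ 0
  cj : ∀ X, g Xᴴ = conj (g X)
  poly : ∀ X, ∃ p : Polynomial ℂ, ∀ x : ℂ, g (X + x • 1) = p.eval x
  big : ∀ X, ∀ᶠ x : ℝ in atTop, 0 < (g (X + (x : ℂ) • 1)).re

theorem det_aff (X : Matrix ι ι ℂ) (u w : ι → ℂ) :
    ∃ α β : ℂ, ∀ s : ℂ, (X + s • vecMulVec u w).det = α + s * β := by
  let N : Matrix (ι ⊕ Unit) (ι ⊕ Unit) ℂ := fromBlocks X (replicateCol Unit u) 0 1
  refine ⟨(N.updateRow (Sum.inr ()) (Sum.elim 0 1)).det,
    (N.updateRow (Sum.inr ()) (Sum.elim (-w) 0)).det, fun s => ?_⟩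
  rw [← det_updateRow_smul, ← det_updateRow_add]
  have : N.updateRow (Sum.inr ()) (Sum.elim (0 : ι → ℂ) (1 : Unit → ℂ) + s • Sum.elim (-w) 0) =
      fromBlocks X (replicateCol Unit u) (-(s • replicateRow Unit w)) 1 := by
    ext (i | i) (j | j) <;> simp [N, updateRow_apply]
  rw [this, det_fromBlocks_one₂₂, Matrix.mul_neg, sub_neg_eq_add, Matrix.mul_smul,
    vecMulVec_eq Unit]

theorem good_det : Good (fun X : Matrix ι ι ℂ => X.det) where
  aff X v s := by
    obtain ⟨α, β, h⟩ := det_aff X v (star v)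
    have h0 := h 0
    have h1 := h 1
    rw [zero_smul, add_zero] at h0
    rw [one_smul] at h1
    rw [rk, h, h1, h0]
    ring
  nz X h h0 := by
    obtain ⟨y, hy, hy0⟩ := exists_mulVec_eq_zero_iff.2 h0
    have := h y hy
    simp [qf, hy0] at this
  cj X := det_conjTranspose X
  poly X := ⟨(-X).charpoly, fun x => by
    rw [eval_charpoly, sub_neg_eq_add, add_comm, scalar_apply, smul_one_eq_diagonal]⟩
  big X := by
    have h1 : Continuous fun ε : ℝ => (((ε : ℂ) • X + 1).det).re := by fun_prop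
    have h2 := (h1.tendsto 0).comp tendsto_inv_atTop_zero
    have h3 := h2.eventually (lt_mem_nhds (a := 0) (by simp))
    filter_upwards [h3, eventually_gt_atTop 0] with x hx hx0
    have h4 : X + (x : ℂ) • 1 = (x : ℂ) • (((x⁻¹ : ℝ) : ℂ) • X + 1) := by
      rw [smul_add, smul_smul, ← Complex.ofReal_mul, mul_inv_cancel₀ hx0.ne', Complex.ofReal_one,
        one_smul]
    rw [h4, det_smul, ← Complex.ofReal_pow, Complex.re_ofReal_mul]
    exact mul_pos (pow_pos hx0 _) hx

variable {g : Matrix ι ι ℂ → ℂ}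

theorem Good.two (hg : Good g) (X : Matrix ι ι ℂ) (u v : ι → ℂ) (s t : ℂ) :
    g (X + s • rk u + t • rk v) = g X + s * (g (X + rk u) - g X) + t * (g (X + rk v) - g X) +
      s * t * (g (X + rk v + rk u) - g (X + rk v) - g (X + rk u) + g X) := by
  rw [hg.aff, add_right_comm X _ (rk v), hg.aff (X + rk v), hg.aff X]
  ring

theorem Good.real (hg : Good g) {X : Matrix ι ι ℂ} (h : X.IsHermitian) :
    ((g X).re : ℂ) = g X := by
  have := hg.cj X
  rw [h.eq] at this
  exact Complex.conj_eq_iff_re.1 this.symm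

theorem Good.cont (hg : Good g) (X : Matrix ι ι ℂ) : Continuous fun x : ℂ => g (X + x • 1) := by
  obtain ⟨p, hp⟩ := hg.poly X
  simp only [hp]
  exact p.continuous

theorem Good.dir (hg : Good g) {X : Matrix ι ι ℂ} (hX : ∀ y, y ≠ 0 → 0 < (qf X y).im)
    (u v : ι → ℂ) {t : ℝ} (h0 : 0 ≤ t) (h1 : t ≤ 1) :
    t * (g (X + rk u) - g X) + (1 - t) * (g (X + rk v) - g X) = 0 ∨
      ((t * (g (X + rk u) - g X) + (1 - t) * (g (X + rk v) - g X)) * conj (g X)).im < 0 := by
  refine quad_im (a := t * (1 - t) * (g (X + rk v + rk u) - g (X + rk v) - g (X + rk u) + g X))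
    fun w hw => ?_
  have := hg.nz (X + (w * t) • rk u + (w * ((1 - t : ℝ) : ℂ)) • rk v) fun y hy => by
    have e1 := qf_psd (rk_psd u) y
    have e2 := qf_psd (rk_psd v) y
    rw [qf_add, qf_add, qf_smul, qf_smul]
    simp only [Complex.add_im, Complex.mul_im, Complex.ofReal_re, Complex.ofReal_im, ← e1.2,
      ← e2.2, mul_zero, zero_add]
    exact add_pos_of_pos_of_nonneg (add_pos_of_pos_of_nonneg (hX y hy)
      (mul_nonneg (mul_nonneg hw h0) e1.1)) (mul_nonneg (mul_nonneg hw (sub_nonneg.2 h1)) e2.1)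
  rw [hg.two] at this
  convert this using 1
  push_cast
  ring

/-- The average over a random rank one update. -/
def step (g : Matrix ι ι ℂ → ℂ) (u v : ι → ℂ) (t : ℝ) (X : Matrix ι ι ℂ) : ℂ :=
  t * g (X - rk u) + (1 - t) * g (X - rk v)

theorem Good.sub (hg : Good g) (X : Matrix ι ι ℂ) (u : ι → ℂ) :
    g (X - rk u) = g X - (g (X + rk u) - g X) := by
  have := hg.aff X u (-1)
  rw [neg_smul, one_smul, ← sub_eq_add_neg] at this
  rw [this]
  ring

theorem Good.step (hg : Good g) (u v : ι → ℂ) {t : ℝ} (h0 : 0 ≤ t) (h1 : t ≤ 1) :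
    Good (step g u v t) where
  aff X w s := by
    simp only [Mss.step, add_sub_right_comm, hg.aff _ w s]
    ring
  nz X hX h := by
    have h2 := hg.nz X hX
    have h3 : t * (g (X + rk u) - g X) + (1 - t) * (g (X + rk v) - g X) = g X := by
      rw [Mss.step, hg.sub, hg.sub] at h
      linear_combination -h
    have := hg.dir hX u v h0 h1
    rw [h3, Complex.mul_conj, Complex.ofReal_im] at this
    exact this.elim h2 (lt_irrefl _)
  cj X := by
    simp only [Mss.step, map_add, map_mul, map_sub, map_one, Complex.conj_ofReal, ← hg.cj,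
      conjTranspose_sub, (rk_psd _).1.eq]
  poly X := by
    obtain ⟨p, hp⟩ := hg.poly (X - rk u)
    obtain ⟨q, hq⟩ := hg.poly (X - rk v)
    refine ⟨Polynomial.C (t : ℂ) * p + Polynomial.C (1 - (t : ℂ)) * q, fun x => ?_⟩
    simp only [Mss.step, add_sub_right_comm, hp, hq, Polynomial.eval_add, Polynomial.eval_mul,
      Polynomial.eval_C]
  big X := by
    filter_upwards [hg.big (X - rk u), hg.big (X - rk v)] with x e1 e2
    rw [Mss.step, add_sub_right_comm, add_sub_right_comm, ← Complex.ofReal_one,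
      ← Complex.ofReal_sub, Complex.add_re, Complex.re_ofReal_mul, Complex.re_ofReal_mul]
    rcases h0.eq_or_lt with h | h
    · simpa [← h] using e2
    · exact add_pos_of_pos_of_nonneg (mul_pos h e1) (mul_nonneg (sub_nonneg.2 h1) e2.le)

/-- The derivative in the direction of the mean of two rank one matrices. -/
def der (g : Matrix ι ι ℂ → ℂ) (u v : ι → ℂ) (X : Matrix ι ι ℂ) : ℂ :=
  (g (X + rk u) + g (X + rk v)) / 2 - g X

/-- The mean of two rank one matrices. -/
def av (u v : ι → ℂ) : Matrix ι ι ℂ := (1 / 2 : ℂ) • rk u + (1 / 2 : ℂ) • rk v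

omit [DecidableEq ι] in
theorem av_psd (u v : ι → ℂ) : (av u v).PosSemidef :=
  ((rk_psd u).smul (by norm_num [Complex.nonneg_iff])).add
    ((rk_psd v).smul (by norm_num [Complex.nonneg_iff]))

theorem Good.ray (hg : Good g) {X : Matrix ι ι ℂ} (hX : ∀ y, 0 ≤ (qf X y).im) (u v : ι → ℂ) :
    (der g u v X * conj (g X)).im ≤ 0 := by
  have hc : Continuous fun τ : ℝ => (der g u v (X + ((τ : ℂ) * Complex.I) • 1) *
      conj (g (X + ((τ : ℂ) * Complex.I) • 1))).im := by
    have e : Continuous fun τ : ℝ => (τ : ℂ) * Complex.I := by fun_prop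
    have e0 := (hg.cont X).comp e
    have e1 := (hg.cont (X + rk u)).comp e
    have e2 := (hg.cont (X + rk v)).comp e
    simp only [der, add_right_comm X _ (rk _)]
    exact Complex.continuous_im.comp ((((e1.add e2).div_const 2).sub e0).mul
      (Complex.continuous_conj.comp e0))
  have h1 := le_of_tendsto ((hc.tendsto 0).mono_left (nhdsWithin_le_nhds (s := Ioi 0))) (b := 0)
    (eventually_nhdsWithin_of_forall fun τ hτ => by
      have := hg.dir (X := X + ((τ : ℂ) * Complex.I) • 1) (fun y hy => by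
        rw [qf_add, qf_smul]
        have e1 := qf_herm isHermitian_one y
        simp only [Complex.add_im, Complex.mul_im, Complex.ofReal_re, Complex.ofReal_im, e1,
          Complex.I_re, Complex.I_im, mul_zero, zero_add, add_zero, mul_one]
        exact add_pos_of_nonneg_of_pos (hX y) (mul_pos hτ (qf_one hy))) u v (t := 1 / 2)
        (by norm_num) (by norm_num)
      have e : ∀ Y, ((1 / 2 : ℝ) : ℂ) * (g (Y + rk u) - g Y) + (1 - ((1 / 2 : ℝ) : ℂ)) *
          (g (Y + rk v) - g Y) = der g u v Y := fun Y => by rw [der]; push_cast; ring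
      rw [e] at this
      rcases this with h | h
      · simp [h]
      · exact h.le)
  simpa using h1

theorem Good.quad (hg : Good g) {X : Matrix ι ι ℂ} (hX : X.IsHermitian) (u v : ι → ℂ) :
    ∃ a b c : ℝ, ∀ w : ℂ, g (X + w • av u v) = a * (w * w) + b * w + c ∧
      der g u v (X + w • av u v) = 0 * (w * w) + 2 * a * w + b := by
  have hu := (rk_psd u).1
  have hv := (rk_psd v).1
  refine ⟨((g (X + rk v + rk u)).re - (g (X + rk v)).re - (g (X + rk u)).re + (g X).re) / 4,
    ((g (X + rk u)).re + (g (X + rk v)).re) / 2 - (g X).re, (g X).re, fun w => ?_⟩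
  have e0 : X + w • av u v = X + (w / 2) • rk u + (w / 2) • rk v := by rw [av]; module
  have e1 : X + w • av u v + rk u = X + (w / 2 + 1) • rk u + (w / 2) • rk v := by rw [av]; module
  have e2 : X + w • av u v + rk v = X + (w / 2) • rk u + (w / 2 + 1) • rk v := by rw [av]; module
  rw [der, e1, e2, e0, hg.two, hg.two, hg.two]
  push_cast
  rw [hg.real hX, hg.real (hX.add hu), hg.real (hX.add hv), hg.real ((hX.add hv).add hu)]
  constructor <;> ring

/-- The barrier invariant. -/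
def Inv {κ : Type*} (s : Set κ) (v : κ → Bool → ι → ℂ) (g : Matrix ι ι ℂ → ℂ)
    (Z : Matrix ι ι ℂ) : Prop :=
  ∀ X, X.IsHermitian → (X - Z).PosSemidef →
    0 < (g X).re ∧ ∀ i ∈ s, (der g (v i false) (v i true) X).re ≤ 2 / 3 * (g X).re

theorem Inv.step {κ : Type*} {s : Set κ} {v : κ → Bool → ι → ℂ} {Z : Matrix ι ι ℂ} (hg : Good g)
    (h : Inv s v g Z) {j : κ} (hj : j ∈ s) :
    Inv s v (step g (v j false) (v j true) (1 / 2))
      (Z + (3 / 2 : ℂ) • av (v j false) (v j true)) := by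
  intro X' hX' hZ
  obtain ⟨A, hA⟩ : ∃ A, A = av (v j false) (v j true) := ⟨_, rfl⟩
  have hAp : A.PosSemidef := hA ▸ av_psd _ _
  have hsm : ∀ w : ℝ, 0 ≤ w → ((w : ℂ) • A).PosSemidef := fun w hw =>
    hAp.smul (Complex.zero_le_real.2 hw)
  have h32 : ((3 / 2 : ℝ) : ℂ) = 3 / 2 := by push_cast; rfl
  obtain ⟨X, rfl⟩ : ∃ X, X' = X + (3 / 2 : ℂ) • A := ⟨X' - (3 / 2 : ℂ) • A, by simp⟩
  rw [← hA, add_sub_add_right_eq_sub] at hZ
  have hX : X.IsHermitian := by
    have := hX'.sub (hsm (3 / 2) (by norm_num)).1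
    rwa [h32, add_sub_cancel_right] at this
  have st : ∀ Y, Mss.step g (v j false) (v j true) (1 / 2) Y =
      g Y - der g (v j false) (v j true) Y := fun Y => by
    rw [Mss.step, hg.sub, hg.sub, der]; push_cast; ring
  have him : ∀ w : ℂ, 0 < w.im → ∀ y, 0 ≤ (qf (X + w • A) y).im := fun w hw y => by
    have e := qf_psd hAp y
    rw [qf_add, qf_smul, Complex.add_im, qf_herm hX, Complex.mul_im, ← e.2]
    simpa using mul_nonneg hw.le e.1
  obtain ⟨a, b, c, e⟩ := hg.quad hX (v j false) (v j true)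
  rw [← hA] at e
  have e0 := e 0
  rw [zero_smul, add_zero] at e0
  have h1 : ∀ w : ℝ, 0 ≤ w → 0 < a * (w * w) + b * w + c := fun w hw => by
    have := (h (X + (w : ℂ) • A) (hX.add (hsm w hw).1)
      (by rw [add_sub_right_comm]; exact hZ.add (hsm w hw))).1
    rw [(e w).1] at this
    exact_mod_cast this
  have h2 := delta (a := a) (b := b) (c := c) (a' := 0) (b' := 2 * a) (c' := b) fun w hw => by
    have := hg.ray (him w hw) (v j false) (v j true)
    rw [(e w).1, (e w).2] at this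
    push_cast
    exact this
  have h4 : b ≤ 2 / 3 * c := by simpa [e0.1, e0.2] using (h X hX hZ).2 j hj
  have val : ∀ (Y : Matrix ι ι ℂ) (a b c : ℝ), (∀ w : ℂ, g (Y + w • A) = a * (w * w) + b * w + c ∧
      der g (v j false) (v j true) (Y + w • A) = 0 * (w * w) + 2 * a * w + b) →
      Mss.step g (v j false) (v j true) (1 / 2) (Y + (3 / 2 : ℂ) • A) =
        ((c + b / 2 - 3 / 4 * a : ℝ) : ℂ) := fun Y a b c e => by
    rw [st, (e _).1, (e _).2]; push_cast; ring
  refine ⟨by rw [val X a b c e, Complex.ofReal_re]; exact (barrier h1 h2 h2 h4 h4).1,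
    fun i hi => ?_⟩
  obtain ⟨a₀, b₀, c₀, f₀⟩ := hg.quad (hX.add (rk_psd (v i false)).1) (v j false) (v j true)
  obtain ⟨a₁, b₁, c₁, f₁⟩ := hg.quad (hX.add (rk_psd (v i true)).1) (v j false) (v j true)
  rw [← hA] at f₀ f₁
  have q : ∀ w : ℂ, der g (v i false) (v i true) (X + w • A) =
      (((a₀ + a₁) / 2 - a : ℝ) : ℂ) * (w * w) + (((b₀ + b₁) / 2 - b : ℝ) : ℂ) * w +
        (((c₀ + c₁) / 2 - c : ℝ) : ℂ) := fun w => by
    rw [der, add_right_comm X, add_right_comm X _ (rk (v i true)), (e w).1, (f₀ w).1, (f₁ w).1]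
    push_cast
    ring
  have h3 := delta (a := a) (b := b) (c := c) (a' := (a₀ + a₁) / 2 - a) (b' := (b₀ + b₁) / 2 - b)
    (c' := (c₀ + c₁) / 2 - c) fun w hw => by
      have := hg.ray (him w hw) (v i false) (v i true)
      rwa [(e w).1, q] at this
  have h5 : (c₀ + c₁) / 2 - c ≤ 2 / 3 * c := by
    have h6 := (h X hX hZ).2 i hi
    have h7 := q 0
    rw [zero_smul, add_zero] at h7
    rw [h7, e0.1] at h6
    simpa only [mul_zero, zero_add, Complex.ofReal_re] using h6
  have := (barrier h1 h2 h3 h4 h5).2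
  rw [der, add_right_comm X, add_right_comm X _ (rk (v i true)), val X a b c e, val _ _ _ _ f₀,
    val _ _ _ _ f₁]
  have h8 : ∀ p q r : ℝ, (((p : ℂ) + q) / 2 - r).re = (p + q) / 2 - r := fun p q r => by
    norm_cast
  rw [h8, Complex.ofReal_re]
  linarith

end Pool.Agent.Lib.MP_b8e63c_lc.Mss
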