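import Pool.Agent.Lib.MP_b8e63c_lc.MssB

/-! The Marcus-Spielman-Srivastava argument for two classes, third part: the selection, and the
statement for Bessel families in a Hilbert space. -/

open scoped ComplexConjugate ComplexOrder Matrix InnerProductSpace
open Set Filter Topology Matrix

noncomputable section

namespace Pool.Agent.Lib.MP_b8e63c_lc.Mss

variable {ι : Type} [Fintype ι] [DecidableEq ι]

theorem qf_one_eq (y : ι → ℂ) : qf 1 y = ((∑ i, ‖y i‖ ^ 2 : ℝ) : ℂ) := by
  simp [qf, dotProduct, Complex.conj_mul']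

omit [DecidableEq ι] in
theorem qf_rk (v y : ι → ℂ) : qf (rk v) y = ((‖star v ⬝ᵥ y‖ ^ 2 : ℝ) : ℂ) := by
  rw [qf, rk, vecMulVec_mulVec, dotProduct_smul, op_smul_eq_mul, star_dotProduct y v]
  simp [Complex.conj_mul']

omit [DecidableEq ι] in
theorem qf_sub (X Y : Matrix ι ι ℂ) (y : ι → ℂ) : qf (X - Y) y = qf X y - qf Y y := by
  simp [qf, sub_mulVec]

theorem inv_det {κ : Type*} {s : Set κ} {v : κ → Bool → ι → ℂ}
    (h : ∀ i ∈ s, (qf 1 (v i false)).re + (qf 1 (v i true)).re ≤ 1 / 3) :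
    Inv s v (fun X => X.det) ((1 / 4 : ℂ) • 1) := by
  intro X hX hZ
  have hP : X.PosDef := by
    have := (PosDef.one.smul (show (0 : ℂ) < 1 / 4 by norm_num [Complex.pos_iff])).add_posSemidef hZ
    rwa [add_sub_cancel] at this
  have hd := Complex.pos_iff.1 hP.det_pos
  have hu : IsUnit X.det := (isUnit_iff_isUnit_det X).1 hP.isUnit
  have key : ∀ u : ι → ℂ, ((X + rk u).det).re ≤ X.det.re * (1 + 4 * (qf 1 u).re) := fun u => by
    obtain ⟨w, hw⟩ : ∃ w, w = X⁻¹ *ᵥ u := ⟨_, rfl⟩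
    have h1 : X *ᵥ w = u := by rw [hw, mulVec_mulVec, mul_nonsing_inv _ hu, one_mulVec]
    have h2 : (X + rk u).det = X.det * (1 + star u ⬝ᵥ w) := by
      rw [rk, vecMulVec_eq Unit, det_add_replicateCol_mul_replicateRow hu, det_unique (n := Unit),
        Matrix.mul_assoc, ← replicateCol_mulVec, ← hw, Matrix.add_apply, one_apply_eq,
        replicateRow_mul_replicateCol_apply]
    have h3 : star w ⬝ᵥ u = qf X w := by rw [qf, h1]
    have h4 : star u ⬝ᵥ w = conj (qf X w) := by rw [star_dotProduct, h3]; rfl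
    have h5 := (qf_psd hZ w).1
    have h6 := (qf_psd PosSemidef.one (w - (4 : ℂ) • u)).1
    have h7 : qf 1 (w - (4 : ℂ) • u) = qf 1 w - 4 * qf X w - 4 * conj (qf X w) + 16 * qf 1 u := by
      rw [← h4, ← h3]
      simp only [qf, one_mulVec, star_sub, star_smul, sub_dotProduct, dotProduct_sub,
        smul_dotProduct, dotProduct_smul, smul_eq_mul, star_ofNat]
      ring
    rw [qf_sub, qf_smul] at h5
    rw [h7] at h6
    rw [h2, h4, Complex.mul_re, ← hd.2, zero_mul, sub_zero]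
    refine mul_le_mul_of_nonneg_left ?_ hd.1.le
    norm_num [Complex.mul_re] at h5 h6 ⊢
    linarith
  refine ⟨hd.1, fun i hi => ?_⟩
  have e1 := key (v i false)
  have e2 := key (v i true)
  have e3 := mul_le_mul_of_nonneg_left (h i hi) hd.1.le
  simp only [der, Complex.sub_re, Complex.div_ofNat_re, Complex.add_re]
  linarith

variable {g : Matrix ι ι ℂ → ℂ}

theorem Good.mono (hg : Good g) {Y : Matrix ι ι ℂ} (hY : Y.IsHermitian) {x₀ : ℝ}
    (h : ∀ x : ℝ, x₀ ≤ x → 0 < (g (Y + (x : ℂ) • 1)).re) (x : ℝ) (hx : x₀ ≤ x) :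
    (g (Y + (x₀ : ℂ) • 1)).re ≤ (g (Y + (x : ℂ) • 1)).re := by
  obtain ⟨p, hp⟩ := hg.poly Y
  have up : ∀ ρ : ℂ, 0 < ρ.im → g (Y + ρ • 1) ≠ 0 := fun ρ hρ => hg.nz _ fun y hy => by
    rw [qf_add, qf_smul, Complex.add_im, qf_herm hY, Complex.mul_im, qf_herm isHermitian_one]
    simpa using mul_pos hρ (qf_one hy)
  have hH : (Y + (x : ℂ) • 1).IsHermitian := by
    rw [IsHermitian, conjTranspose_add, hY.eq, conjTranspose_smul, conjTranspose_one,
      Complex.star_def, Complex.conj_ofReal]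
  have h1 : ‖g (Y + (x₀ : ℂ) • 1)‖ ≤ ‖g (Y + (x : ℂ) • 1)‖ := by
    rw [hp, hp, (IsAlgClosed.splits p).eval_eq_prod_roots, (IsAlgClosed.splits p).eval_eq_prod_roots,
      norm_mul, norm_mul]
    refine mul_le_mul_of_nonneg_left (prod_mono _ fun ρ hρ => ?_) (norm_nonneg _)
    have h0 : g (Y + ρ • 1) = 0 := (hp ρ).trans (Polynomial.mem_roots'.1 hρ).2
    have him : ρ.im = 0 := by
      rcases lt_trichotomy ρ.im 0 with e | e | e
      · refine absurd ?_ (up (conj ρ) (by simpa using e))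
        have := hg.cj (Y + ρ • 1)
        rwa [conjTranspose_add, hY.eq, conjTranspose_smul, conjTranspose_one, h0, map_zero] at this
      · exact e
      · exact absurd h0 (up ρ e)
    obtain ⟨r, rfl⟩ : ∃ r : ℝ, ρ = r := ⟨ρ.re, Complex.ext rfl (by simpa using him)⟩
    have hr : r < x₀ := lt_of_not_ge fun e => by
      have := h r e
      rw [h0] at this
      exact lt_irrefl _ this
    rw [← Complex.ofReal_sub, ← Complex.ofReal_sub, Complex.norm_real, Complex.norm_real,
      Real.norm_of_nonneg (by linarith), Real.norm_of_nonneg (by linarith)]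
    linarith
  refine (Complex.re_le_norm _).trans (h1.trans (le_of_eq ?_))
  conv_lhs => rw [← hg.real hH, Complex.norm_real, Real.norm_of_nonneg (h x hx).le]

theorem Good.choose (hg : Good g) {Y : Matrix ι ι ℂ} (hY : Y.IsHermitian) {x₀ : ℝ} (v : Bool → ι → ℂ)
    (h : ∀ x : ℝ, x₀ ≤ x → 0 < (Mss.step g (v false) (v true) (1 / 2) (Y + (x : ℂ) • 1)).re) :
    ∃ β, ∀ x : ℝ, x₀ ≤ x → 0 < (g (Y - rk (v β) + (x : ℂ) • 1)).re := by
  have st : ∀ (u w : ι → ℂ) (t x : ℝ), (Mss.step g u w t (Y + (x : ℂ) • 1)).re =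
      t * (g (Y - rk u + (x : ℂ) • 1)).re + (1 - t) * (g (Y - rk w + (x : ℂ) • 1)).re := by
    intro u w t x
    rw [Mss.step, add_sub_right_comm, add_sub_right_comm, ← Complex.ofReal_one,
      ← Complex.ofReal_sub, Complex.add_re, Complex.re_ofReal_mul, Complex.re_ofReal_mul]
  have ct : ∀ u, Continuous fun x : ℝ => (g (Y - rk u + (x : ℂ) • 1)).re := fun u =>
    Complex.continuous_re.comp ((hg.cont _).comp Complex.continuous_ofReal)
  have key : ∀ u w : ι → ℂ, (∀ x : ℝ, x₀ ≤ x → 0 < 1 / 2 * (g (Y - rk u + (x : ℂ) • 1)).re +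
      (1 - 1 / 2) * (g (Y - rk w + (x : ℂ) • 1)).re) → 0 < (g (Y - rk u + (x₀ : ℂ) • 1)).re →
      ∀ x : ℝ, x₀ ≤ x → 0 < (g (Y - rk u + (x : ℂ) • 1)).re := fun u w h1 h2 =>
    inter (ct u) (ct w) ((hg.big _).and (hg.big _)) (fun t ht h3 x hx => by
      simp only [← st] at h3 ⊢
      exact (hg.step u w ht.1 ht.2).mono hY h3 x hx) h1 h2
  simp only [st] at h
  by_cases h0 : 0 < (g (Y - rk (v false) + (x₀ : ℂ) • 1)).re
  · exact ⟨false, key _ _ h h0⟩
  · exact ⟨true, key _ (v false) (fun x hx => by linarith [h x hx]) (by linarith [h x₀ le_rfl])⟩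

theorem ks_matrix {κ : Type*} (l : List κ) (hl : l.Nodup) (v : κ → Bool → ι → ℂ)
    (h1 : (1 - (l.map fun k => av (v k false) (v k true)).sum).PosSemidef)
    (h2 : ∀ i ∈ l, (qf 1 (v i false)).re + (qf 1 (v i true)).re ≤ 1 / 3) :
    ∃ b : κ → Bool, ((7 / 4 : ℂ) • 1 - (l.map fun k => rk (v k (b k))).sum).PosSemidef := by
  classical
  let G : List κ → Matrix ι ι ℂ → ℂ := fun m =>
    m.foldr (fun k g => step g (v k false) (v k true) (1 / 2)) fun X => X.det
  have good : ∀ m, Good (G m) := fun m => by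
    induction m with
    | nil => exact good_det
    | cons k m ih => exact ih.step _ _ (by norm_num) (by norm_num)
  have inv : ∀ m : List κ, (∀ k ∈ m, k ∈ l) → Inv {k | k ∈ l} v (G m)
      ((1 / 4 : ℂ) • 1 + (3 / 2 : ℂ) • (m.map fun k => av (v k false) (v k true)).sum) := by
    intro m hm
    induction m with
    | nil =>
      rw [List.map_nil, List.sum_nil, smul_zero, add_zero]
      exact inv_det h2
    | cons k m ih =>
      have := (ih fun j hj => hm j (List.mem_cons_of_mem _ hj)).step (good m)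
        (hm k List.mem_cons_self)
      rwa [add_assoc, ← smul_add, add_comm (List.sum _)] at this
  have sel : ∀ m : List κ, m.Nodup → ∀ Y : Matrix ι ι ℂ, Y.IsHermitian →
      (∀ x : ℝ, 7 / 4 ≤ x → 0 < (G m (Y + (x : ℂ) • 1)).re) → ∃ b : κ → Bool, ∀ x : ℝ, 7 / 4 ≤ x →
        0 < ((Y - (m.map fun k => rk (v k (b k))).sum + (x : ℂ) • 1).det).re := by
    intro m hm
    induction m with
    | nil =>
      refine fun Y _ h => ⟨fun _ => true, ?_⟩
      rw [List.map_nil, List.sum_nil, sub_zero]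
      exact h
    | cons k m ih =>
      intro Y hY h
      obtain ⟨β, hβ⟩ := (good m).choose hY (v k) h
      obtain ⟨b, hb⟩ := ih (List.nodup_cons.1 hm).2 _ (hY.sub (rk_psd _).1) hβ
      refine ⟨Function.update b k β, fun x hx => ?_⟩
      have : (m.map fun j => rk (v j (Function.update b k β j))) = m.map fun j => rk (v j (b j)) :=
        List.map_congr_left fun j hj => by
          rw [Function.update_of_ne (a := j) (a' := k) fun e => (List.nodup_cons.1 hm).1 (e ▸ hj)]
      rw [List.map_cons, List.sum_cons, this, Function.update_self, ← sub_sub]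
      exact hb x hx
  have hre : ∀ x : ℝ, ((x : ℂ) • (1 : Matrix ι ι ℂ)).IsHermitian := fun x => by
    rw [IsHermitian, conjTranspose_smul, conjTranspose_one, Complex.star_def, Complex.conj_ofReal]
  obtain ⟨b, hb⟩ := sel l hl 0 isHermitian_zero fun x hx => by
    rw [zero_add]
    refine (inv l (fun _ h => h) _ (hre x) ?_).1
    have := (PosSemidef.one.smul (Complex.zero_le_real.2 (sub_nonneg.2 hx))).add
      (h1.smul (show (0 : ℂ) ≤ 3 / 2 by norm_num [Complex.nonneg_iff]))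
    convert this using 1
    push_cast
    module
  refine ⟨b, ?_⟩
  obtain ⟨S, hS⟩ : ∃ S, S = (l.map fun k => rk (v k (b k))).sum := ⟨_, rfl⟩
  have hSh : S.IsHermitian := by
    rw [hS]
    exact List.sum_induction _ (fun a b => IsHermitian.add) isHermitian_zero
      (List.forall_mem_map.2 fun k _ => (rk_psd _).1)
  rw [← hS] at hb ⊢
  have hT : ((7 / 4 : ℂ) • (1 : Matrix ι ι ℂ) - S).IsHermitian := by
    have := (hre (7 / 4)).sub hSh
    push_cast at this
    exact this
  refine hT.posSemidef_iff_eigenvalues_nonneg.2 fun j => le_of_not_gt fun hj => ?_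
  have h3 := hb (7 / 4 - hT.eigenvalues j) (by simpa using hj.le)
  have h4 : (0 - S + ((7 / 4 - hT.eigenvalues j : ℝ) : ℂ) • 1).det = 0 := by
    refine exists_mulVec_eq_zero_iff.1 ⟨(hT.eigenvectorBasis j).ofLp, fun e => ?_, ?_⟩
    · exact hT.eigenvectorBasis.orthonormal.ne_zero j (by ext i; exact congrFun e i)
    · have e : 0 - S + ((7 / 4 - hT.eigenvalues j : ℝ) : ℂ) • (1 : Matrix ι ι ℂ) =
          ((7 / 4 : ℂ) • 1 - S) - (hT.eigenvalues j : ℂ) • 1 := by push_cast; module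
      rw [e, sub_mulVec, hT.mulVec_eigenvectorBasis, smul_mulVec, one_mulVec, Complex.coe_smul,
        sub_self]
  rw [h4] at h3
  exact lt_irrefl _ h3

variable {H : Type*} [NormedAddCommGroup H] [InnerProductSpace ℂ H]

/-- Weaver's statement for a finite family. -/
theorem ks_fin {κ : Type*} (F : Finset κ) (u : κ → H)
    (h1 : ∀ x, ∑ k ∈ F, ‖⟪u k, x⟫_ℂ‖ ^ 2 ≤ ‖x‖ ^ 2) (h2 : ∀ k ∈ F, ‖u k‖ ^ 2 ≤ 1 / 12) :
    ∃ b : κ → Bool, ∀ β x, ∑ k ∈ F with b k = β, ‖⟪u k, x⟫_ℂ‖ ^ 2 ≤ 7 / 8 * ‖x‖ ^ 2 := by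
  classical
  let E : Submodule ℂ H := Submodule.span ℂ (F.image u : Set H)
  let ob := stdOrthonormalBasis ℂ E
  let o : Fin (Module.finrank ℂ E) → H := fun i => ob i
  have ho : Orthonormal ℂ o := E.subtypeₗᵢ.orthonormal_comp_iff.2 ob.orthonormal
  let v : κ → Bool → Bool × Fin (Module.finrank ℂ E) → ℂ := fun k β p =>
    if p.1 = β then (√2 : ℝ) * ⟪o p.2, u k⟫_ℂ else 0
  let X : (Bool × Fin (Module.finrank ℂ E) → ℂ) → Bool → H := fun y β => ∑ i, y (β, i) • o i
  have e1 : ∀ k β y, qf (rk (v k β)) y = ((2 * ‖⟪u k, X y β⟫_ℂ‖ ^ 2 : ℝ) : ℂ) := fun k β y => by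
    have : star (v k β) ⬝ᵥ y = (√2 : ℝ) * ⟪u k, X y β⟫_ℂ := by
      simp only [dotProduct, Fintype.sum_prod_type, v, X, inner_sum, inner_smul_right,
        Finset.mul_sum, Pi.star_apply]
      rw [Finset.sum_eq_single β (fun β' _ h => by simp [h]) (by simp)]
      refine Finset.sum_congr rfl fun i _ => ?_
      simp only [if_true, Complex.star_def, map_mul, Complex.conj_ofReal, inner_conj_symm]
      ring
    rw [qf_rk, this, norm_mul, mul_pow, Complex.norm_real, Real.norm_of_nonneg (Real.sqrt_nonneg _),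
      Real.sq_sqrt zero_le_two]
  have e2 : ∀ y, qf 1 y = ((‖X y false‖ ^ 2 + ‖X y true‖ ^ 2 : ℝ) : ℂ) := fun y => by
    have : ∀ β, ‖X y β‖ ^ 2 = ∑ i, ‖y (β, i)‖ ^ 2 := fun β => by
      have := ho.inner_sum (fun i => y (β, i)) (fun i => y (β, i)) Finset.univ
      rw [inner_self_eq_norm_sq_to_K] at this
      simp only [Complex.conj_mul'] at this
      refine Complex.ofReal_injective ?_
      push_cast
      exact this
    rw [qf_one_eq, Fintype.sum_prod_type, Fintype.sum_bool, this, this, add_comm]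
  have qs : ∀ (f : κ → Matrix _ _ ℂ) (y : Bool × Fin (Module.finrank ℂ E) → ℂ),
      qf (F.toList.map f).sum y = ∑ k ∈ F, qf (f k) y := fun f y => by
    rw [Finset.sum_map_toList]
    simp [qf, sum_mulVec, dotProduct_sum]
  obtain ⟨b, hb⟩ := ks_matrix F.toList F.nodup_toList v (by
    refine .of_dotProduct_mulVec_nonneg (isHermitian_one.sub
      (List.sum_induction _ (fun a b => IsHermitian.add) isHermitian_zero
        (List.forall_mem_map.2 fun k _ => (av_psd _ _).1))) fun y => ?_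
    show 0 ≤ qf _ y
    have : ∀ k, qf (av (v k false) (v k true)) y =
        ((‖⟪u k, X y false⟫_ℂ‖ ^ 2 + ‖⟪u k, X y true⟫_ℂ‖ ^ 2 : ℝ) : ℂ) := fun k => by
      rw [av, qf_add, qf_smul, qf_smul, e1, e1]; push_cast; ring
    rw [qf_sub, qs, e2]
    simp only [this]
    rw [← Complex.ofReal_sum, ← Complex.ofReal_sub, Complex.zero_le_real, Finset.sum_add_distrib]
    linarith [h1 (X y false), h1 (X y true)]) fun k hk => by
      have : ∀ β, (qf 1 (v k β)).re ≤ 1 / 6 := fun β => by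
        rw [qf_one_eq, Complex.ofReal_re, Fintype.sum_prod_type,
          Finset.sum_eq_single β (fun β' _ h => by simp [v, h]) (by simp)]
        simp only [v, if_true, norm_mul, mul_pow, Complex.norm_real,
          Real.norm_of_nonneg (Real.sqrt_nonneg _), Real.sq_sqrt zero_le_two, ← Finset.mul_sum]
        linarith [ho.sum_inner_products_le (s := Finset.univ) (u k), h2 k (Finset.mem_toList.1 hk)]
      linarith [this false, this true]
  refine ⟨b, fun β x => ?_⟩
  let y : Bool × Fin (Module.finrank ℂ E) → ℂ := fun p => if p.1 = β then ⟪o p.2, x⟫_ℂ else 0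
  have f1 : (qf 1 y).re ≤ ‖x‖ ^ 2 := by
    rw [qf_one_eq, Complex.ofReal_re, Fintype.sum_prod_type,
      Finset.sum_eq_single β (fun β' _ h => by simp [y, h]) (by simp)]
    simpa [y] using ho.sum_inner_products_le (s := Finset.univ) x
  have f2 : ∀ k ∈ F, ⟪u k, X y β⟫_ℂ = ⟪u k, x⟫_ℂ := fun k hk => by
    have hk' : u k ∈ E := Submodule.subset_span (Finset.mem_coe.2 (Finset.mem_image_of_mem u hk))
    have := congrArg Subtype.val (ob.sum_repr' ⟨u k, hk'⟩)
    simp only [Submodule.coe_sum, Submodule.coe_smul, Submodule.coe_inner] at this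
    conv_rhs => rw [← this]
    simp only [X, y, o, if_true, inner_sum, sum_inner, inner_smul_right, inner_smul_left,
      inner_conj_symm]
    exact Finset.sum_congr rfl fun i _ => mul_comm _ _
  have f3 := (qf_psd hb y).1
  rw [qf_sub, qf_smul, qs] at f3
  simp only [e1] at f3
  rw [← Complex.ofReal_sum, Complex.sub_re, Complex.ofReal_re,
    show (7 / 4 : ℂ) = ((7 / 4 : ℝ) : ℂ) by push_cast; rfl, Complex.re_ofReal_mul,
    ← Finset.mul_sum] at f3
  have f4 : ∑ k ∈ F with b k = β, ‖⟪u k, x⟫_ℂ‖ ^ 2 ≤ ∑ k ∈ F, ‖⟪u k, X y (b k)⟫_ℂ‖ ^ 2 := by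
    refine le_trans (le_of_eq (Finset.sum_congr rfl fun k hk => ?_))
      (Finset.sum_le_sum_of_subset_of_nonneg (Finset.filter_subset _ _) fun _ _ _ => sq_nonneg _)
    rw [(Finset.mem_filter.1 hk).2, f2 k (Finset.mem_filter.1 hk).1]
  linarith

end Pool.Agent.Lib.MP_b8e63c_lc.Mss
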