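import Pool.Agent.Lib.MP_b8e63c_lc.Lyap

/-! The Lyapunov theorem in the commutant, equal partitions, and sign operators. -/

open scoped InnerProductSpace ComplexOrder ComplexConjugate
open Set

noncomputable section

namespace Pool.Agent.Lib.MP_b8e63c_lc

theorem sq_le_self {A : Type*} [CStarAlgebra A] [PartialOrder A] [StarOrderedRing A] {w : A}
    (h0 : 0 ≤ w) (h1 : w ≤ 1) : w * w ≤ w := by
  have hs : IsSelfAdjoint w := .of_nonneg h0
  have h2 : 0 ≤ 1 - w := sub_nonneg.2 h1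
  have h3 := add_nonneg (hs.conjugate_nonneg h2) ((IsSelfAdjoint.of_nonneg h2).conjugate_nonneg h0)
  rw [← sub_nonneg]
  convert h3 using 1
  noncomm_ring

theorem perturb_mem {A : Type*} [CStarAlgebra A] [PartialOrder A] [StarOrderedRing A] {x y : A}
    (h0 : 0 ≤ x) (h1 : x ≤ 1) (hy : IsSelfAdjoint y) (hy1 : ‖y‖ ≤ 1) :
    0 ≤ x + (x - x * x) * y * (x - x * x) ∧ x + (x - x * x) * y * (x - x * x) ≤ 1 := by
  have hs : IsSelfAdjoint x := .of_nonneg h0
  have c0 : 0 ≤ x - x * x := sub_nonneg.2 (sq_le_self h0 h1)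
  have cs : IsSelfAdjoint (x - x * x) := .of_nonneg c0
  have cx : x - x * x ≤ x := sub_le_self _ hs.mul_self_nonneg
  have cx' : x - x * x ≤ 1 - x := by
    have := (IsSelfAdjoint.of_nonneg (sub_nonneg.2 h1)).mul_self_nonneg
    rw [← sub_nonneg]
    convert this using 1
    noncomm_ring
  have cc := sq_le_self c0 (cx.trans h1)
  have a1 : algebraMap ℝ A ‖y‖ ≤ 1 := by
    rw [← map_one (algebraMap ℝ A)]
    exact (algebraMap_mono A) hy1
  have y1 := IsSelfAdjoint.conjugate_le_conjugate (hy.le_algebraMap_norm_self.trans a1) cs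
  have y2 := IsSelfAdjoint.conjugate_le_conjugate
    ((neg_le_neg a1).trans hy.neg_algebraMap_norm_le_self) cs
  rw [mul_one] at y1
  rw [mul_neg_one, neg_mul] at y2
  exact ⟨neg_le_iff_add_nonneg'.1 ((neg_le_neg (cc.trans cx)).trans y2),
    le_sub_iff_add_le'.1 (y1.trans (cc.trans cx'))⟩

variable {H : Type*} [NormedAddCommGroup H] [InnerProductSpace ℂ H] [CompleteSpace H]

/-- The form of an operator. -/
def fm (x : H →L[ℂ] H) : H → H → ℂ := fun a b => ⟪x a, b⟫_ℂ

omit [CompleteSpace H] in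
theorem fm_inj {x y : H →L[ℂ] H} (h : fm x = fm y) : x = y := by
  ext a
  exact ext_inner_right ℂ fun b => congrFun (congrFun h a) b

omit [CompleteSpace H] in
theorem nonneg_iff {x : H →L[ℂ] H} : 0 ≤ x ↔ ∀ a, 0 ≤ ⟪x a, a⟫_ℂ := by
  rw [ContinuousLinearMap.nonneg_iff_isPositive, ContinuousLinearMap.isPositive_iff_complex]
  refine forall_congr' fun a => ?_
  rw [Complex.nonneg_iff]
  constructor
  · rintro ⟨h1, h2⟩
    exact ⟨h2, by rw [← h1]; simp⟩
  · rintro ⟨h1, h2⟩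
    exact ⟨Complex.ext (by simp) (by simpa using h2), h1⟩

/-- The forms of the positive contractions of the commutant with prescribed compression. -/
def Kset (M : VonNeumannAlgebra H) (e : H →L[ℂ] H) (V : Submodule ℂ H) (t : ℝ) :
    Set (H → H → ℂ) :=
  {F | (∀ a a' b, F (a + a') b = F a b + F a' b) ∧ (∀ (c : ℂ) a b, F (c • a) b = conj c * F a b) ∧
    (∀ a b b', F a (b + b') = F a b + F a b') ∧ (∀ (c : ℂ) a b, F a (c • b) = c * F a b) ∧
    (∀ a b, ‖F a b‖ ≤ ‖a‖ * ‖b‖) ∧ (∀ m ∈ M, ∀ a b, F (m a) b = F a (star m b)) ∧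
    (∀ a, 0 ≤ F a a) ∧ (∀ a, F a a ≤ ⟪a, a⟫_ℂ) ∧ (∀ a b, F (e a) b = F a b) ∧
    ∀ a ∈ V, ∀ b ∈ V, F a b = t * ⟪e a, b⟫_ℂ}

variable {M : VonNeumannAlgebra H} {z e : H →L[ℂ] H} {V : Submodule ℂ H} {t : ℝ}

theorem Kset_compact : IsCompact (Kset M e V t) := by
  have h1 : IsCompact (Set.pi univ fun a : H => Set.pi univ fun b : H =>
      Metric.closedBall (0 : ℂ) (‖a‖ * ‖b‖)) :=
    isCompact_univ_pi fun a => isCompact_univ_pi fun b => isCompact_closedBall _ _
  refine h1.of_isClosed_subset ?_ fun F hF a _ b _ => by simpa using hF.2.2.2.2.1 a b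
  unfold Kset
  simp only [ofPred_and, ofPred_forall]
  refine IsClosed.inter ?_ (IsClosed.inter ?_ (IsClosed.inter ?_ (IsClosed.inter ?_
    (IsClosed.inter ?_ (IsClosed.inter ?_ (IsClosed.inter ?_ (IsClosed.inter ?_
    (IsClosed.inter ?_ ?_))))))))
  all_goals
    repeat (refine isClosed_iInter fun _ => ?_)
    first
      | exact isClosed_eq (by fun_prop) (by fun_prop)
      | exact isClosed_le (by fun_prop) (by fun_prop)

theorem fm_mem_iff {x : H →L[ℂ] H} : fm x ∈ Kset M e V t ↔ x ∈ M.commutant ∧ 0 ≤ x ∧ x ≤ 1 ∧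
    x * e = x ∧ ∀ a ∈ V, ∀ b ∈ V, ⟪x a, b⟫_ℂ = t * ⟪e a, b⟫_ℂ := by
  have h1 : x ≤ 1 ↔ ∀ a, fm x a a ≤ ⟪a, a⟫_ℂ := by
    rw [← sub_nonneg, nonneg_iff]
    refine forall_congr' fun a => ?_
    rw [sub_apply, inner_sub_left, sub_nonneg]
    rfl
  constructor
  · rintro ⟨-, -, -, -, -, p6, p7, p8, p9, p10⟩
    refine ⟨VonNeumannAlgebra.mem_commutant_iff.2 fun m hm => fm_inj ?_, nonneg_iff.2 p7, h1.2 p8,
      fm_inj (funext₂ p9), p10⟩
    funext a b
    have := p6 m hm a b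
    simp only [fm] at this ⊢
    rw [← inner_star, star_star] at this
    exact this.symm
  · rintro ⟨p1, p2, p3, p4, p5⟩
    refine ⟨fun a a' b => by simp [fm], fun c a b => by simp [fm, mul_comm],
      fun a b b' => by simp [fm], fun c a b => by simp [fm], fun a b => ?_,
      fun m hm a b => ?_, nonneg_iff.1 p2, h1.1 p3,
      fun a b => congrFun (congrFun (congrArg fm p4) a) b, p5⟩
    · have := (CStarAlgebra.norm_le_one_iff_of_nonneg x p2).2 p3
      refine (norm_inner_le_norm _ _).trans (mul_le_mul_of_nonneg_right ?_ (norm_nonneg _))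
      exact (x.le_opNorm a).trans (mul_le_of_le_one_left (norm_nonneg _) this)
    · simp only [fm]
      rw [← inner_star, star_star]
      exact (congrFun (congrFun (congrArg fm
        (VonNeumannAlgebra.mem_commutant_iff.1 p1 m hm)) a) b).symm

theorem exists_fm {F : H → H → ℂ} (hF : F ∈ Kset M e V t) : ∃ x, fm x = F := by
  obtain ⟨p1, p2, p3, p4, p5, -⟩ := hF
  let B : H →L⋆[ℂ] H →L[ℂ] ℂ :=
    (LinearMap.mk₂'ₛₗ (starRingEnd ℂ) (RingHom.id ℂ) F p1 p2 p3 p4).mkContinuous₂ 1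
      fun a b => by rw [one_mul]; exact p5 a b
  exact ⟨InnerProductSpace.continuousLinearMapOfBilin B, funext₂ fun a b =>
    InnerProductSpace.continuousLinearMapOfBilin_apply B a b⟩

/-- The Lyapunov theorem in the commutant. -/
theorem lyapunov (hM : NoMinimalBelow M z) (hz : z ∈ M) (hzs : star z = z)
    (he : e ∈ M.commutant) (hep : IsStarProjection e) (hez : e * z = e)
    (V : Submodule ℂ H) [FiniteDimensional ℂ V] (h0 : 0 ≤ t) (h1 : t ≤ 1) :
    ∃ f ∈ M.commutant, IsStarProjection f ∧ f * e = f ∧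
      ∀ a ∈ V, ∀ b ∈ V, ⟪f a, b⟫_ℂ = t * ⟪e a, b⟫_ℂ := by
  have hne : (Kset M e V t).Nonempty := by
    refine ⟨fm ((t : ℂ) • e), fm_mem_iff.2 ⟨smul_mem' _ _ he, ?_, ?_, ?_, fun a _ b _ => ?_⟩⟩
    · exact smul_nonneg (Complex.zero_le_real.2 h0) hep.nonneg
    · refine le_trans ?_ hep.le_one
      rw [← sub_nonneg, show e - (t : ℂ) • e = ((1 - t : ℝ) : ℂ) • e by push_cast; module]
      exact smul_nonneg (Complex.zero_le_real.2 (sub_nonneg.2 h1)) hep.nonneg
    · rw [smul_mul_assoc, hep.isIdempotentElem.eq]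
    · rw [smul_apply, inner_smul_left, Complex.conj_ofReal]
  obtain ⟨F, hF⟩ := Kset_compact.extremePoints_nonempty hne
  obtain ⟨x, rfl⟩ := exists_fm hF.1
  obtain ⟨p1, p2, p3, p4, p5⟩ := fm_mem_iff.1 hF.1
  have hs : IsSelfAdjoint x := .of_nonneg p2
  refine ⟨x, p1, ⟨?_, hs⟩, p4, p5⟩
  by_contra hx
  have c0 : x - x * x ≠ 0 := fun h => hx (sub_eq_zero.1 h).symm
  have cs : star (x - x * x) = x - x * x := by rw [star_sub, star_mul, hs.star_eq]
  have cN : x - x * x ∈ M.commutant := sub_mem p1 (mul_mem p1 p1)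
  have ce : (x - x * x) * e = x - x * x := by rw [sub_mul, mul_assoc, p4]
  have cz : z * (x - x * x) = x - x * x := by
    have := congrArg star (show (x - x * x) * z = x - x * x by rw [← ce, mul_assoc, hez])
    rwa [star_mul, cs, hzs] at this
  obtain ⟨y, q1, q2, q3, q4⟩ := exists_perturb hM hz hzs cN cs cz c0 V
  have key : ∀ s : ℝ, |s| * ‖y‖ ≤ 1 →
      fm (x + (s : ℂ) • ((x - x * x) * y * (x - x * x))) ∈ Kset M e V t := fun s hs' => by
    have h2 := perturb_mem p2 p3 (y := (s : ℂ) • y)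
      (by rw [IsSelfAdjoint, star_smul, q2, Complex.star_def, Complex.conj_ofReal])
      (by rwa [norm_smul, Complex.norm_real, Real.norm_eq_abs])
    rw [mul_smul_comm, smul_mul_assoc] at h2
    refine fm_mem_iff.2 ⟨add_mem p1 (smul_mem' _ _ (mul_mem (mul_mem cN q1) cN)), h2.1, h2.2, ?_,
      fun a ha b hb => ?_⟩
    · rw [add_mul, smul_mul_assoc, mul_assoc _ _ e, ce, p4]
    · rw [add_apply, inner_add_left, smul_apply, inner_smul_left, q4 a ha b hb, mul_zero, add_zero,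
        p5 a ha b hb]
  have hpos : 0 < (‖y‖ + 1)⁻¹ := by positivity
  have hb : |(‖y‖ + 1)⁻¹| * ‖y‖ ≤ 1 := by
    rw [abs_of_pos hpos, inv_mul_le_iff₀ (by positivity)]
    linarith
  have := (mem_extremePoints_iff_left.1 hF).2 _ (key _ hb) _ (key (-(‖y‖ + 1)⁻¹) (by rwa [abs_neg]))
    ⟨1 / 2, 1 / 2, by norm_num, by norm_num, by norm_num, by
      funext a b
      simp only [fm, Pi.add_apply, Pi.smul_apply, add_apply, smul_apply, inner_add_left,
        inner_smul_left, Complex.conj_ofReal, Complex.real_smul]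
      push_cast
      ring⟩
  have h3 := fm_inj this
  rw [add_eq_left, smul_eq_zero_iff_right (Complex.ofReal_ne_zero.2 hpos.ne')] at h3
  exact q3 h3

theorem swap_mul {p q : H →L[ℂ] H} (hp : IsStarProjection p) (hq : IsStarProjection q)
    {r : H →L[ℂ] H} (hr : star r = r) (h : p * q = r) : q * p = r := by
  have := congrArg star h
  rwa [star_mul, hp.isSelfAdjoint.star_eq, hq.isSelfAdjoint.star_eq, hr] at this

/-- Equal partitions. -/
theorem exists_partition (hM : NoMinimalBelow M z) (hz : z ∈ M) (hzs : star z = z)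
    (V : Submodule ℂ H) [FiniteDimensional ℂ V] (n : ℕ) :
    ∀ e ∈ M.commutant, IsStarProjection e → e * z = e → ∃ f : Fin (n + 1) → H →L[ℂ] H,
      (∀ i, f i ∈ M.commutant ∧ IsStarProjection (f i) ∧ f i * e = f i ∧
        ∀ a ∈ V, ∀ b ∈ V, ⟪f i a, b⟫_ℂ = ((n : ℂ) + 1)⁻¹ * ⟪e a, b⟫_ℂ) ∧
      (∀ i j, i ≠ j → f i * f j = 0) ∧ ∑ i, f i = e := by
  induction n with
  | zero =>
    intro e he hep _
    exact ⟨fun _ => e, fun _ => ⟨he, hep, hep.isIdempotentElem.eq, by simp⟩,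
      fun i j h => absurd (Subsingleton.elim (α := Fin 1) i j) h, by simp⟩
  | succ n ih =>
    intro e he hep hez
    have hpos : (0 : ℝ) < (n : ℝ) + 1 + 1 := by positivity
    obtain ⟨g, g1, g2, g3, g4⟩ := lyapunov hM hz hzs he hep hez V (t := ((n : ℝ) + 1 + 1)⁻¹)
      (inv_pos.2 hpos).le (inv_le_one_of_one_le₀ (by linarith [n.cast_nonneg (α := ℝ)]))
    have hr : IsStarProjection (e - g) := g2.sub_of_mul_eq_left hep g3
    have gz : g * z = g := by rw [← g3, mul_assoc, hez]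
    obtain ⟨f, f1, f2, f3⟩ := ih (e - g) (sub_mem he g1) hr (by rw [sub_mul, hez, gz])
    have eg : e * g = g := swap_mul g2 hep g2.isSelfAdjoint.star_eq g3
    have fg : ∀ i, f i * g = 0 := fun i => by
      rw [← (f1 i).2.2.1, mul_assoc, sub_mul, eg, g2.isIdempotentElem.eq, sub_self, mul_zero]
    refine ⟨Fin.cons g f, fun i => ?_, fun i j => ?_, by rw [Fin.sum_univ_succ]; simp [f3]⟩
    · refine Fin.cases ⟨g1, g2, g3, fun a ha b hb => ?_⟩
        (fun i => ⟨(f1 i).1, (f1 i).2.1, ?_, fun a ha b hb => ?_⟩) i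
      · rw [Fin.cons_zero, g4 a ha b hb]; push_cast; rfl
      · rw [Fin.cons_succ, ← (f1 i).2.2.1, mul_assoc, sub_mul, hep.isIdempotentElem.eq, g3]
      · rw [Fin.cons_succ, (f1 i).2.2.2 a ha b hb, sub_apply, inner_sub_left, g4 a ha b hb]
        have h1 : (n : ℂ) + 1 ≠ 0 := by exact_mod_cast n.succ_ne_zero
        have h2 : (n : ℂ) + 1 + 1 ≠ 0 := by exact_mod_cast (n + 1).succ_ne_zero
        push_cast
        field_simp
        ring
    · refine Fin.cases (Fin.cases (fun h => absurd rfl h) (fun j _ => ?_) j)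
        (fun i => Fin.cases (fun _ => fg i) (fun j h => f2 i j fun h' => h (by rw [h'])) j) i
      exact swap_mul (f1 j).2.1 g2 (star_zero _) (fg j)

/-- Sign operators: self-adjoint, with orthogonal supports adding up to `z`, flat on `V` and
moving `V` into its orthogonal complement. -/
theorem exists_signs (hM : NoMinimalBelow M z) (hz : z ∈ M) (hzN : z ∈ M.commutant)
    (hzp : IsStarProjection z) (V : Submodule ℂ H) [FiniteDimensional ℂ V] (hV : ∀ a ∈ V, z a = a)
    (I : Type) [Fintype I] [Nonempty I] : ∃ s : I → H →L[ℂ] H,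
      (∀ i, s i ∈ M.commutant ∧ star (s i) = s i ∧ z * s i = s i ∧ Kill V (s i) ∧
        ∀ a ∈ V, ∀ b ∈ V, ⟪s i a, s i b⟫_ℂ = (Fintype.card I : ℂ)⁻¹ * ⟪a, b⟫_ℂ) ∧
      (∀ i j, i ≠ j → s i * s j = 0) ∧ ∑ i, s i * s i = z := by
  have hzs := hzp.isSelfAdjoint.star_eq
  obtain ⟨n, hn⟩ := Nat.exists_eq_succ_of_ne_zero (Fintype.card_ne_zero (α := I))
  let π : I ≃ Fin (n + 1) := Fintype.equivFinOfCardEq hn
  obtain ⟨f, f1, f2, f3⟩ := exists_partition hM hz hzs V n z hzN hzp hzp.isIdempotentElem.eq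
  have hg := fun i => lyapunov hM hz hzs (f1 i).1 (f1 i).2.1 (f1 i).2.2.1 V (t := 1 / 2)
    (by norm_num) (by norm_num)
  choose g g1 g2 g3 g4 using hg
  have fg : ∀ i, f i * g i = g i := fun i =>
    swap_mul (g2 i) (f1 i).2.1 (g2 i).isSelfAdjoint.star_eq (g3 i)
  have ss : ∀ i, star (g i + g i - f i) = g i + g i - f i := fun i => by
    rw [star_sub, star_add, (g2 i).isSelfAdjoint.star_eq, (f1 i).2.1.isSelfAdjoint.star_eq]
  have sf : ∀ i, (g i + g i - f i) * f i = g i + g i - f i := fun i => by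
    rw [sub_mul, add_mul, g3, (f1 i).2.1.isIdempotentElem.eq]
  have fs : ∀ i, f i * (g i + g i - f i) = g i + g i - f i := fun i => by
    rw [mul_sub, mul_add, fg, (f1 i).2.1.isIdempotentElem.eq]
  have s2 : ∀ i, (g i + g i - f i) * (g i + g i - f i) = f i := fun i => by
    rw [mul_sub, sf, mul_add, sub_mul, add_mul, fg, (g2 i).isIdempotentElem.eq]
    abel
  refine ⟨fun i => g (π i) + g (π i) - f (π i), fun i => ⟨sub_mem (add_mem (g1 _) (g1 _)) (f1 _).1,
    ss _, ?_, fun a ha b hb => ?_, fun a ha b hb => ?_⟩, fun i j h => ?_, ?_⟩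
  · beta_reduce
    rw [← fs, ← mul_assoc, swap_mul (f1 _).2.1 hzp (f1 _).2.1.isSelfAdjoint.star_eq (f1 _).2.2.1]
  · rw [sub_apply, add_apply, inner_sub_left, inner_add_left, g4 _ a ha b hb]
    push_cast
    ring
  · rw [← inner_sa (ss _), ← mul_apply_eq_comp, s2, (f1 _).2.2.2 a ha b hb, hV a ha, hn]
    push_cast
    rfl
  · beta_reduce
    rw [← sf, ← fs (π j), mul_assoc, ← mul_assoc (f _), f2 _ _ (π.injective.ne h), zero_mul,
      mul_zero]
  · simp only [s2]
    rw [← f3]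
    exact π.sum_comp f

end Pool.Agent.Lib.MP_b8e63c_lc
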