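import Pool.Agent.Lib.MP_b8e63c_lc.Level

/-! The tower of levels: one subspace for each orthonormal sequence. -/

open scoped InnerProductSpace ComplexOrder ComplexConjugate
open Set Filter

noncomputable section

namespace Pool.Agent.Lib.MP_b8e63c_lc

variable {H : Type*} [NormedAddCommGroup H] [InnerProductSpace ℂ H] [CompleteSpace H]

theorem pr_mono {A B : Submodule ℂ H} (h : A ≤ B) (x : H) : ‖pr A x‖ ^ 2 ≤ ‖pr B x‖ ^ 2 := by
  rw [← pr_pr h]
  exact pow_le_pow_left₀ (norm_nonneg _) (norm_pr_le _ _) 2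

theorem pr_sup {A B : Submodule ℂ H} (h : ∀ a ∈ A, ∀ b ∈ B, ⟪a, b⟫_ℂ = 0) (x : H) :
    ‖pr (A ⊔ B) x‖ ^ 2 = ‖pr A x‖ ^ 2 + ‖pr B x‖ ^ 2 := by
  have h1 : ∀ a ∈ A, ⟪pr B x, a⟫_ℂ = 0 := fun a ha => by
    rw [inner_sa (pr_proj B).isSelfAdjoint.star_eq, pr_eq (subset_closure B.zero_mem)
      fun b hb => by rw [sub_zero, h a ha b hb], inner_zero_right]
  have h2 : ∀ b ∈ B, ⟪pr A x, b⟫_ℂ = 0 := fun b hb => by
    rw [inner_sa (pr_proj A).isSelfAdjoint.star_eq, pr_eq (subset_closure A.zero_mem)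
      fun a ha => by rw [sub_zero, inner_eq_zero_symm, h a ha b hb], inner_zero_right]
  have h3 : pr (A ⊔ B) x = pr A x + pr B x := by
    refine pr_eq ((A ⊔ B).topologicalClosure.add_mem
      (closure_mono (SetLike.coe_subset_coe.2 le_sup_left) (pr_mem A x))
      (closure_mono (SetLike.coe_subset_coe.2 le_sup_right) (pr_mem B x))) fun w hw => ?_
    obtain ⟨a, ha, b, hb, rfl⟩ := Submodule.mem_sup.1 hw
    rw [inner_add_right, ← sub_sub, inner_sub_left _ _ a, pr_inner A x (subset_closure ha), h1 a ha,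
      sub_right_comm, inner_sub_left _ _ b, pr_inner B x (subset_closure hb), h2 b hb]
    simp
  have h4 := inner_pr (A ⊔ B) x
  conv_lhs at h4 => rw [h3, inner_add_left, inner_pr, inner_pr]
  exact_mod_cast h4.symm

variable {M : VonNeumannAlgebra H} {z : H →L[ℂ] H}

theorem exists_family [TopologicalSpace.SeparableSpace H] (hM : NoMinimalBelow M z) (hz : z ∈ M)
    (hzN : z ∈ M.commutant) (hzp : IsStarProjection z) : ∃ T : (ℕ → H) → Submodule ℂ H,
      (∀ e, Orthonormal ℂ e → ∀ n, ‖pr (T e) (e n)‖ ^ 2 ≤ 3 / 4) ∧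
      ∀ (F : Finset (ℕ → H)) (ξ : H), z ξ ∈ closure
        {a | z a = a ∧ ∃ u ∈ M.commutant, star u * u = z ∧ ∀ e ∈ F, u a ∈ T e} := by
  classical
  obtain ⟨code, hcode⟩ : ∃ code : (ℕ → H) → ℕ → Bool, Function.Injective code := by
    borelize (ℕ → H)
    obtain ⟨f, -, hf⟩ := MeasurableSpace.measurable_injection_nat_bool_of_countablySeparated (ℕ → H)
    exact ⟨f, hf⟩
  let σ : ∀ m : ℕ, (ℕ → H) → Fin m → Bool := fun m e k => code e k
  let h : ℕ → H := TopologicalSpace.denseSeq H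
  let P : Type _ := {V : Submodule ℂ H // FiniteDimensional ℂ V ∧ ∀ a ∈ V, z a = a}
  have hl := fun (m : ℕ) (V : P) => @level H _ _ _ M z hM hz hzN hzp V.1 V.2.1 V.2.2
    (Fin m → Bool) _ (1 / 8 * (1 / 2) ^ (m + 1)) (by positivity)
  choose G W l1 l2 l3 l4 l5 l6 using hl
  have zz : ∀ x, z (z x) = z x := fun x => by rw [← mul_apply_eq_comp, hzp.isIdempotentElem.eq]
  let nx : ℕ → P → P := fun m V => ⟨V.1 ⊔ G m V ⊔ Submodule.span ℂ {z (h m)}, by
    have := V.2.1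
    have := l1 m V
    infer_instance, by
    intro a ha
    obtain ⟨a₁, h₁, a₂, h₂, rfl⟩ := Submodule.mem_sup.1 ha
    obtain ⟨a₃, h₃, a₄, h₄, rfl⟩ := Submodule.mem_sup.1 h₁
    obtain ⟨c, rfl⟩ := Submodule.mem_span_singleton.1 h₂
    rw [map_add, map_add, map_smul, zz, V.2.2 _ h₃, l2 m V _ h₄]⟩
  let V : ℕ → P := fun m => Nat.rec ⟨⊥, inferInstance, by simp⟩ nx m
  have hV : ∀ m, (V (m + 1)).1 = (V m).1 ⊔ G m (V m) ⊔ Submodule.span ℂ {z (h m)} := fun _ => rfl
  have mono : Monotone fun m => (V m).1 := monotone_nat_of_le_succ fun m => by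
    rw [hV]; exact le_sup_left.trans le_sup_left
  refine ⟨fun e => ⨆ m, W m (V m) (σ m e) e, fun e he n => ?_, fun F ξ => ?_⟩
  · have key : ∀ m, ∃ U ≤ (V m).1, (∀ k < m, W k (V k) (σ k e) e ≤ U) ∧
        ‖pr U (e n)‖ ^ 2 ≤ 5 / 8 * ‖pr (V m).1 (e n)‖ ^ 2 + (1 / 8 - 1 / 8 * (1 / 2) ^ m) := by
      intro m
      induction m with
      | zero =>
        refine ⟨(V 0).1, le_rfl, fun k hk => absurd hk (Nat.not_lt_zero k), ?_⟩
        have : pr (V 0).1 (e n) = 0 := pr_eq (subset_closure (Submodule.zero_mem _)) fun w hw => by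
          rw [(Submodule.mem_bot ℂ).1 hw, inner_zero_right]
        simp [this]
      | succ m ih =>
        obtain ⟨U, u1, u2, u3⟩ := ih
        have h1 : (V m).1 ⊔ G m (V m) ≤ (V (m + 1)).1 := by rw [hV]; exact le_sup_left
        refine ⟨U ⊔ W m (V m) (σ m e) e, (sup_le_sup u1 (l4 _ _ _ _)).trans h1, fun k hk => ?_, ?_⟩
        · rcases Nat.lt_succ_iff_lt_or_eq.1 hk with hk | rfl
          · exact (u2 k hk).trans le_sup_left
          · exact le_sup_right
        · have h2 := pr_mono h1 (e n)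
          rw [pr_sup fun a ha b hb => inner_eq_zero_symm.1 (l3 m _ b hb a ha)] at h2
          rw [pr_sup fun a ha b hb => inner_eq_zero_symm.1 (l3 m _ b (l4 _ _ _ _ hb) a (u1 ha))]
          have h3 := l5 m (V m) (σ m e) e he n
          rw [pow_succ (1 / 2 : ℝ) m] at h3 ⊢
          linarith
    have h1 : ∀ w ∈ ⨆ m, W m (V m) (σ m e) e, ‖⟪w, e n⟫_ℂ‖ ^ 2 ≤ 3 / 4 * ‖w‖ ^ 2 := by
      intro w hw
      obtain ⟨s, hs⟩ := Submodule.mem_iSup_iff_exists_finset.1 hw
      obtain ⟨U, -, u2, u3⟩ := key (s.sup id + 1)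
      have hU : w ∈ U := (iSup₂_le fun k hk =>
        u2 k (Nat.lt_succ_of_le (Finset.le_sup (f := id) hk)) :) hs
      have h2 := pow_le_pow_left₀ (norm_nonneg _) (norm_pr_le (V (s.sup id + 1)).1 (e n)) 2
      have h3 := pow_le_pow_left₀ (norm_nonneg _) (norm_inner_le_norm (𝕜 := ℂ) w (pr U (e n))) 2
      rw [he.1 n] at h2
      rw [inner_pr_of_mem _ (subset_closure hU), mul_pow] at h3
      have h4 : (0 : ℝ) ≤ (1 / 2) ^ (s.sup id + 1) := by positivity
      have h5 : ‖pr U (e n)‖ ^ 2 ≤ 3 / 4 := by linarith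
      nlinarith [sq_nonneg ‖w‖]
    have hc : closure ((⨆ m, W m (V m) (σ m e) e : Submodule ℂ H) : Set H) ⊆
        {w : H | ‖⟪w, e n⟫_ℂ‖ ^ (2 : ℕ) ≤ 3 / 4 * ‖w‖ ^ (2 : ℕ)} :=
      closure_minimal (fun w hw => h1 w hw) (isClosed_le (by fun_prop) (by fun_prop))
    have h2 := hc (pr_mem _ (e n))
    rw [mem_ofPred_eq, inner_pr, Complex.norm_real, Real.norm_of_nonneg (sq_nonneg _)] at h2
    by_contra h3
    nlinarith
  · refine map_mem_closure z.continuous (TopologicalSpace.denseRange_denseSeq H ξ) ?_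
    rintro _ ⟨k, rfl⟩
    have ev : ∀ᶠ m in atTop, ∀ e ∈ F, ∀ e' ∈ F, σ m e = σ m e' → e = e' := by
      refine (eventually_all_finset F).2 fun e _ => (eventually_all_finset F).2 fun e' _ => ?_
      by_cases hee : e = e'
      · exact .of_forall fun _ _ => hee
      · obtain ⟨j, hj⟩ := Function.ne_iff.1 (hcode.ne hee)
        filter_upwards [eventually_gt_atTop j] with m hm hσ
        exact absurd (congrFun hσ ⟨j, hm⟩) hj
    obtain ⟨m, hm1, hm2⟩ := (ev.and (eventually_ge_atTop (k + 1))).exists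
    have inj : InjOn (σ m) F := fun e he e' he' => hm1 e he e' he'
    obtain ⟨u, u1, u2, u3⟩ := l6 m (V m) (Function.invFunOn (σ m) F)
    refine ⟨zz _, u, u1, u2, fun e he => Submodule.mem_iSup_of_mem m ?_⟩
    have := u3 (σ m e) (z (h k)) (mono hm2 (by
      show z (h k) ∈ (V (k + 1)).1
      rw [hV]
      exact Submodule.mem_sup_right (Submodule.mem_span_singleton_self _)))
    rwa [inj.leftInvOn_invFunOn he] at this

end Pool.Agent.Lib.MP_b8e63c_lc
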