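import Pool.Agent.Lib.MP_b8e63c_lc.MssC
import Pool.Agent.Lib.MP_b8e63c_lc.Tower

/-! Paving along an ultrafilter (the Kadison-Singer theorem) for two orthonormal families. -/

open scoped InnerProductSpace ComplexOrder ComplexConjugate
open Set Filter Topology

noncomputable section

namespace Pool.Agent.Lib.MP_b8e63c_lc

/-- Colouring a finite weighted graph with little weight inside the colour classes. -/
theorem colour_fin {κ : Type*} [DecidableEq κ] (w : κ → κ → ℝ) (hs : ∀ k l, w k l = w l k)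
    (r : ℕ) (t : Finset κ) : ∃ c : κ → Fin (r + 1), ∀ l ∈ t,
      (r + 1 : ℝ) * ∑ k ∈ t.erase l with c k = c l, w k l ≤ ∑ k ∈ t.erase l, w k l := by
  let E : (κ → Fin (r + 1)) → ℝ := fun c =>
    ∑ k ∈ t, ∑ m ∈ t, if c k = c m ∧ k ≠ m then w k m else 0
  let ext : (t → Fin (r + 1)) → κ → Fin (r + 1) := fun d k => if h : k ∈ t then d ⟨k, h⟩ else 0
  obtain ⟨d, hd⟩ := Finite.exists_min fun d => E (ext d)
  have hmin : ∀ c, E (ext d) ≤ E c := fun c => (hd fun k => c k).trans (le_of_eq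
    (Finset.sum_congr rfl fun k hk => Finset.sum_congr rfl fun m hm => by simp [ext, hk, hm]))
  refine ⟨ext d, fun l hl => ?_⟩
  generalize ext d = c at hmin
  have split : ∀ c' : κ → Fin (r + 1), E c' = 2 * (∑ k ∈ t.erase l with c' k = c' l, w k l) +
      ∑ k ∈ t.erase l, ∑ m ∈ t.erase l, if c' k = c' m ∧ k ≠ m then w k m else 0 := fun c' => by
    simp only [E, ← Finset.add_sum_erase t _ hl, Finset.sum_add_distrib, Finset.sum_filter]
    have e1 : ∑ m ∈ t.erase l, (if c' l = c' m ∧ l ≠ m then w l m else 0) =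
        ∑ k ∈ t.erase l, if c' k = c' l then w k l else 0 :=
      Finset.sum_congr rfl fun m hm => by
        simp [(Finset.ne_of_mem_erase hm).symm, hs l m, eq_comm]
    have e2 : ∑ k ∈ t.erase l, (if c' k = c' l ∧ k ≠ l then w k l else 0) =
        ∑ k ∈ t.erase l, if c' k = c' l then w k l else 0 :=
      Finset.sum_congr rfl fun m hm => by simp [Finset.ne_of_mem_erase hm]
    rw [e1, e2]
    simp [two_mul, add_assoc]
  have key : ∀ j, ∑ k ∈ t.erase l with c k = c l, w k l ≤ ∑ k ∈ t.erase l with c k = j, w k l := by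
    intro j
    have h1 := hmin (Function.update c l j)
    rw [split, split] at h1
    have e1 : ∑ k ∈ t.erase l with Function.update c l j k = Function.update c l j l, w k l =
        ∑ k ∈ t.erase l with c k = j, w k l :=
      Finset.sum_congr (Finset.filter_congr fun k hk => by
        rw [Function.update_of_ne (Finset.ne_of_mem_erase hk), Function.update_self]) fun _ _ => rfl
    have e2 : ∑ k ∈ t.erase l, ∑ m ∈ t.erase l, (if Function.update c l j k =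
        Function.update c l j m ∧ k ≠ m then w k m else 0) =
        ∑ k ∈ t.erase l, ∑ m ∈ t.erase l, if c k = c m ∧ k ≠ m then w k m else 0 :=
      Finset.sum_congr rfl fun k hk => Finset.sum_congr rfl fun m hm => by
        rw [Function.update_of_ne (Finset.ne_of_mem_erase hk),
          Function.update_of_ne (Finset.ne_of_mem_erase hm)]
    rw [e1, e2] at h1
    linarith
  have := Finset.sum_le_sum fun j (_ : j ∈ Finset.univ) => key j
  rw [Finset.sum_fiberwise, Finset.sum_const, Finset.card_univ, Fintype.card_fin,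
    nsmul_eq_mul] at this
  exact_mod_cast this

theorem colour {κ : Type*} [DecidableEq κ] (w : κ → κ → ℝ) (hs : ∀ k l, w k l = w l k)
    (h0 : ∀ k l, 0 ≤ w k l) {C : ℝ} (hC : ∀ (l) (F : Finset κ), ∑ k ∈ F, w k l ≤ C) (r : ℕ) :
    ∃ c : κ → Fin (r + 1), ∀ (l) (F : Finset κ), (∀ k ∈ F, c k = c l) →
      ∑ k ∈ F.erase l, w k l ≤ C / (r + 1) := by
  choose g hg using colour_fin w hs r
  obtain ⟨c, hc⟩ := Finset.rado_selection (β := fun _ => Fin (r + 1)) g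
  refine ⟨c, fun l F hF => ?_⟩
  obtain ⟨t, ht1, ht2⟩ := hc (insert l F)
  rw [le_div_iff₀' (by positivity)]
  refine le_trans (mul_le_mul_of_nonneg_left (Finset.sum_le_sum_of_subset_of_nonneg
    (fun k hk => ?_) fun _ _ _ => h0 _ _) (by positivity))
    ((hg t l (ht1 (Finset.mem_insert_self _ _))).trans (hC l _))
  have hk' := Finset.mem_insert_of_mem (b := l) (Finset.mem_of_mem_erase hk)
  refine Finset.mem_filter.2 ⟨Finset.mem_erase.2 ⟨Finset.ne_of_mem_erase hk, ht1 hk'⟩, ?_⟩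
  rw [← ht2 k hk', ← ht2 l (Finset.mem_insert_self _ _), hF k (Finset.mem_of_mem_erase hk)]

variable {H : Type*} [NormedAddCommGroup H] [InnerProductSpace ℂ H]

/-- The family `u` restricted to `Z` has Bessel bound `γ`. -/
def Bes {κ : Type*} (u : κ → H) (Z : Set κ) (γ : ℝ) : Prop :=
  ∀ F : Finset κ, ↑F ⊆ Z → ∀ x, ∑ k ∈ F, ‖⟪u k, x⟫_ℂ‖ ^ 2 ≤ γ * ‖x‖ ^ 2

theorem Bes.split {κ : Type*} {u : κ → H} {Z : Set κ} {γ : ℝ} (h : Bes u Z γ) (hγ : 0 < γ)
    (h2 : ∀ k ∈ Z, ‖u k‖ ^ 2 ≤ γ / 12) :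
    ∃ b : κ → Bool, ∀ β, Bes u (Z ∩ {k | b k = β}) (7 / 8 * γ) := by
  classical
  have hs : ∀ y : ℝ, (‖((√γ)⁻¹ : ℝ)‖ * y) ^ 2 = y ^ 2 / γ := fun y => by
    rw [mul_pow, Real.norm_of_nonneg (by positivity), inv_pow, Real.sq_sqrt hγ.le,
      inv_mul_eq_div]
  have hg := fun t : Finset κ => Mss.ks_fin (t.filter (· ∈ Z))
    (fun k => (((√γ)⁻¹ : ℝ) : ℂ) • u k) (fun x => by
      simp only [inner_smul_left, Complex.conj_ofReal, norm_mul, Complex.norm_real, hs,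
        ← Finset.sum_div]
      exact (div_le_iff₀' hγ).2 (h _ (fun k hk => (Finset.mem_filter.1 hk).2) x))
    fun k hk => by
      rw [norm_smul, Complex.norm_real, hs, div_le_iff₀' hγ]
      linarith [h2 k (Finset.mem_filter.1 hk).2]
  choose g hg using hg
  obtain ⟨b, hb⟩ := Finset.rado_selection (β := fun _ => Bool) g
  refine ⟨b, fun β F hF x => ?_⟩
  obtain ⟨t, ht1, ht2⟩ := hb F
  have h3 := hg t β x
  simp only [inner_smul_left, Complex.conj_ofReal, norm_mul, Complex.norm_real, hs,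
    ← Finset.sum_div] at h3
  rw [div_le_iff₀' hγ] at h3
  refine le_trans (Finset.sum_le_sum_of_subset_of_nonneg (fun k hk => ?_)
    fun _ _ _ => sq_nonneg _) (h3.trans (le_of_eq (by ring)))
  exact Finset.mem_filter.2 ⟨Finset.mem_filter.2 ⟨ht1 hk, (hF hk).1⟩,
    (ht2 k hk).symm.trans (hF hk).2⟩

theorem Bes.small {κ : Type*} {u : κ → H} (U : Ultrafilter κ) {Z : Set κ} (hZ : Z ∈ U) {γ δ : ℝ}
    (h : Bes u Z γ) (hδ : 0 < δ) (h2 : ∀ k ∈ Z, ‖u k‖ ^ 2 ≤ δ / 12) :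
    ∃ Y ∈ U, Y ⊆ Z ∧ Bes u Y δ := by
  have mono : ∀ {Y : Set κ} {a b : ℝ}, a ≤ b → Bes u Y a → Bes u Y b := fun hab hY F hF x =>
    (hY F hF x).trans (mul_le_mul_of_nonneg_right hab (sq_nonneg _))
  have key : ∀ n : ℕ, ∃ Y ∈ U, Y ⊆ Z ∧ Bes u Y (max δ ((7 / 8) ^ n * γ)) := by
    intro n
    induction n with
    | zero => exact ⟨Z, hZ, subset_rfl, mono (by simp) h⟩
    | succ n ih =>
      obtain ⟨Y, y1, y2, y3⟩ := ih
      obtain ⟨b, hb⟩ := y3.split (lt_max_of_lt_left hδ) fun k hk =>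
        (h2 k (y2 hk)).trans (div_le_div_of_nonneg_right (le_max_left _ _) (by norm_num))
      obtain ⟨β, hβ⟩ := (U.map b).eq_pure_of_finite
      have hβ' : {k | b k = β} ∈ U := by
        have : {β} ∈ U.map b := by rw [hβ]; exact mem_singleton β
        exact this
      refine ⟨_, inter_mem y1 hβ', inter_subset_left.trans y2, mono ?_ (hb β)⟩
      rw [mul_max_of_nonneg _ _ (by norm_num), pow_succ', mul_assoc]
      exact max_le_max (by linarith) le_rfl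
  obtain ⟨n, hn⟩ := ((tendsto_pow_atTop_nhds_zero_of_lt_one (r := (7 / 8 : ℝ)) (by norm_num)
    (by norm_num)).mul_const γ).eventually (gt_mem_nhds (by simpa using hδ)) |>.exists
  obtain ⟨Y, y1, y2, y3⟩ := key n
  exact ⟨Y, y1, y2, mono (max_le le_rfl hn.le) y3⟩

variable [CompleteSpace H]

theorem pr_le_of_inner {W : Submodule ℂ H} {y : H} {γ : ℝ} (hγ : 0 ≤ γ)
    (h : ∀ w ∈ W, ‖⟪w, y⟫_ℂ‖ ^ 2 ≤ γ * ‖w‖ ^ 2) : ‖pr W y‖ ^ 2 ≤ γ := by
  have hc : closure (W : Set H) ⊆ {w : H | ‖⟪w, y⟫_ℂ‖ ^ (2 : ℕ) ≤ γ * ‖w‖ ^ (2 : ℕ)} :=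
    closure_minimal (fun w hw => h w hw) (isClosed_le (by fun_prop) (by fun_prop))
  have h2 := hc (pr_mem _ y)
  rw [mem_ofPred_eq, inner_pr, Complex.norm_real, Real.norm_of_nonneg (sq_nonneg _)] at h2
  by_contra h3
  nlinarith

/-- The projection onto the closed span of a part of a family. -/
def prs {κ : Type*} (a : κ → H) (Z : Set κ) : H →L[ℂ] H := pr (Submodule.span ℂ (a '' Z))

theorem prs_le {κ : Type*} {a : κ → H} (ha : Orthonormal ℂ a) {Z : Set κ} {y : H} {γ : ℝ}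
    (h : ∀ F : Finset κ, ↑F ⊆ Z → ∑ k ∈ F, ‖⟪a k, y⟫_ℂ‖ ^ 2 ≤ γ) : ‖prs a Z y‖ ^ 2 ≤ γ := by
  refine pr_le_of_inner (by simpa using h ∅) fun w hw => ?_
  obtain ⟨c, hF, rfl⟩ := (Finsupp.mem_span_image_iff_linearCombination ℂ).1 hw
  rw [Finsupp.mem_supported] at hF
  rw [Finsupp.linearCombination_apply, Finsupp.sum]
  generalize c.support = F at hF
  have nm : ∀ d : κ → ℂ, ‖∑ k ∈ F, d k • a k‖ ^ 2 = ∑ k ∈ F, ‖d k‖ ^ 2 := fun d => by
    have := ha.inner_sum d d F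
    rw [inner_self_eq_norm_sq_to_K] at this
    simp only [Complex.conj_mul'] at this
    refine Complex.ofReal_injective ?_
    push_cast
    exact this
  have e : ⟪∑ k ∈ F, c k • a k, y⟫_ℂ = ⟪∑ k ∈ F, c k • a k, ∑ k ∈ F, ⟪a k, y⟫_ℂ • a k⟫_ℂ := by
    rw [ha.inner_sum, sum_inner]
    simp only [inner_smul_left]
  have := pow_le_pow_left₀ (norm_nonneg _) (norm_inner_le_norm (𝕜 := ℂ) (∑ k ∈ F, c k • a k)
    (∑ k ∈ F, ⟪a k, y⟫_ℂ • a k)) 2
  rw [← e, mul_pow, nm fun k => ⟪a k, y⟫_ℂ, mul_comm] at this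
  exact this.trans (mul_le_mul_of_nonneg_right (h F hF) (sq_nonneg _))

/-- Paving along an ultrafilter. -/
theorem pave {κ : Type*} {a b : κ → H} (ha : Orthonormal ℂ a) (hb : Orthonormal ℂ b)
    (U : Ultrafilter κ) (S : H →L[ℂ] H) (hS : Tendsto (fun k => ⟪a k, S (b k)⟫_ℂ) U (𝓝 0))
    {ε : ℝ} (hε : 0 < ε) : ∃ Z ∈ U, ‖prs a Z * S * prs b Z‖ ≤ ε := by
  classical
  have hδ : 0 < ε ^ 2 / 24 := by positivity
  obtain ⟨r, hr⟩ := exists_nat_gt ((‖S‖ ^ 2 + ‖S‖ ^ 2) / (ε ^ 2 / 24))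
  have b1 : ∀ (T : H →L[ℂ] H) {e : κ → H}, Orthonormal ℂ e → ∀ l, ‖T (e l)‖ ^ 2 ≤ ‖T‖ ^ 2 :=
    fun T e he l => pow_le_pow_left₀ (norm_nonneg _) (by simpa [he.1 l] using T.le_opNorm (e l)) 2
  obtain ⟨c, hc⟩ := colour (fun k l => ‖⟪a k, S (b l)⟫_ℂ‖ ^ 2 + ‖⟪a l, S (b k)⟫_ℂ‖ ^ 2)
    (fun k l => add_comm _ _) (fun k l => by positivity) (C := ‖S‖ ^ 2 + ‖S‖ ^ 2) (fun l F => by
      rw [Finset.sum_add_distrib]
      refine add_le_add ((ha.sum_inner_products_le _).trans (b1 S hb l)) ?_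
      have e : ∀ k, ‖⟪a l, S (b k)⟫_ℂ‖ = ‖⟪b k, star S (a l)⟫_ℂ‖ := fun k => by
        rw [← inner_star, norm_inner_symm]
      simp only [e]
      exact (hb.sum_inner_products_le _).trans ((b1 (star S) ha l).trans_eq (by rw [norm_star]))) r
  obtain ⟨β, hβ⟩ := (U.map c).eq_pure_of_finite
  have hβ' : {k | c k = β} ∈ U := by
    have : {β} ∈ U.map c := by rw [hβ]; exact mem_singleton β
    exact this
  have h1 : {k | ‖⟪a k, S (b k)⟫_ℂ‖ ^ 2 < ε ^ 2 / 24} ∈ U :=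
    (hS.norm.pow 2).eventually (gt_mem_nhds (by simpa using hδ))
  obtain ⟨Z, hZ⟩ : ∃ Z, Z = {k | c k = β} ∩ {k | ‖⟪a k, S (b k)⟫_ℂ‖ ^ 2 < ε ^ 2 / 24} := ⟨_, rfl⟩
  have hZU : Z ∈ U := hZ ▸ inter_mem hβ' h1
  have h2 : Bes (fun l => (prs a Z * S) (b l)) Z (‖star (prs a Z * S)‖ ^ 2) := fun F _ x => by
    have e : ∀ k, ⟪(prs a Z * S) (b k), x⟫_ℂ = ⟪b k, star (prs a Z * S) x⟫_ℂ := fun k => by
      rw [← inner_star, star_star]
    simp only [e]
    refine (hb.sum_inner_products_le _).trans ?_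
    rw [← mul_pow]
    exact pow_le_pow_left₀ (norm_nonneg _) (ContinuousLinearMap.le_opNorm _ _) 2
  obtain ⟨Y, y1, y2, y3⟩ := h2.small U hZU (δ := ε ^ 2) (by positivity) fun l hl => by
    refine prs_le ha fun F hF => ?_
    rw [hZ] at hl hF
    have h3 := hc l F fun k hk => (hF hk).1.trans hl.1.symm
    have h4 : (‖S‖ ^ 2 + ‖S‖ ^ 2) / (r + 1) ≤ ε ^ 2 / 24 := by
      rw [div_lt_iff₀ hδ] at hr
      rw [div_le_iff₀ (by positivity)]
      nlinarith
    have h5 : ∑ k ∈ F, ‖⟪a k, S (b l)⟫_ℂ‖ ^ 2 ≤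
        ‖⟪a l, S (b l)⟫_ℂ‖ ^ 2 + ∑ k ∈ F.erase l, ‖⟪a k, S (b l)⟫_ℂ‖ ^ 2 := by
      rw [← Finset.sum_insert (f := fun k => ‖⟪a k, S (b l)⟫_ℂ‖ ^ 2) (F.notMem_erase l)]
      exact Finset.sum_le_sum_of_subset_of_nonneg (F.subset_insert_iff.2 subset_rfl)
        fun _ _ _ => sq_nonneg _
    have h6 := (Finset.sum_le_sum fun k _ => le_add_of_nonneg_right (sq_nonneg _)).trans h3
    have h7 : ‖⟪a l, S (b l)⟫_ℂ‖ ^ 2 < ε ^ 2 / 24 := hl.2
    show ∑ k ∈ F, ‖⟪a k, S (b l)⟫_ℂ‖ ^ 2 ≤ _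
    linarith
  refine ⟨Y, y1, ?_⟩
  have e1 : prs a Y * prs a Z = prs a Y := by
    ext x
    exact pr_pr (Submodule.span_mono (image_mono y2)) x
  have e2 : ‖prs b Y * star (prs a Z * S)‖ ≤ ε := by
    refine ContinuousLinearMap.opNorm_le_bound _ hε.le fun x => ?_
    refine (pow_le_pow_iff_left₀ (norm_nonneg _) (by positivity) two_ne_zero).1 ?_
    rw [mul_pow]
    refine prs_le hb fun F hF => le_trans (le_of_eq ?_) (y3 F hF x)
    refine Finset.sum_congr rfl fun k _ => ?_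
    have := inner_star (star (prs a Z * S)) (b k) x
    rw [star_star] at this
    exact congrArg (fun w : ℂ => ‖w‖ ^ 2) this.symm
  rw [← norm_star, star_mul, star_star, 
    show star (prs b Y) = prs b Y from (pr_proj _).isSelfAdjoint.star_eq] at e2
  rw [← e1, mul_assoc, mul_assoc, ← mul_assoc (prs a Z)]
  exact (norm_mul_le _ _).trans ((mul_le_of_le_one_left (norm_nonneg _)
    (pr_proj _).norm_le).trans e2)

end Pool.Agent.Lib.MP_b8e63c_lc
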